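import Pool.Agent.Lib.MP_b879c5_an.Lin.SpecA

section
/-!
# DEC: decay of the Fourier coefficients
-/
set_option autoImplicit false

namespace Pool.Agent.Lib.MPb879.Lin

open Set Filter MeasureTheory intervalIntegral
open scoped Topology ContDiff

namespace DECM

open Pool.Agent.Lib.MP_b879c5_an

lemma hasDerivAt_e (n : ℕ) (x : ℝ) :
    HasDerivAt (fun x : ℝ => Complex.exp (-((n : ℂ) * x * Complex.I)))
      (-((n : ℂ) * Complex.I) * Complex.exp (-((n : ℂ) * x * Complex.I))) x := by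
  have h1 : HasDerivAt (fun x : ℝ => -((n : ℂ) * (x : ℂ) * Complex.I)) (-((n : ℂ) * Complex.I)) x := by
    have h2 : HasDerivAt (fun x : ℝ => (x : ℂ)) 1 x := Complex.ofRealCLM.hasDerivAt
    have h3 := ((h2.const_mul (n : ℂ)).mul_const Complex.I).neg
    rw [mul_one] at h3
    exact h3
  have h4 := h1.cexp
  rw [mul_comm] at h4
  exact h4

lemma norm_e (n : ℕ) (x : ℝ) : ‖Complex.exp (-((n : ℂ) * x * Complex.I))‖ = 1 := by
  have h1 : -((n : ℂ) * x * Complex.I) = ((-(n * x) : ℝ) : ℂ) * Complex.I := by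
    push_cast
    ring
  rw [h1, Complex.norm_exp_ofReal_mul_I]

lemma e_two_pi (n : ℕ) : Complex.exp (-((n : ℂ) * ((2 * Real.pi : ℝ) : ℂ) * Complex.I)) = 1 := by
  rw [Complex.exp_eq_one_iff]
  refine ⟨-n, ?_⟩
  push_cast
  ring

lemma continuous_e (n : ℕ) : Continuous (fun x : ℝ => Complex.exp (-((n : ℂ) * x * Complex.I))) := by
  fun_prop

/-- Integration by parts. -/
lemma fc_deriv (g g' : ℝ → ℝ) (hg : ∀ x, HasDerivAt g (g' x) x) (hc : Continuous g')
    (hp : g (2 * Real.pi) = g 0) (n : ℕ) : fc g' n = (n : ℂ) * Complex.I * fc g n := by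
  unfold fc
  have h1 := integral_mul_deriv_eq_deriv_mul (a := 0) (b := 2 * Real.pi)
    (u := fun x : ℝ => Complex.exp (-((n : ℂ) * x * Complex.I)))
    (v := fun x : ℝ => (g x : ℂ))
    (u' := fun x : ℝ => -((n : ℂ) * Complex.I) * Complex.exp (-((n : ℂ) * x * Complex.I)))
    (v' := fun x : ℝ => (g' x : ℂ))
    (fun x _ => hasDerivAt_e n x) (fun x _ => (hg x).ofReal_comp)
    (((continuous_e n).const_mul _).intervalIntegrable _ _)
    ((Complex.continuous_ofReal.comp hc).intervalIntegrable _ _)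
  rw [e_two_pi, hp] at h1
  have h2 : ∫ x in (0)..(2 * Real.pi), (g' x : ℂ) * Complex.exp (-((n : ℂ) * x * Complex.I)) =
      ∫ x in (0)..(2 * Real.pi), Complex.exp (-((n : ℂ) * x * Complex.I)) * (g' x : ℂ) := by
    refine integral_congr fun x _ => ?_
    exact mul_comm _ _
  have h3 : ∫ x in (0)..(2 * Real.pi), -((n : ℂ) * Complex.I) *
      Complex.exp (-((n : ℂ) * x * Complex.I)) * (g x : ℂ) =
      -((n : ℂ) * Complex.I) *
        ∫ x in (0)..(2 * Real.pi), (g x : ℂ) * Complex.exp (-((n : ℂ) * x * Complex.I)) := by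
    rw [← intervalIntegral.integral_const_mul]
    refine integral_congr fun x _ => ?_
    ring
  rw [h2, h1, h3]
  simp
  ring

lemma periodic_iter (g : ℝ → ℝ) (hp : ∀ x, g (x + 2 * Real.pi) = g x) (k : ℕ) (x : ℝ) :
    iteratedDeriv k g (x + 2 * Real.pi) = iteratedDeriv k g x := by
  have h1 := iteratedDeriv_comp_add_const k g (2 * Real.pi)
  have h2 : (fun z => g (z + 2 * Real.pi)) = g := funext hp
  rw [h2] at h1
  exact (congrFun h1 x).symm

lemma hasDerivAt_iter (g : ℝ → ℝ) (hg : ContDiff ℝ ∞ g) (k : ℕ) (x : ℝ) :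
    HasDerivAt (iteratedDeriv k g) (iteratedDeriv (k + 1) g x) x := by
  rw [iteratedDeriv_succ]
  have h1 : Differentiable ℝ (iteratedDeriv k g) :=
    hg.differentiable_iteratedDeriv k (by exact_mod_cast ENat.natCast_lt_top k)
  exact (h1 x).hasDerivAt

lemma continuous_iter (g : ℝ → ℝ) (hg : ContDiff ℝ ∞ g) (k : ℕ) :
    Continuous (iteratedDeriv k g) :=
  hg.continuous_iteratedDeriv k (by exact_mod_cast le_top)

lemma fc_iter (g : ℝ → ℝ) (hg : ContDiff ℝ ∞ g) (hp : ∀ x, g (x + 2 * Real.pi) = g x) (n k : ℕ) :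
    fc (iteratedDeriv k g) n = ((n : ℂ) * Complex.I) ^ k * fc g n := by
  induction k with
  | zero => simp
  | succ k ih =>
    rw [fc_deriv (iteratedDeriv k g) (iteratedDeriv (k + 1) g) (hasDerivAt_iter g hg k)
      (continuous_iter g hg (k + 1)) ?_ n, ih]
    · ring
    · have := periodic_iter g hp k 0
      rwa [zero_add] at this

lemma norm_fc_iter (g : ℝ → ℝ) (hg : ContDiff ℝ ∞ g) (hp : ∀ x, g (x + 2 * Real.pi) = g x)
    (n k : ℕ) : ‖fc (iteratedDeriv k g) n‖ = (n : ℝ) ^ k * ‖fc g n‖ := by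
  rw [fc_iter g hg hp n k, norm_mul, norm_pow, norm_mul, Complex.norm_I, mul_one,
    Complex.norm_natCast]

/-- The Fourier coefficient is bounded by the mean. -/
lemma norm_fc_le (g : ℝ → ℝ) (n : ℕ) :
    ‖fc g n‖ ≤ 1 / (2 * Real.pi) * ∫ x in (0)..(2 * Real.pi), |g x| := by
  unfold fc
  have hpi : (0 : ℝ) ≤ 2 * Real.pi := by positivity
  rw [norm_mul, Complex.norm_real, Real.norm_of_nonneg (by positivity)]
  refine mul_le_mul_of_nonneg_left ?_ (by positivity)
  refine (intervalIntegral.norm_integral_le_integral_norm hpi).trans (le_of_eq ?_)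
  refine integral_congr fun x _ => ?_
  simp only [norm_mul, norm_e, mul_one, Complex.norm_real, Real.norm_eq_abs]

lemma norm_fc_le_of_bound (g : ℝ → ℝ) (hg : Continuous g) (n : ℕ) (C : ℝ)
    (hC : ∀ x ∈ Icc 0 (2 * Real.pi), |g x| ≤ C) : ‖fc g n‖ ≤ C := by
  have hpi : (0 : ℝ) ≤ 2 * Real.pi := by positivity
  refine (norm_fc_le g n).trans ?_
  have h1 : ∫ x in (0)..(2 * Real.pi), |g x| ≤ ∫ x in (0)..(2 * Real.pi), C :=
    intervalIntegral.integral_mono_on hpi (hg.abs.intervalIntegrable _ _)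
      intervalIntegrable_const hC
  rw [intervalIntegral.integral_const, sub_zero, smul_eq_mul] at h1
  refine (mul_le_mul_of_nonneg_left h1 (by positivity)).trans (le_of_eq ?_)
  have := Real.pi_pos
  field_simp

/-- Cauchy-Schwarz. -/
lemma norm_fc_le_sqrt (g : ℝ → ℝ) (hg : Continuous g) (n : ℕ) :
    ‖fc g n‖ ≤ Real.sqrt (∫ x in (0)..(2 * Real.pi), (g x) ^ 2) := by
  have hpi : (0 : ℝ) ≤ 2 * Real.pi := by positivity
  have hpi3 := Real.pi_gt_three
  set a : ℝ := 1 / (2 * Real.pi) * ∫ x in (0)..(2 * Real.pi), |g x| with ha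
  refine (norm_fc_le g n).trans ?_
  rw [← ha]
  have ha0 : 0 ≤ a := by
    refine mul_nonneg (by positivity) (intervalIntegral.integral_nonneg hpi fun x _ => abs_nonneg _)
  refine Real.le_sqrt_of_sq_le ?_
  have h1 : 0 ≤ ∫ x in (0)..(2 * Real.pi), (|g x| - a) ^ 2 :=
    intervalIntegral.integral_nonneg hpi fun x _ => sq_nonneg _
  have h2 : ∫ x in (0)..(2 * Real.pi), (|g x| - a) ^ 2 =
      (∫ x in (0)..(2 * Real.pi), (g x) ^ 2) - 2 * a * (∫ x in (0)..(2 * Real.pi), |g x|) +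
        2 * Real.pi * a ^ 2 := by
    have h3 : ∀ x, (|g x| - a) ^ 2 = (g x) ^ 2 - 2 * a * |g x| + a ^ 2 := by
      intro x
      rw [sub_sq, sq_abs]
      ring
    simp only [h3]
    rw [intervalIntegral.integral_add, intervalIntegral.integral_sub,
      intervalIntegral.integral_const_mul, intervalIntegral.integral_const]
    · simp
    · exact (hg.pow 2).intervalIntegrable _ _
    · exact (hg.abs.const_mul _).intervalIntegrable _ _
    · exact ((hg.pow 2).sub (hg.abs.const_mul _)).intervalIntegrable _ _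
    · exact intervalIntegrable_const
  have h4 : ∫ x in (0)..(2 * Real.pi), |g x| = 2 * Real.pi * a := by
    rw [ha]
    field_simp
  rw [h2, h4] at h1
  nlinarith [sq_nonneg a]

/-- Space derivatives in the strip. -/
lemma iter_eq (T : ℝ) (G : ℝ × ℝ → ℝ) (hG : Sm T G) (k : ℕ) :
    Sm T (Dx^[k] G) ∧ ∀ t ∈ Ioo 0 T, ∀ x, iteratedDeriv k (fun y => G (t, y)) x =
      (Dx^[k] G) (t, x) := by
  induction k with
  | zero => exact ⟨hG, fun t _ x => by simp⟩
  | succ k ih =>
    rw [Function.iterate_succ_apply']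
    refine ⟨ih.1.dx, fun t ht x => ?_⟩
    rw [iteratedDeriv_succ]
    have h1 : iteratedDeriv k (fun y => G (t, y)) = fun y => (Dx^[k] G) (t, y) := by
      funext y
      exact ih.2 t ht y
    rw [h1]
    exact (ih.1.hasDerivAt_x ht x).deriv

lemma contDiff_slice (T : ℝ) (G : ℝ × ℝ → ℝ) (hG : Sm T G) (t : ℝ) (ht : t ∈ Ioo 0 T) :
    ContDiff ℝ ∞ (fun y => G (t, y)) := by
  rw [contDiff_iff_contDiffAt]
  intro x
  have h1 : ContDiffAt ℝ ∞ G (t, x) := hG.contDiffAt ((isOpen_Om T).mem_nhds (mem_Om.mpr ht))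
  exact h1.comp x (contDiffAt_const.prodMk contDiffAt_id)

end DECM

open DECM
open Pool.Agent.Lib.MP_b879c5_an

theorem specDEC : SpecDEC := by
  intro T t₀ v hv ht₀ htT
  obtain ⟨hsm, hper, -⟩ := hv
  have hSm : Sm T (fun p : ℝ × ℝ => v p.1 p.2) := hsm
  have hd : 0 < T - t₀ := by linarith
  have hnorm : ∀ s n, ‖FF T t₀ v s n‖ =
      (T - t₀) * Real.exp (-s) * ‖fc (v (T - (T - t₀) * Real.exp (-s))) n‖ := by
    intro s n
    unfold FF
    rw [norm_mul, norm_mul, Complex.norm_real, Real.norm_of_nonneg (by positivity)]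
    have h1 : (n : ℂ) * ((T - (T - t₀) * Real.exp (-s) : ℝ) : ℂ) * Complex.I =
        ((n * (T - (T - t₀) * Real.exp (-s)) : ℝ) : ℂ) * Complex.I := by
      push_cast
      ring
    rw [h1, Complex.norm_exp_ofReal_mul_I, mul_one]
  have hcd : ∀ t ∈ Ioo 0 T, ContDiff ℝ ∞ (v t) := fun t ht => contDiff_slice T _ hSm t ht
  have hnorm0 : ∀ n, ‖FF T t₀ v 0 n‖ = (T - t₀) * ‖fc (v t₀) n‖ := by
    intro n
    rw [hnorm 0 n]
    simp
  have ht₀' : t₀ ∈ Ioo 0 T := ⟨ht₀, htT⟩
  have hH : ∀ g : ℝ → ℝ, Continuous g →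
      (∀ x, g x ^ 2 ≤ (v t₀ x) ^ 2 + (iteratedDeriv 6 (v t₀) x) ^ 2) → ∀ n,
      ‖fc g n‖ ≤ H6norm v t₀ := by
    intro g hg hle n
    refine (norm_fc_le_sqrt g hg n).trans ?_
    unfold H6norm
    refine Real.sqrt_le_sqrt ?_
    have hpi : (0 : ℝ) ≤ 2 * Real.pi := by positivity
    refine intervalIntegral.integral_mono_on hpi ((hg.pow 2).intervalIntegrable _ _) ?_
      fun x _ => hle x
    exact (((hcd t₀ ht₀').continuous.pow 2).add
      ((continuous_iter _ (hcd t₀ ht₀') 6).pow 2)).intervalIntegrable _ _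
  refine ⟨fun S => ?_, fun n hn => ?_, ?_, ?_⟩
  · obtain ⟨hS4, hS4'⟩ := iter_eq T _ hSm 4
    have hK : IsCompact (Icc t₀ (T - (T - t₀) * Real.exp (-S)) ×ˢ Icc 0 (2 * Real.pi)) :=
      isCompact_Icc.prod isCompact_Icc
    have hsub : Icc t₀ (T - (T - t₀) * Real.exp (-S)) ×ˢ Icc 0 (2 * Real.pi) ⊆ Om T := by
      rintro ⟨t, x⟩ ⟨ht, _⟩
      refine mem_Om.mpr ⟨lt_of_lt_of_le ht₀ ht.1, lt_of_le_of_lt ht.2 ?_⟩
      have : 0 < (T - t₀) * Real.exp (-S) := by positivity
      linarith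
    obtain ⟨C, hC⟩ := hK.exists_bound_of_continuousOn (hS4.continuousOn.mono hsub)
    refine ⟨(T - t₀) * C, fun s hs n hn => ?_⟩
    have hn0 : (0 : ℝ) < n := by
      have : 0 < n := by omega
      exact_mod_cast this
    set t : ℝ := T - (T - t₀) * Real.exp (-s) with ht
    have he1 : Real.exp (-s) ≤ 1 := Real.exp_le_one_iff.2 (by linarith [hs.1])
    have he2 : Real.exp (-S) ≤ Real.exp (-s) := Real.exp_le_exp.2 (by linarith [hs.2])
    have htI : t ∈ Icc t₀ (T - (T - t₀) * Real.exp (-S)) := by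
      constructor
      · rw [ht]
        nlinarith
      · rw [ht]
        nlinarith
    have htO : t ∈ Ioo 0 T := by
      refine ⟨lt_of_lt_of_le ht₀ htI.1, ?_⟩
      have : 0 < (T - t₀) * Real.exp (-s) := by positivity
      rw [ht]
      linarith
    have h1 : ‖fc (iteratedDeriv 4 (v t)) n‖ ≤ C := by
      refine norm_fc_le_of_bound _ (continuous_iter _ (hcd t htO) 4) n C fun x hx => ?_
      have h2 := hC (t, x) ⟨htI, hx⟩
      rw [← hS4' t htO x, Real.norm_eq_abs] at h2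
      exact h2
    rw [norm_fc_iter (v t) (hcd t htO) (hper t htO) n 4] at h1
    rw [hnorm s n, ← ht, le_div_iff₀ (by positivity)]
    have h3 : 0 ≤ ‖fc (v t) n‖ := norm_nonneg _
    have h4 : 0 ≤ (n : ℝ) ^ 4 * ‖fc (v t) n‖ := by positivity
    calc (T - t₀) * Real.exp (-s) * ‖fc (v t) n‖ * (n : ℝ) ^ 4
        = (T - t₀) * (Real.exp (-s) * ((n : ℝ) ^ 4 * ‖fc (v t) n‖)) := by ring
      _ ≤ (T - t₀) * (1 * ((n : ℝ) ^ 4 * ‖fc (v t) n‖)) := by
          refine mul_le_mul_of_nonneg_left ?_ hd.le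
          exact mul_le_mul_of_nonneg_right he1 h4
      _ ≤ (T - t₀) * C := by
          rw [one_mul]
          exact mul_le_mul_of_nonneg_left h1 hd.le
  · have hn0 : (0 : ℝ) < n := by
      have : 0 < n := by omega
      exact_mod_cast this
    rw [hnorm0 n, le_div_iff₀ (by positivity), mul_assoc]
    refine mul_le_mul_of_nonneg_left ?_ hd.le
    rw [mul_comm, ← norm_fc_iter (v t₀) (hcd t₀ ht₀') (hper t₀ ht₀') n 6]
    refine hH _ (continuous_iter _ (hcd t₀ ht₀') 6) (fun x => ?_) n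
    have := sq_nonneg (v t₀ x)
    linarith
  · rw [hnorm0 0]
    refine mul_le_mul_of_nonneg_left ?_ hd.le
    refine hH _ (hcd t₀ ht₀').continuous (fun x => ?_) 0
    have := sq_nonneg (iteratedDeriv 6 (v t₀) x)
    linarith
  · rw [hnorm0 1]
    refine mul_le_mul_of_nonneg_left ?_ hd.le
    refine hH _ (hcd t₀ ht₀').continuous (fun x => ?_) 1
    have := sq_nonneg (iteratedDeriv 6 (v t₀) x)
    linarith

end Pool.Agent.Lib.MPb879.Lin
end

section
/-!
# MP_b879c5_an, Lin, ENE: the energy identity of the Galerkin system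
-/
set_option autoImplicit false

namespace Pool.Agent.Lib.MPb879.Lin

open Set Filter Finset
open scoped Topology ContDiff

namespace ENEM

lemma der_nsq (h : ℝ → ℂ) (h' : ℂ) (s : ℝ) (hh : HasDerivAt h h' s) :
    HasDerivAt (fun r => ‖h r‖ ^ 2) (2 * (star (h s) * h').re) s := by
  have h1 := hh.norm_sq
  have h2 : (Inner.inner ℝ (h s) h' : ℝ) = (star (h s) * h').re := by
    rw [Complex.inner, Complex.mul_re, Complex.mul_re, Complex.star_def]
    simp only [Complex.conj_re, Complex.conj_im]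
    ring
  rw [h2] at h1
  exact h1

lemma tele (W : ℕ → ℝ) (M : ℕ) (hM : 1 ≤ M) :
    ∑ n ∈ Finset.Icc 2 M, (W n - W (n - 1)) = W M - W 1 := by
  induction M, hM using Nat.le_induction with
  | base => simp
  | succ k hk ih =>
    rw [Finset.sum_Icc_succ_top (by omega), ih]
    simp

lemma rhs_re (μ : ℂ) (s : ℝ) (f : ℕ → ℂ) (n : ℕ) :
    (rhs μ s f n).re = Real.exp (-s) * dd n * (μ.im * (f n).re + μ.re * (f n).im) +
      (((n : ℝ) + 2) * (f (n + 1)).re - ((n : ℝ) - 2) * (f (n - 1)).re) / 2 := by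
  unfold rhs
  generalize Real.exp (-s) * dd n = E
  have h1 : ((n : ℂ) + 2) = (((n : ℝ) + 2 : ℝ) : ℂ) := by push_cast; rfl
  have h2 : ((n : ℂ) - 2) = (((n : ℝ) - 2 : ℝ) : ℂ) := by push_cast; rfl
  rw [h1, h2]
  simp only [Complex.mul_re, Complex.add_re, Complex.sub_re, Complex.neg_re, Complex.mul_im,
    Complex.neg_im, Complex.I_re, Complex.I_im,
    Complex.div_ofNat_re, Complex.ofReal_re, Complex.ofReal_im]
  ring

lemma rhs_im (μ : ℂ) (s : ℝ) (f : ℕ → ℂ) (n : ℕ) :
    (rhs μ s f n).im = Real.exp (-s) * dd n * (μ.im * (f n).im - μ.re * (f n).re) +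
      (((n : ℝ) + 2) * (f (n + 1)).im - ((n : ℝ) - 2) * (f (n - 1)).im) / 2 := by
  unfold rhs
  generalize Real.exp (-s) * dd n = E
  have h1 : ((n : ℂ) + 2) = (((n : ℝ) + 2 : ℝ) : ℂ) := by push_cast; rfl
  have h2 : ((n : ℂ) - 2) = (((n : ℝ) - 2 : ℝ) : ℂ) := by push_cast; rfl
  rw [h1, h2]
  simp only [Complex.mul_re, Complex.add_im, Complex.sub_im, Complex.neg_re, Complex.mul_im,
    Complex.neg_im, Complex.I_re, Complex.I_im,
    Complex.div_ofNat_im, Complex.ofReal_re, Complex.ofReal_im]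
  ring

/-- the term of the energy -/
lemma term (μ : ℂ) (s : ℝ) (f : ℕ → ℂ) (n : ℕ) (hn : 2 ≤ n) :
    dd n * (2 * (star (f n) * rhs μ s f n).re) =
      2 * μ.im * Real.exp (-s) * (dd n ^ 2 * ‖f n‖ ^ 2) +
      (ww n * (star (f n) * f (n + 1)).re -
        ww (n - 1) * (star (f (n - 1)) * f (n - 1 + 1)).re) := by
  have h0 : (star (f n) * rhs μ s f n).re =
      (f n).re * (rhs μ s f n).re + (f n).im * (rhs μ s f n).im := by
    rw [Complex.mul_re, Complex.star_def, Complex.conj_re, Complex.conj_im]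
    ring
  rw [h0, rhs_re, rhs_im]
  obtain ⟨m, rfl⟩ : ∃ m, n = m + 1 := ⟨n - 1, by omega⟩
  rw [← Complex.normSq_eq_norm_sq, Complex.normSq_apply]
  simp only [Nat.add_sub_cancel, Complex.mul_re, Complex.star_def, Complex.conj_re,
    Complex.conj_im, dd, ww]
  push_cast
  ring

end ENEM

open ENEM in
theorem specENE : SpecENE := by
  intro M μ f hf s hs
  have h1 : ∀ n ∈ Finset.Icc 2 M, HasDerivAt (fun r => dd n * ‖f r n‖ ^ 2)
      (dd n * (2 * (star (f s n) * rhs μ s (f s) n).re)) s := by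
    intro n hn
    exact (der_nsq (fun r => f r n) _ s (hf.der s hs n hn)).const_mul (dd n)
  have h2 : HasDerivAt (fun r => yE M (f r))
      (∑ n ∈ Finset.Icc 2 M, dd n * (2 * (star (f s n) * rhs μ s (f s) n).re)) s := by
    have := HasDerivAt.fun_sum h1
    exact this
  have h3 : (∑ n ∈ Finset.Icc 2 M, dd n * (2 * (star (f s n) * rhs μ s (f s) n).re)) =
      2 * μ.im * Real.exp (-s) * dE M (f s) := by
    rw [Finset.sum_congr rfl (fun n hn => term μ s (f s) n (Finset.mem_Icc.1 hn).1)]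
    rw [Finset.sum_add_distrib, ← Finset.mul_sum]
    have h4 : ∑ n ∈ Finset.Icc 2 M, (ww n * (star (f s n) * f s (n + 1)).re -
        ww (n - 1) * (star (f s (n - 1)) * f s (n - 1 + 1)).re) = 0 := by
      by_cases hM : 2 ≤ M
      · have h5 := tele (fun n => ww n * (star (f s n) * f s (n + 1)).re) M (by omega)
        rw [h5]
        rw [hf.supp s (M + 1) (Or.inr (by omega)), hf.supp s 1 (Or.inl (by omega))]
        simp
      · rw [Finset.Icc_eq_empty (by omega)]
        simp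
    rw [h4, add_zero]
    rfl
  rw [← h3]
  exact h2

end Pool.Agent.Lib.MPb879.Lin
end

section
/-!
# MP_b879c5_an, `SpecFOU`: the equations of the modes
-/
set_option autoImplicit false

namespace Pool.Agent.Lib.MPb879.Lin.FOUM

open Set MeasureTheory
open scoped Topology ContDiff
open Pool.Agent.Lib.MP_b879c5_an

/-- The exponential `e^{-ikx}`. -/
noncomputable def E (k : ℤ) (x : ℝ) : ℂ := Complex.exp (-((k : ℂ) * x * Complex.I))

lemma E_hasDerivAt (k : ℤ) (x : ℝ) : HasDerivAt (E k) (-((k : ℂ) * Complex.I) * E k x) x := by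
  have h0 : HasDerivAt (fun y : ℝ => (y : ℂ)) 1 x := Complex.ofRealCLM.hasDerivAt
  have h1 : HasDerivAt (fun y : ℝ => -((k : ℂ) * y * Complex.I)) (-((k : ℂ) * Complex.I)) x := by
    have := (h0.const_mul (k : ℂ)).mul_const Complex.I
    refine (this.neg).congr_deriv ?_
    ring
  have h2 := h1.cexp
  refine h2.congr_deriv ?_
  simp only [E]
  ring

lemma E_cont (k : ℤ) : Continuous (E k) := by
  unfold E
  fun_prop

lemma E_zero (k : ℤ) : E k 0 = 1 := by simp [E]

lemma E_two_pi (k : ℤ) : E k (2 * Real.pi) = 1 := by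
  unfold E
  rw [Complex.exp_eq_one_iff]
  refine ⟨-k, ?_⟩
  push_cast
  ring

/-- The integral `∫ g e^{-ikx}`. -/
noncomputable def wk (g : ℝ → ℝ) (k : ℤ) : ℂ := ∫ x in (0)..(2 * Real.pi), (g x : ℂ) * E k x

lemma wk_ibp {g g' : ℝ → ℝ} (h : ∀ x, HasDerivAt g (g' x) x) (hc : Continuous g')
    (hg : g (2 * Real.pi) = g 0) (k : ℤ) : wk g' k = (k : ℂ) * Complex.I * wk g k := by
  have hgc : Continuous g := continuous_iff_continuousAt.mpr fun x => (h x).continuousAt
  have h1 : ∀ x, HasDerivAt (fun x => (g x : ℂ) * E k x)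
      ((g' x : ℂ) * E k x + (g x : ℂ) * (-((k : ℂ) * Complex.I) * E k x)) x := fun x =>
    (h x).ofReal_comp.mul (E_hasDerivAt k x)
  have hc1 : Continuous fun x => (g' x : ℂ) * E k x :=
    (Complex.continuous_ofReal.comp hc).mul (E_cont k)
  have hc2 : Continuous fun x => (g x : ℂ) * (-((k : ℂ) * Complex.I) * E k x) :=
    (Complex.continuous_ofReal.comp hgc).mul (continuous_const.mul (E_cont k))
  have h2 : ∫ x in (0)..(2 * Real.pi), ((g' x : ℂ) * E k x +
      (g x : ℂ) * (-((k : ℂ) * Complex.I) * E k x)) = 0 := by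
    rw [intervalIntegral.integral_eq_sub_of_hasDerivAt (fun x _ => h1 x)
      ((hc1.add hc2).intervalIntegrable _ _)]
    simp only [hg, E_zero, E_two_pi, sub_self]
  rw [intervalIntegral.integral_add (hc1.intervalIntegrable _ _)
    (hc2.intervalIntegrable _ _)] at h2
  have h3 : ∫ x in (0)..(2 * Real.pi), (g x : ℂ) * (-((k : ℂ) * Complex.I) * E k x)
      = -((k : ℂ) * Complex.I) * wk g k := by
    rw [wk, ← intervalIntegral.integral_const_mul]
    congr 1
    funext x
    ring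
  rw [h3] at h2
  have h4 : wk g' k + -((k : ℂ) * Complex.I) * wk g k = 0 := h2
  linear_combination h4

lemma wk_add {g₁ g₂ : ℝ → ℝ} (h1 : Continuous g₁) (h2 : Continuous g₂) (k : ℤ) :
    wk (fun x => g₁ x + g₂ x) k = wk g₁ k + wk g₂ k := by
  unfold wk
  rw [← intervalIntegral.integral_add]
  · congr 1
    funext x
    push_cast
    ring
  · exact ((Complex.continuous_ofReal.comp h1).mul (E_cont k)).intervalIntegrable _ _
  · exact ((Complex.continuous_ofReal.comp h2).mul (E_cont k)).intervalIntegrable _ _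

lemma wk_const_mul (c : ℝ) (g : ℝ → ℝ) (k : ℤ) :
    wk (fun x => c * g x) k = (c : ℂ) * wk g k := by
  unfold wk
  rw [← intervalIntegral.integral_const_mul]
  congr 1
  funext x
  push_cast
  ring

lemma E_mul_cos (k : ℤ) (t x : ℝ) : ((Real.cos (x - t) : ℝ) : ℂ) * E k x =
    (Complex.exp (-(t * Complex.I)) * E (k - 1) x + Complex.exp (t * Complex.I) * E (k + 1) x)
      / 2 := by
  unfold E
  rw [Complex.ofReal_cos, Complex.cos, ← Complex.exp_add, ← Complex.exp_add, div_mul_eq_mul_div,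
    add_mul, ← Complex.exp_add, ← Complex.exp_add]
  congr 2
  · congr 1
    push_cast
    ring
  · congr 1
    push_cast
    ring

lemma E_mul_sin (k : ℤ) (t x : ℝ) : ((Real.sin (x - t) : ℝ) : ℂ) * E k x =
    (Complex.exp (t * Complex.I) * E (k + 1) x - Complex.exp (-(t * Complex.I)) * E (k - 1) x)
      * (Complex.I / 2) := by
  unfold E
  have e1 : Complex.exp (-(((x - t : ℝ) : ℂ)) * Complex.I) *
      Complex.exp (-((k : ℂ) * x * Complex.I)) =
      Complex.exp (t * Complex.I) * Complex.exp (-(((k + 1 : ℤ) : ℂ) * x * Complex.I)) := by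
    rw [← Complex.exp_add, ← Complex.exp_add]
    congr 1
    push_cast
    ring
  have e2 : Complex.exp ((((x - t : ℝ) : ℂ)) * Complex.I) *
      Complex.exp (-((k : ℂ) * x * Complex.I)) =
      Complex.exp (-(t * Complex.I)) * Complex.exp (-(((k - 1 : ℤ) : ℂ) * x * Complex.I)) := by
    rw [← Complex.exp_add, ← Complex.exp_add]
    congr 1
    push_cast
    ring
  rw [Complex.ofReal_sin, Complex.sin, ← e1, ← e2]
  ring

lemma wk_cos {g : ℝ → ℝ} (hg : Continuous g) (t : ℝ) (k : ℤ) :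
    wk (fun x => Real.cos (x - t) * g x) k =
      (Complex.exp (-(t * Complex.I)) * wk g (k - 1) + Complex.exp (t * Complex.I) * wk g (k + 1))
      / 2 := by
  have hc : ∀ j : ℤ, Continuous fun x => (g x : ℂ) * E j x := fun j =>
    (Complex.continuous_ofReal.comp hg).mul (E_cont j)
  have h1 : wk (fun x => Real.cos (x - t) * g x) k = ∫ x in (0)..(2 * Real.pi),
      (Complex.exp (-(t * Complex.I)) / 2 * ((g x : ℂ) * E (k - 1) x) +
        Complex.exp (t * Complex.I) / 2 * ((g x : ℂ) * E (k + 1) x)) := by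
    unfold wk
    congr 1
    funext x
    have := E_mul_cos k t x
    rw [Complex.ofReal_mul]
    linear_combination (g x : ℂ) * this
  have hi : ∀ (c : ℂ) (j : ℤ),
      IntervalIntegrable (fun x => c * ((g x : ℂ) * E j x)) volume 0 (2 * Real.pi) := fun c j =>
    (continuous_const.mul (hc j)).intervalIntegrable _ _
  rw [h1, intervalIntegral.integral_add (hi _ _) (hi _ _),
    intervalIntegral.integral_const_mul, intervalIntegral.integral_const_mul]
  simp only [wk]
  ring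

lemma wk_sin {g : ℝ → ℝ} (hg : Continuous g) (t : ℝ) (k : ℤ) :
    wk (fun x => Real.sin (x - t) * g x) k =
      (Complex.exp (t * Complex.I) * wk g (k + 1) - Complex.exp (-(t * Complex.I)) * wk g (k - 1))
      * (Complex.I / 2) := by
  have hc : ∀ j : ℤ, Continuous fun x => (g x : ℂ) * E j x := fun j =>
    (Complex.continuous_ofReal.comp hg).mul (E_cont j)
  have h1 : wk (fun x => Real.sin (x - t) * g x) k = ∫ x in (0)..(2 * Real.pi),
      (Complex.exp (t * Complex.I) * (Complex.I / 2) * ((g x : ℂ) * E (k + 1) x) -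
        Complex.exp (-(t * Complex.I)) * (Complex.I / 2) * ((g x : ℂ) * E (k - 1) x)) := by
    unfold wk
    congr 1
    funext x
    have := E_mul_sin k t x
    rw [Complex.ofReal_mul]
    linear_combination (g x : ℂ) * this
  have hi : ∀ (c : ℂ) (j : ℤ),
      IntervalIntegrable (fun x => c * ((g x : ℂ) * E j x)) volume 0 (2 * Real.pi) := fun c j =>
    (continuous_const.mul (hc j)).intervalIntegrable _ _
  rw [h1, intervalIntegral.integral_sub (hi _ _) (hi _ _),
    intervalIntegral.integral_const_mul, intervalIntegral.integral_const_mul]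
  simp only [wk]
  ring

/-- Differentiation under the integral sign. -/
lemma wk_dt {T : ℝ} {G : ℝ × ℝ → ℝ} (h : Sm T G) {t : ℝ} (ht : t ∈ Ioo 0 T) (k : ℤ) :
    HasDerivAt (fun s => wk (fun x => G (s, x)) k) (wk (fun x => Dt G (t, x)) k) t := by
  have hcs : ContDiff ℝ ∞ (fun p : ℝ × ℝ => Real.cos ((k : ℝ) * p.2)) := by fun_prop
  have hsn : ContDiff ℝ ∞ (fun p : ℝ × ℝ => Real.sin ((k : ℝ) * p.2)) := by fun_prop
  have hC : Sm T (fun p => G p * Real.cos ((k : ℝ) * p.2)) := h.mul hcs.contDiffOn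
  have hS : Sm T (fun p => G p * Real.sin ((k : ℝ) * p.2)) := h.mul hsn.contDiffOn
  have dC : ∀ x, Dt (fun p => G p * Real.cos ((k : ℝ) * p.2)) (t, x)
      = Dt G (t, x) * Real.cos ((k : ℝ) * x) := by
    intro x
    exact (hC.hasDerivAt_t ht x).unique
      ((h.hasDerivAt_t ht x).mul_const (Real.cos ((k : ℝ) * x)))
  have dS : ∀ x, Dt (fun p => G p * Real.sin ((k : ℝ) * p.2)) (t, x)
      = Dt G (t, x) * Real.sin ((k : ℝ) * x) := by
    intro x
    exact (hS.hasDerivAt_t ht x).unique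
      ((h.hasDerivAt_t ht x).mul_const (Real.sin ((k : ℝ) * x)))
  have key : ∀ g : ℝ → ℝ, Continuous g → wk g k =
      ((∫ x in (0)..(2 * Real.pi), g x * Real.cos ((k : ℝ) * x) : ℝ) : ℂ) -
        Complex.I * ((∫ x in (0)..(2 * Real.pi), g x * Real.sin ((k : ℝ) * x) : ℝ) : ℂ) := by
    intro g hg
    rw [← intervalIntegral.integral_ofReal, ← intervalIntegral.integral_ofReal,
      ← intervalIntegral.integral_const_mul, ← intervalIntegral.integral_sub]
    · unfold wk
      congr 1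
      funext x
      have : E k x = ((Real.cos ((k : ℝ) * x) : ℝ) : ℂ) -
          Complex.I * ((Real.sin ((k : ℝ) * x) : ℝ) : ℂ) := by
        unfold E
        have e : (-((k : ℂ) * x * Complex.I)) = (((-((k : ℝ) * x) : ℝ)) : ℂ) * Complex.I := by
          push_cast
          ring
        rw [e, Complex.exp_mul_I, ← Complex.ofReal_cos, ← Complex.ofReal_sin, Real.cos_neg,
          Real.sin_neg]
        push_cast
        ring
      rw [this]
      push_cast
      ring
    · exact Continuous.intervalIntegrable (by fun_prop) _ _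
    · exact Continuous.intervalIntegrable (by fun_prop) _ _
  have h1 := (hC.hasDerivAt_integral ht).ofReal_comp
  have h2 := ((hS.hasDerivAt_integral ht).ofReal_comp).const_mul Complex.I
  have h3 := h1.sub h2
  simp only [dC, dS] at h3
  rw [key _ (h.dt.continuous_x ht)]
  refine h3.congr_of_eventuallyEq ?_
  filter_upwards [isOpen_Ioo.mem_nhds ht] with s hs
  exact key _ (h.continuous_x hs)

/-- The profile. -/
lemma profile_eq (T t x : ℝ) : profile T t x = (1 + Real.cos (x - t)) / (2 * (T - t)) := by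
  unfold profile
  rw [Real.cos_sq, show 2 * ((x - t) / 2) = x - t by ring, ← div_div]
  congr 1
  ring

lemma profile_deriv (T t x : ℝ) :
    deriv (profile T t) x = -Real.sin (x - t) / (2 * (T - t)) := by
  have h0 : profile T t = fun y => (1 + Real.cos (y - t)) / (2 * (T - t)) := by
    funext y
    exact profile_eq T t y
  rw [h0]
  have h1 : HasDerivAt (fun y : ℝ => y - t) 1 x := (hasDerivAt_id x).sub_const t
  have h2 := (h1.cos.const_add 1).div_const (2 * (T - t))
  rw [h2.deriv]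
  ring

/-- The linear equation in terms of `Dt`, `Dx`. -/
lemma pde {T : ℝ} {v : ℝ → ℝ → ℝ} (hv : IsLinearSolution T v) {t : ℝ} (ht : t ∈ Ioo 0 T)
    (x : ℝ) : Dt (fun p => v p.1 p.2) (t, x) =
      Dx (Dx (Dx (fun p => v p.1 p.2))) (t, x) +
        (-(1 / (T - t)) * (Real.sin (x - t) * Dx (fun p => v p.1 p.2) (t, x)) +
        (1 / (T - t) * v t x + 1 / (T - t) * (Real.cos (x - t) * v t x))) := by
  have hs : Sm T (fun p => v p.1 p.2) := hv.1
  have h1 : ∀ y, HasDerivAt (v t) (Dx (fun p => v p.1 p.2) (t, y)) y := fun y =>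
    hs.hasDerivAt_x ht y
  have h2 : ∀ y, HasDerivAt (fun y => Dx (fun p => v p.1 p.2) (t, y))
      (Dx (Dx (fun p => v p.1 p.2)) (t, y)) y := fun y => hs.dx.hasDerivAt_x ht y
  have h3 : ∀ y, HasDerivAt (fun y => Dx (Dx (fun p => v p.1 p.2)) (t, y))
      (Dx (Dx (Dx (fun p => v p.1 p.2))) (t, y)) y := fun y => hs.dx.dx.hasDerivAt_x ht y
  have e1 : deriv (v t) = fun y => Dx (fun p => v p.1 p.2) (t, y) := by
    funext y
    exact (h1 y).deriv
  have e2 : iteratedDeriv 2 (v t) = fun y => Dx (Dx (fun p => v p.1 p.2)) (t, y) := by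
    rw [iteratedDeriv_succ, iteratedDeriv_one, e1]
    funext y
    exact (h2 y).deriv
  have e3 : iteratedDeriv 3 (v t) = fun y => Dx (Dx (Dx (fun p => v p.1 p.2))) (t, y) := by
    rw [iteratedDeriv_succ, e2]
    funext y
    exact (h3 y).deriv
  have h4 : HasDerivAt (fun s => v s x) (Dt (fun p => v p.1 p.2) (t, x)) t :=
    hs.hasDerivAt_t ht x
  have h5 := hv.2.2 t ht x
  have hT : T - t ≠ 0 := by
    have := ht.2
    intro h
    linarith
  rw [h4.deriv, e3, e1, profile_deriv, profile_eq] at h5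
  rw [h5]
  field_simp
  ring

/-- The derivative in time of the modes. -/
lemma wk_der {T : ℝ} {v : ℝ → ℝ → ℝ} (hv : IsLinearSolution T v) {t : ℝ} (ht : t ∈ Ioo 0 T)
    (k : ℤ) : HasDerivAt (fun s => wk (v s) k)
      (-(Complex.I * (k : ℂ) ^ 3) * wk (v t) k + 1 / ((T - t : ℝ) : ℂ) *
        (wk (v t) k + (((k : ℂ) + 2) * (Complex.exp (t * Complex.I) * wk (v t) (k + 1)) -
          ((k : ℂ) - 2) * (Complex.exp (-(t * Complex.I)) * wk (v t) (k - 1))) / 2)) t := by
  have hs : Sm T (fun p => v p.1 p.2) := hv.1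
  have hp : Per T (fun p => v p.1 p.2) := hv.2.1
  have h0 := wk_dt hs ht k
  have hp1 := Per.dx hs hp
  have hp2 := Per.dx hs.dx hp1
  have hc0 : Continuous (v t) := hs.continuous_x ht
  have hc1 := hs.dx.continuous_x ht
  have hc2 := hs.dx.dx.continuous_x ht
  have hc3 := hs.dx.dx.dx.continuous_x ht
  have i1 : ∀ j : ℤ, wk (fun x => Dx (fun p => v p.1 p.2) (t, x)) j =
      (j : ℂ) * Complex.I * wk (v t) j := fun j =>
    wk_ibp (fun x => hs.hasDerivAt_x ht x) hc1 (hp.ends ht) j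
  have i2 : ∀ j : ℤ, wk (fun x => Dx (Dx (fun p => v p.1 p.2)) (t, x)) j =
      (j : ℂ) * Complex.I * wk (fun x => Dx (fun p => v p.1 p.2) (t, x)) j := fun j =>
    wk_ibp (fun x => hs.dx.hasDerivAt_x ht x) hc2 (hp1.ends ht) j
  have i3 : ∀ j : ℤ, wk (fun x => Dx (Dx (Dx (fun p => v p.1 p.2))) (t, x)) j =
      (j : ℂ) * Complex.I * wk (fun x => Dx (Dx (fun p => v p.1 p.2)) (t, x)) j := fun j =>
    wk_ibp (fun x => hs.dx.dx.hasDerivAt_x ht x) hc3 (hp2.ends ht) j
  have h1 : (fun x => Dt (fun p => v p.1 p.2) (t, x)) = fun x =>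
      Dx (Dx (Dx (fun p => v p.1 p.2))) (t, x) +
        (-(1 / (T - t)) * (Real.sin (x - t) * Dx (fun p => v p.1 p.2) (t, x)) +
        (1 / (T - t) * v t x + 1 / (T - t) * (Real.cos (x - t) * v t x))) := by
    funext x
    exact pde hv ht x
  have cs : Continuous fun x : ℝ => Real.sin (x - t) := by fun_prop
  have cc : Continuous fun x : ℝ => Real.cos (x - t) := by fun_prop
  have ca : Continuous fun x => -(1 / (T - t)) *
      (Real.sin (x - t) * Dx (fun p => v p.1 p.2) (t, x)) := continuous_const.mul (cs.mul hc1)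
  have cb : Continuous fun x => 1 / (T - t) * v t x := continuous_const.mul hc0
  have cd : Continuous fun x => 1 / (T - t) * (Real.cos (x - t) * v t x) :=
    continuous_const.mul (cc.mul hc0)
  have cbd : Continuous fun x => 1 / (T - t) * v t x + 1 / (T - t) * (Real.cos (x - t) * v t x) :=
    cb.add cd
  have cabd : Continuous fun x => -(1 / (T - t)) *
      (Real.sin (x - t) * Dx (fun p => v p.1 p.2) (t, x)) +
      (1 / (T - t) * v t x + 1 / (T - t) * (Real.cos (x - t) * v t x)) := ca.add cbd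
  refine h0.congr_deriv ?_
  rw [h1, wk_add hc3 cabd, wk_add ca cbd, wk_add cb cd, wk_const_mul,
    wk_const_mul, wk_const_mul, wk_cos hc0, wk_sin hc1, i3, i2, i1, i1, i1]
  have hI2 : Complex.I ^ 2 = -1 := Complex.I_sq
  have hI3 : Complex.I ^ 3 = -Complex.I := by
    rw [show (3 : ℕ) = 2 + 1 by norm_num, pow_succ, hI2]
    ring
  push_cast
  ring_nf
  rw [hI3, hI2]
  ring

/-- The modes in self-similar time, with integer index. -/
noncomputable def FZ (T t₀ : ℝ) (v : ℝ → ℝ → ℝ) (s : ℝ) (k : ℤ) : ℂ :=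
  (((T - t₀) * Real.exp (-s) : ℝ) : ℂ) *
    Complex.exp ((k : ℂ) * ((T - (T - t₀) * Real.exp (-s) : ℝ) : ℂ) * Complex.I) *
    (((1 / (2 * Real.pi) : ℝ) : ℂ) * wk (v (T - (T - t₀) * Real.exp (-s))) k)

lemma FF_eq (T t₀ : ℝ) (v : ℝ → ℝ → ℝ) (s : ℝ) (n : ℕ) :
    FF T t₀ v s n = FZ T t₀ v s n := by
  simp only [FF, FZ, fc, wk, E, Int.cast_natCast]

lemma time_mem {T t₀ s : ℝ} (h0 : 0 < t₀) (h1 : t₀ < T) (hs : 0 ≤ s) :
    T - (T - t₀) * Real.exp (-s) ∈ Ioo 0 T := by
  have he : 0 < Real.exp (-s) := Real.exp_pos _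
  have he1 : Real.exp (-s) ≤ 1 := Real.exp_le_one_iff.mpr (by linarith)
  constructor
  · nlinarith
  · nlinarith

lemma tau_der (c s : ℝ) :
    HasDerivAt (fun r => c * Real.exp (-r)) (-(c * Real.exp (-s))) s := by
  have h := ((hasDerivAt_neg s).exp).const_mul c
  refine h.congr_deriv ?_
  ring

lemma FZ_der {T t₀ : ℝ} {v : ℝ → ℝ → ℝ} (hv : IsLinearSolution T v) (h0 : 0 < t₀) (h1 : t₀ < T)
    {s : ℝ} (hs : 0 ≤ s) (k : ℤ) :
    HasDerivAt (fun r => FZ T t₀ v r k)
      (-(Complex.I * (((T - t₀) * Real.exp (-s) : ℝ) : ℂ) * ((k : ℂ) ^ 3 - k)) * FZ T t₀ v s k +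
        (((k : ℂ) + 2) * FZ T t₀ v s (k + 1) - ((k : ℂ) - 2) * FZ T t₀ v s (k - 1)) / 2) s := by
  set τ : ℝ := (T - t₀) * Real.exp (-s) with hτ
  have hτ0 : τ ≠ 0 := by
    have he : 0 < Real.exp (-s) := Real.exp_pos _
    have : 0 < τ := mul_pos (by linarith) he
    exact this.ne'
  have hτc : ((τ : ℝ) : ℂ) ≠ 0 := by exact_mod_cast hτ0
  have ht := time_mem h0 h1 hs
  rw [← hτ] at ht
  have d1 : HasDerivAt (fun r => (T - t₀) * Real.exp (-r)) (-τ) s := tau_der (T - t₀) s
  have d2 : HasDerivAt (fun r => T - (T - t₀) * Real.exp (-r)) τ s := by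
    have := d1.const_sub T
    rwa [neg_neg] at this
  have d1c := d1.ofReal_comp
  have d2c := d2.ofReal_comp
  have d3 : HasDerivAt (fun r : ℝ => Complex.exp ((k : ℂ) *
      ((T - (T - t₀) * Real.exp (-r) : ℝ) : ℂ) * Complex.I))
      (Complex.exp ((k : ℂ) * ((T - τ : ℝ) : ℂ) * Complex.I) * ((k : ℂ) * τ * Complex.I)) s :=
    ((d2c.const_mul (k : ℂ)).mul_const Complex.I).cexp
  have hw := wk_der hv ht k
  have d4 : HasDerivAt (fun r => wk (v (T - (T - t₀) * Real.exp (-r))) k)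
      (((τ : ℝ) : ℂ) * (-(Complex.I * (k : ℂ) ^ 3) * wk (v (T - τ)) k +
        1 / ((T - (T - τ) : ℝ) : ℂ) *
        (wk (v (T - τ)) k + (((k : ℂ) + 2) * (Complex.exp (((T - τ : ℝ) : ℂ) * Complex.I) *
          wk (v (T - τ)) (k + 1)) -
          ((k : ℂ) - 2) * (Complex.exp (-(((T - τ : ℝ) : ℂ) * Complex.I)) *
            wk (v (T - τ)) (k - 1))) / 2))) s := by
    have := HasDerivAt.scomp s hw d2
    rw [← Complex.real_smul]
    exact this
  have d5 := (d1c.mul d3).mul (d4.const_mul (((1 / (2 * Real.pi) : ℝ) : ℂ)))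
  refine HasDerivAt.congr_deriv (f := fun r => FZ T t₀ v r k) d5 ?_
  have e1 : Complex.exp (((k + 1 : ℤ) : ℂ) * ((T - τ : ℝ) : ℂ) * Complex.I) =
      Complex.exp ((k : ℂ) * ((T - τ : ℝ) : ℂ) * Complex.I) *
        Complex.exp (((T - τ : ℝ) : ℂ) * Complex.I) := by
    rw [← Complex.exp_add]
    congr 1
    push_cast
    ring
  have e2 : Complex.exp (((k - 1 : ℤ) : ℂ) * ((T - τ : ℝ) : ℂ) * Complex.I) =
      Complex.exp ((k : ℂ) * ((T - τ : ℝ) : ℂ) * Complex.I) *
        Complex.exp (-(((T - τ : ℝ) : ℂ) * Complex.I)) := by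
    rw [← Complex.exp_add]
    congr 1
    push_cast
    ring
  have e3 : T - (T - τ) = τ := by ring
  simp only [FZ, Pi.mul_apply, ← hτ]
  rw [e1, e2, e3]
  generalize Complex.exp ((k : ℂ) * ((T - τ : ℝ) : ℂ) * Complex.I) = A
  generalize Complex.exp (((T - τ : ℝ) : ℂ) * Complex.I) = B₁
  generalize Complex.exp (-(((T - τ : ℝ) : ℂ) * Complex.I)) = B₂
  generalize wk (v (T - τ)) (k + 1) = W₁
  generalize wk (v (T - τ)) (k - 1) = W₂
  generalize wk (v (T - τ)) k = W
  generalize (((1 / (2 * Real.pi) : ℝ) : ℂ)) = c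
  simp only [Complex.ofReal_neg]
  field_simp
  ring

/-- The zero mode is real. -/
lemma wk_conj (g : ℝ → ℝ) (k : ℤ) : wk g (-k) = star (wk g k) := by
  have h : ∀ x : ℝ, (g x : ℂ) * E (-k) x = (starRingEnd ℂ) ((g x : ℂ) * E k x) := by
    intro x
    rw [map_mul, Complex.conj_ofReal]
    congr 1
    unfold E
    rw [← Complex.exp_conj]
    congr 1
    rw [map_neg, map_mul, map_mul, Complex.conj_ofReal, Complex.conj_I, map_intCast]
    push_cast
    ring
  unfold wk
  simp only [h]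
  rw [intervalIntegral.intervalIntegral_conj]
  rfl

lemma FZ_conj (T t₀ : ℝ) (v : ℝ → ℝ → ℝ) (s : ℝ) (k : ℤ) :
    FZ T t₀ v s (-k) = star (FZ T t₀ v s k) := by
  unfold FZ
  rw [wk_conj, star_mul', star_mul', star_mul']
  simp only [Complex.star_def, Complex.conj_ofReal]
  rw [← Complex.exp_conj]
  congr 3
  rw [map_mul, map_mul, Complex.conj_ofReal, Complex.conj_I, map_intCast]
  push_cast
  ring

end Pool.Agent.Lib.MPb879.Lin.FOUM

namespace Pool.Agent.Lib.MPb879.Lin

open FOUM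

theorem specFOU : SpecFOU := by
  intro T t₀ v hv h0 h1 s hs
  have him : (FF T t₀ v s 0).im = 0 := by
    have h := FZ_conj T t₀ v s 0
    rw [neg_zero] at h
    have h2 : (FZ T t₀ v s 0).im = 0 := by
      have h3 := congrArg Complex.im h
      rw [Complex.star_def, Complex.conj_im] at h3
      linarith
    rw [FF_eq]
    exact_mod_cast h2
  refine ⟨?_, ?_, ?_, him⟩
  · intro n hn
    have h := FZ_der hv h0 h1 hs (n : ℤ)
    obtain ⟨m, rfl⟩ : ∃ m, n = m + 1 := ⟨n - 1, by omega⟩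
    have e : (fun r => FF T t₀ v r (m + 1)) = fun r => FZ T t₀ v r ((m + 1 : ℕ) : ℤ) := by
      funext r
      exact FF_eq _ _ _ _ _
    rw [e]
    refine h.congr_deriv ?_
    simp only [rhs, dd, FF_eq, Nat.add_sub_cancel]
    have e1 : (((m + 1 : ℕ) : ℤ) - 1) = ((m : ℕ) : ℤ) := by push_cast; ring
    have e2 : (((m + 1 : ℕ) : ℤ) + 1) = ((m + 1 + 1 : ℕ) : ℤ) := by push_cast; ring
    rw [e1, e2]
    push_cast
    ring
  · have h := FZ_der hv h0 h1 hs 1
    have e : (fun r => FF T t₀ v r 1) = fun r => FZ T t₀ v r 1 := by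
      funext r
      exact FF_eq _ _ _ _ _
    rw [e]
    refine h.congr_deriv ?_
    have e0 : (((FF T t₀ v s 0).re : ℝ) : ℂ) = FF T t₀ v s 0 := by
      apply Complex.ext
      · simp
      · simp [him]
    rw [e0, FF_eq, FF_eq]
    norm_num
    ring
  · have h := FZ_der hv h0 h1 hs 0
    have e : (fun r => (FF T t₀ v r 0).re) = fun r => (FZ T t₀ v r 0).re := by
      funext r
      rw [FF_eq]
      rfl
    rw [e]
    have h2 := (Complex.reCLM.hasFDerivAt.comp_hasDerivAt s h)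
    refine HasDerivAt.congr_deriv (f := fun r => (FZ T t₀ v r 0).re) h2 ?_
    have e1 : FZ T t₀ v s (0 - 1) = star (FZ T t₀ v s 1) := by
      rw [zero_sub]
      exact FZ_conj T t₀ v s 1
    rw [e1, FF_eq, zero_add]
    simp

end Pool.Agent.Lib.MPb879.Lin
end

section
/-!
# FIN: assembly of the linear stability theorem
-/
set_option autoImplicit false

namespace Pool.Agent.Lib.MPb879.Lin

open Set Filter Finset MeasureTheory
open scoped Topology ContDiff

namespace FINM

/-- The coefficient of `FF` has modulus `(T-t₀) e^{-s}`. -/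
theorem norm_FF (T t₀ : ℝ) (v : ℝ → ℝ → ℝ) (s : ℝ) (n : ℕ) (h : t₀ < T) :
    ‖FF T t₀ v s n‖ = (T - t₀) * Real.exp (-s) * ‖fc (v (T - (T - t₀) * Real.exp (-s))) n‖ := by
  unfold FF
  rw [norm_mul, norm_mul, Complex.norm_real, Real.norm_of_nonneg
    (mul_nonneg (by linarith) (Real.exp_pos _).le)]
  have : ‖Complex.exp ((n : ℂ) * ((T - (T - t₀) * Real.exp (-s) : ℝ) : ℂ) * Complex.I)‖ = 1 := by
    rw [show (n : ℂ) * ((T - (T - t₀) * Real.exp (-s) : ℝ) : ℂ) * Complex.I
      = ((n * (T - (T - t₀) * Real.exp (-s)) : ℝ) : ℂ) * Complex.I by push_cast; ring]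
    exact Complex.norm_exp_ofReal_mul_I _
  rw [this, mul_one]

theorem fc_smul (c : ℝ) (g : ℝ → ℝ) (n : ℕ) : fc (fun x => c * g x) n = c * fc g n := by
  unfold fc
  have : ∀ x : ℝ, ((c * g x : ℝ) : ℂ) * Complex.exp (-((n : ℂ) * x * Complex.I))
      = (c : ℂ) * ((g x : ℂ) * Complex.exp (-((n : ℂ) * x * Complex.I))) := by
    intro x; push_cast; ring
  simp_rw [this]
  rw [intervalIntegral.integral_const_mul]
  ring

theorem contDiff_slice {T : ℝ} {v : ℝ → ℝ → ℝ} (hv : IsLinearSolution T v) {t : ℝ}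
    (ht : t ∈ Ioo 0 T) : ContDiff ℝ ∞ (v t) := by
  have h1 := hv.1
  rw [← contDiffOn_univ]
  have h2 : ContDiffOn ℝ ∞ (fun x : ℝ => (t, x)) univ :=
    (contDiff_const.prodMk contDiff_id).contDiffOn
  exact h1.comp h2 (fun x _ => ⟨ht, trivial⟩)

/-- the pointwise combination -/
theorem combine {g f0 r i α β B K θ e : ℝ} (h1 : |g - f0 - (r * Real.cos θ - i * Real.sin θ)| ≤ 2 * B)
    (h2 : |f0 - α / 2 * e| ≤ K) (h3 : |r - α / 2 * e| ≤ K) (h4 : |-i - β| ≤ K) :
    |g - α * e * Real.cos (θ / 2) ^ 2 - β * Real.sin θ| ≤ 2 * B + 3 * K := by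
  have hc : Real.cos (θ / 2) ^ 2 = (1 + Real.cos θ) / 2 := by
    have := Real.cos_sq (θ / 2)
    rw [this, show 2 * (θ / 2) = θ by ring]
    ring
  have hcos := Real.abs_cos_le_one θ
  have hsin := Real.abs_sin_le_one θ
  have e1 : g - α * e * Real.cos (θ / 2) ^ 2 - β * Real.sin θ
      = (g - f0 - (r * Real.cos θ - i * Real.sin θ)) + (f0 - α / 2 * e)
        + (r - α / 2 * e) * Real.cos θ + (-i - β) * Real.sin θ := by
    rw [hc]; ring
  have hK : 0 ≤ K := (abs_nonneg _).trans h2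
  have a3 : |(r - α / 2 * e) * Real.cos θ| ≤ K := by
    rw [abs_mul]
    calc _ ≤ K * 1 := mul_le_mul h3 hcos (abs_nonneg _) hK
      _ = K := mul_one K
  have a4 : |(-i - β) * Real.sin θ| ≤ K := by
    rw [abs_mul]
    calc _ ≤ K * 1 := mul_le_mul h4 hsin (abs_nonneg _) hK
      _ = K := mul_one K
  rw [e1]
  calc _ ≤ |(g - f0 - (r * Real.cos θ - i * Real.sin θ))| + |f0 - α / 2 * e|
        + |(r - α / 2 * e) * Real.cos θ| + |(-i - β) * Real.sin θ| := by
        refine (abs_add_le _ _).trans (add_le_add ((abs_add_le _ _).trans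
          (add_le_add (abs_add_le _ _) le_rfl)) le_rfl)
    _ ≤ 2 * B + K + K + K := by linarith
    _ = 2 * B + 3 * K := by ring

/-- statement in the variable `s` -/
theorem local_form (hMBD : SpecMBD) (hSUM : SpecSUM) (hLOW : SpecLOW) (hFOU : SpecFOU)
    (hDEC : SpecDEC) (hINV : SpecINV) :
    ∃ C : ℝ, 0 < C ∧ ∀ (T : ℝ) (v : ℝ → ℝ → ℝ), IsLinearSolution T v →
      ∀ t₀, 0 < t₀ → t₀ < T → ∃ α β : ℝ, ∀ s, 0 ≤ s → ∀ x,
        |(T - t₀) * Real.exp (-s) * v (T - (T - t₀) * Real.exp (-s)) x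
          - α * Real.exp s * Real.cos ((x - (T - (T - t₀) * Real.exp (-s))) / 2) ^ 2
          - β * Real.sin (x - (T - (T - t₀) * Real.exp (-s)))| ≤
          C * (1 + (T - t₀)) * ((T - t₀) * H6norm v t₀) * Real.exp (-(s / 18)) := by
  obtain ⟨C1, hC1, h1⟩ := hMBD
  obtain ⟨C2, hC2, h2⟩ := hSUM C1 hC1
  obtain ⟨C3, hC3, h3⟩ := hLOW
  refine ⟨2 * C2 + 3 * C3 * (C2 + 2), by positivity, ?_⟩
  intro T v hv t₀ ht₀ ht₀T
  set μ : ℝ := T - t₀ with hμ
  have hμ0 : 0 < μ := by rw [hμ]; linarith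
  set N : ℝ := μ * H6norm v t₀ with hN
  have hN0 : 0 ≤ N := mul_nonneg hμ0.le (Real.sqrt_nonneg _)
  obtain ⟨d1, d2, d3, d4⟩ := hDEC T t₀ v hv ht₀ ht₀T
  have hF := hFOU T t₀ v hv ht₀ ht₀T
  have hInf : Inf μ (FF T t₀ v) := ⟨fun s hs n hn => (hF s hs).1 n hn, d1⟩
  have hM := fun S hS => h1 μ N (FF T t₀ v) hμ0 hN0 hInf d2 S hS
  have hsum : ∀ S, 0 ≤ S → ∀ L : ℕ, ∑ n ∈ Finset.Icc 2 L, ‖FF T t₀ v S n‖ ≤
      C2 * (1 + μ) * N * Real.exp (-(S / 18)) := by
    intro S hS L
    obtain ⟨a1, a2⟩ := hM S hS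
    exact h2 μ N S (fun n => ‖FF T t₀ v S n‖) hμ0 hN0 hS (fun n => norm_nonneg _) a1
      (fun L => a2 L) L
  have hf2 : ∀ s, 0 ≤ s → ‖FF T t₀ v s 2‖ ≤ C2 * (1 + μ) * N * Real.exp (-(s / 18)) := by
    intro s hs
    have := hsum s hs 2
    simpa using this
  have hB0 : 0 ≤ C2 * (1 + μ) * N := by positivity
  obtain ⟨α, β, hαβ⟩ := h3 (C2 * (1 + μ) * N) (fun s => (FF T t₀ v s 0).re)
    (fun s => FF T t₀ v s 1) (fun s => FF T t₀ v s 2) hB0
    (fun s hs => (((hF s hs).1 2 le_rfl).continuousAt).continuousWithinAt)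
    (fun s hs => (hF s hs).2.2.1) (fun s hs => (hF s hs).2.1) hf2
  refine ⟨α, β, ?_⟩
  intro s hs x
  obtain ⟨b1, b2, b3⟩ := hαβ s hs
  have hexp : Real.exp (-s) ≤ 1 := Real.exp_le_one_iff.2 (by linarith)
  have hexp0 := Real.exp_pos (-s)
  set t : ℝ := T - μ * Real.exp (-s) with ht
  have htI : t ∈ Ioo 0 T := by
    constructor
    · rw [ht]
      have : μ * Real.exp (-s) ≤ μ * 1 := mul_le_mul_of_nonneg_left hexp hμ0.le
      rw [hμ] at this ⊢
      linarith
    · rw [ht]
      have : 0 < μ * Real.exp (-s) := by positivity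
      linarith
  have hg : ContDiff ℝ ∞ (fun x => μ * Real.exp (-s) * v t x) :=
    contDiff_const.mul (contDiff_slice hv htI)
  have hper : ∀ x, μ * Real.exp (-s) * v t (x + 2 * Real.pi) = μ * Real.exp (-s) * v t x :=
    fun x => by rw [hv.2.1 t htI x]
  have hfc : ∀ n, ‖fc (fun x => μ * Real.exp (-s) * v t x) n‖ = ‖FF T t₀ v s n‖ := by
    intro n
    rw [fc_smul, norm_FF T t₀ v s n ht₀T, norm_mul, Complex.norm_real,
      Real.norm_of_nonneg (by positivity)]
  have hI := hINV (fun x => μ * Real.exp (-s) * v t x)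
    (C2 * (1 + μ) * N * Real.exp (-(s / 18))) hg hper (fun L => by
      simp_rw [hfc]
      exact hsum s hs L) x
  have hz : (fc (fun x => μ * Real.exp (-s) * v t x) 0) = FF T t₀ v s 0 := by
    rw [fc_smul]
    unfold FF
    rw [Nat.cast_zero, zero_mul, zero_mul, Complex.exp_zero, mul_one]
  have ho : fc (fun x => μ * Real.exp (-s) * v t x) 1 * Complex.exp ((x : ℂ) * Complex.I)
      = FF T t₀ v s 1 * Complex.exp (((x - t : ℝ) : ℂ) * Complex.I) := by
    rw [fc_smul]
    unfold FF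
    rw [show (x : ℂ) * Complex.I = (t : ℂ) * Complex.I + ((x - t : ℝ) : ℂ) * Complex.I by
      push_cast; ring, Complex.exp_add, Nat.cast_one, one_mul]
    ring
  rw [hz, ho] at hI
  have hre : 2 * (FF T t₀ v s 1 * Complex.exp (((x - t : ℝ) : ℂ) * Complex.I)).re
      = 2 * (FF T t₀ v s 1).re * Real.cos (x - t) - 2 * (FF T t₀ v s 1).im * Real.sin (x - t) := by
    rw [Complex.mul_re, Complex.exp_ofReal_mul_I_re, Complex.exp_ofReal_mul_I_im]
    ring
  rw [hre] at hI
  have b3' : |-(2 * (FF T t₀ v s 1).im) - β| ≤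
      C3 * (C2 * (1 + μ) * N + |(FF T t₀ v 0 0).re| + ‖FF T t₀ v 0 1‖)
        * Real.exp (-(s / 18)) := by
    rw [show -(2 * (FF T t₀ v s 1).im) = -2 * (FF T t₀ v s 1).im by ring]
    exact b3
  have hcomb := combine hI b1 b2 b3'
  refine hcomb.trans ?_
  have e0 : |(FF T t₀ v 0 0).re| ≤ N := (Complex.abs_re_le_norm _).trans d3
  have e1 : ‖FF T t₀ v 0 1‖ ≤ N := d4
  have he := Real.exp_pos (-(s / 18))
  have hN1 : N ≤ (1 + μ) * N := by nlinarith
  have : 2 * (C2 * (1 + μ) * N * Real.exp (-(s / 18))) + 3 * (C3 * (C2 * (1 + μ) * N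
      + |(FF T t₀ v 0 0).re| + ‖FF T t₀ v 0 1‖) * Real.exp (-(s / 18)))
      = (2 * (C2 * (1 + μ) * N) + 3 * (C3 * (C2 * (1 + μ) * N
      + |(FF T t₀ v 0 0).re| + ‖FF T t₀ v 0 1‖))) * Real.exp (-(s / 18)) := by ring
  rw [this]
  refine mul_le_mul_of_nonneg_right ?_ he.le
  have h5 : C2 * (1 + μ) * N + |(FF T t₀ v 0 0).re| + ‖FF T t₀ v 0 1‖ ≤ (C2 + 2) * ((1 + μ) * N) := by
    have : (C2 + 2) * ((1 + μ) * N) = C2 * (1 + μ) * N + (1 + μ) * N + (1 + μ) * N := by ring
    rw [this]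
    linarith
  have h6 := mul_le_mul_of_nonneg_left h5 hC3.le
  calc _ ≤ 2 * (C2 * (1 + μ) * N) + 3 * (C3 * ((C2 + 2) * ((1 + μ) * N))) := by linarith
    _ = (2 * C2 + 3 * C3 * (C2 + 2)) * (1 + μ) * N := by ring

/-- statement in the variable `t` -/
theorem t_form (hMBD : SpecMBD) (hSUM : SpecSUM) (hLOW : SpecLOW) (hFOU : SpecFOU)
    (hDEC : SpecDEC) (hINV : SpecINV) :
    ∃ C : ℝ, 0 < C ∧ ∀ (T : ℝ) (v : ℝ → ℝ → ℝ), IsLinearSolution T v →
      ∀ t₀, 0 < t₀ → t₀ < T → ∃ α β : ℝ, ∀ t ∈ Ico t₀ T, ∀ x,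
      |(T - t) * v t x - α / (T - t) * Real.cos ((x - t) / 2) ^ 2 - β * Real.sin (x - t)| ≤
        C * (1 + T) * (T - t₀) * H6norm v t₀ * ((T - t) / (T - t₀)) ^ (1 / 18 : ℝ) := by
  obtain ⟨C, hC, h⟩ := local_form hMBD hSUM hLOW hFOU hDEC hINV
  refine ⟨C, hC, ?_⟩
  intro T v hv t₀ ht₀ ht₀T
  obtain ⟨α, β, hαβ⟩ := h T v hv t₀ ht₀ ht₀T
  refine ⟨α * (T - t₀), β, ?_⟩
  intro t ht x
  have h1 : 0 < T - t₀ := by linarith
  have h2 : 0 < T - t := by linarith [ht.2]
  set q : ℝ := (T - t) / (T - t₀) with hq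
  have hq0 : 0 < q := by positivity
  have hq1 : q ≤ 1 := by rw [hq, div_le_one h1]; linarith [ht.1]
  have hs0 : 0 ≤ -Real.log q := by
    have := Real.log_nonpos hq0.le hq1
    linarith
  have hes : Real.exp (-(-Real.log q)) = q := by rw [neg_neg, Real.exp_log hq0]
  have hes' : Real.exp (-Real.log q) = (T - t₀) / (T - t) := by
    rw [Real.exp_neg, Real.exp_log hq0, hq, inv_div]
  have h3 : (T - t₀) * q = T - t := by rw [hq]; field_simp
  have h4 := hαβ (-Real.log q) hs0 x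
  rw [hes, hes', h3, show T - (T - t) = t by ring] at h4
  have h5 : α * ((T - t₀) / (T - t)) = α * (T - t₀) / (T - t) := by ring
  rw [h5] at h4
  refine h4.trans ?_
  have h6 : Real.exp (-(-Real.log q / 18)) = q ^ (1 / 18 : ℝ) := by
    rw [Real.rpow_def_of_pos hq0]
    congr 1
    ring
  rw [h6]
  have hr : 0 ≤ q ^ (1 / 18 : ℝ) := Real.rpow_nonneg hq0.le _
  refine mul_le_mul_of_nonneg_right ?_ hr
  have hH : 0 ≤ H6norm v t₀ := Real.sqrt_nonneg _
  have h7 : C * (1 + (T - t₀)) ≤ C * (1 + T) := mul_le_mul_of_nonneg_left (by linarith) hC.le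
  calc C * (1 + (T - t₀)) * ((T - t₀) * H6norm v t₀)
      ≤ C * (1 + T) * ((T - t₀) * H6norm v t₀) :=
        mul_le_mul_of_nonneg_right h7 (mul_nonneg h1.le hH)
    _ = C * (1 + T) * (T - t₀) * H6norm v t₀ := by ring

/-- uniqueness of `α`, `β` -/
theorem uniq {T t₁ α β α' β' c c' : ℝ} {v : ℝ → ℝ → ℝ} (hT : t₁ < T)
    (h : ∀ t ∈ Ico t₁ T, ∀ x, |(T - t) * v t x - α / (T - t) * Real.cos ((x - t) / 2) ^ 2
      - β * Real.sin (x - t)| ≤ c * (T - t) ^ (1 / 18 : ℝ))
    (h' : ∀ t ∈ Ico t₁ T, ∀ x, |(T - t) * v t x - α' / (T - t) * Real.cos ((x - t) / 2) ^ 2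
      - β' * Real.sin (x - t)| ≤ c' * (T - t) ^ (1 / 18 : ℝ)) : α = α' ∧ β = β' := by
  have key : ∀ t ∈ Ico t₁ T, ∀ x, |(α - α') / (T - t) * Real.cos ((x - t) / 2) ^ 2
      + (β - β') * Real.sin (x - t)| ≤ (c + c') * (T - t) ^ (1 / 18 : ℝ) := by
    intro t ht x
    have e1 := h t ht x
    have e2 := h' t ht x
    have e3 : (α - α') / (T - t) * Real.cos ((x - t) / 2) ^ 2 + (β - β') * Real.sin (x - t)
        = ((T - t) * v t x - α' / (T - t) * Real.cos ((x - t) / 2) ^ 2 - β' * Real.sin (x - t))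
          - ((T - t) * v t x - α / (T - t) * Real.cos ((x - t) / 2) ^ 2
            - β * Real.sin (x - t)) := by ring
    rw [e3]
    refine (abs_sub _ _).trans ?_
    linarith
  have hlim : Tendsto (fun t : ℝ => (T - t)) (𝓝[<] T) (𝓝 0) := by
    have : Tendsto (fun t : ℝ => T - t) (𝓝 T) (𝓝 (T - T)) := (continuous_const.sub continuous_id).tendsto T
    rw [sub_self] at this
    exact this.mono_left nhdsWithin_le_nhds
  have hlim2 : Tendsto (fun t : ℝ => (c + c') * (T - t) ^ (1 / 18 : ℝ)) (𝓝[<] T) (𝓝 0) := by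
    have h1 : Tendsto (fun y : ℝ => (c + c') * y ^ (1 / 18 : ℝ)) (𝓝 0) (𝓝 ((c + c') * 0 ^ (1 / 18 : ℝ))) :=
      ((Real.continuous_rpow_const (by norm_num)).const_mul _).tendsto 0
    rw [Real.zero_rpow (by norm_num), mul_zero] at h1
    exact h1.comp hlim
  have hmem : ∀ᶠ t in 𝓝[<] T, t ∈ Ico t₁ T := Ico_mem_nhdsLT hT
  have ha : α - α' = 0 := by
    have hb : Tendsto (fun t : ℝ => (T - t) * ((c + c') * (T - t) ^ (1 / 18 : ℝ))) (𝓝[<] T) (𝓝 0) := by
      have := hlim.mul hlim2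
      simpa using this
    have hle : |α - α'| ≤ 0 := by
      refine ge_of_tendsto hb ?_
      filter_upwards [hmem] with t ht
      have h1 := key t ht t
      have h2 : 0 < T - t := by linarith [ht.2]
      simp only [sub_self, zero_div, Real.cos_zero, one_pow, mul_one, Real.sin_zero, mul_zero,
        add_zero] at h1
      rw [abs_div, abs_of_pos h2, div_le_iff₀ h2] at h1
      linarith
    exact abs_nonpos_iff.1 hle
  have hb : β - β' = 0 := by
    have hle : |β - β'| ≤ 0 := by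
      refine ge_of_tendsto hlim2 ?_
      filter_upwards [hmem] with t ht
      have h1 := key t ht (t + Real.pi / 2)
      rw [ha, zero_div, zero_mul, zero_add, show t + Real.pi / 2 - t = Real.pi / 2 by ring,
        Real.sin_pi_div_two, mul_one] at h1
      exact h1
    exact abs_nonpos_iff.1 hle
  exact ⟨by linarith, by linarith⟩

end FINM

open FINM in
theorem specFIN (hMBD : SpecMBD) (hSUM : SpecSUM) (hLOW : SpecLOW) (hFOU : SpecFOU)
    (hDEC : SpecDEC) (hINV : SpecINV) : SpecFIN := by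
  obtain ⟨C, hC, h⟩ := t_form hMBD hSUM hLOW hFOU hDEC hINV
  refine ⟨C, hC, ?_⟩
  intro T v hT hv
  obtain ⟨α, β, hαβ⟩ := h T v hv (T / 2) (by linarith) (by linarith)
  refine ⟨α, β, ?_⟩
  intro t₀ ht₀
  obtain ⟨α', β', hαβ'⟩ := h T v hv t₀ ht₀.1 ht₀.2
  have aux : ∀ t₀ ∈ Ioo 0 T, ∀ t ∈ Ico t₀ T,
      C * (1 + T) * (T - t₀) * H6norm v t₀ * ((T - t) / (T - t₀)) ^ (1 / 18 : ℝ)
      = (C * (1 + T) * (T - t₀) * H6norm v t₀ / (T - t₀) ^ (1 / 18 : ℝ)) * (T - t) ^ (1 / 18 : ℝ) := by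
    intro t₀ h0 t ht
    rw [Real.div_rpow (by linarith [ht.2]) (by linarith [h0.2])]
    ring
  have hT2 : T / 2 ∈ Ioo 0 T := ⟨by linarith, by linarith⟩
  have hmax : max (T / 2) t₀ < T := max_lt (by linarith) ht₀.2
  obtain ⟨e1, e2⟩ := uniq (c := C * (1 + T) * (T - T / 2) * H6norm v (T / 2) / (T - T / 2) ^ (1 / 18 : ℝ))
    (c' := C * (1 + T) * (T - t₀) * H6norm v t₀ / (T - t₀) ^ (1 / 18 : ℝ)) hmax
    (fun t ht x => by
      have htt : t ∈ Ico (T / 2) T := ⟨(le_max_left _ _).trans ht.1, ht.2⟩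
      rw [← aux (T / 2) hT2 t htt]
      exact hαβ t htt x)
    (fun t ht x => by
      have htt : t ∈ Ico t₀ T := ⟨(le_max_right _ _).trans ht.1, ht.2⟩
      rw [← aux t₀ ht₀ t htt]
      exact hαβ' t htt x)
  rw [e1, e2]
  exact hαβ'

end Pool.Agent.Lib.MPb879.Lin
end

section
/-!
# GLM: Galerkin convergence
-/
set_option autoImplicit false

namespace Pool.Agent.Lib.MPb879.Lin

open Set Filter Finset
open scoped Topology ContDiff ComplexConjugate

namespace GLMM

lemma dd_nonneg (n : ℕ) : 0 ≤ dd n := by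
  unfold dd
  rcases Nat.eq_zero_or_pos n with h | h
  · subst h; simp
  · have h1 : (1 : ℝ) ≤ n := by exact_mod_cast h
    nlinarith [mul_nonneg (show (0 : ℝ) ≤ (n : ℝ) by linarith) (show (0 : ℝ) ≤ (n : ℝ) - 1 by linarith)]

lemma term (z w u v : ℂ) (t r N : ℝ) :
    2 * (conj z * (-(Complex.I * (t : ℂ) * (r : ℂ)) * z + (((N : ℂ) + 2) * w - ((N : ℂ) - 2) * u) / 2
      - v)).re = (N + 2) * (conj z * w).re - (N - 2) * (conj u * z).re - 2 * (conj z * v).re := by
  simp only [Complex.mul_re, Complex.mul_im, Complex.add_re, Complex.add_im, Complex.sub_re,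
    Complex.sub_im, Complex.neg_re, Complex.neg_im, Complex.I_re, Complex.I_im, Complex.ofReal_re,
    Complex.ofReal_im, Complex.conj_re, Complex.conj_im, Complex.div_ofNat_re,
    Complex.div_ofNat_im, Complex.re_ofNat, Complex.im_ofNat]
  ring

lemma telescope (A : ℕ → ℝ) (M : ℕ) (hM : 1 ≤ M) :
    ∑ n ∈ Finset.Icc 2 M, (A n - A (n - 1)) = A M - A 1 := by
  induction M, hM using Nat.le_induction with
  | base => simp
  | succ M hM ih =>
    rw [Finset.sum_Icc_succ_top (by omega), ih]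
    simp

/-- truncation -/
noncomputable def tc (M : ℕ) (G : ℕ → ℂ) (n : ℕ) : ℂ := if 2 ≤ n ∧ n ≤ M then G n else 0

/-- the transport part has no energy -/
lemma energy (M : ℕ) (hM : 2 ≤ M) (G : ℕ → ℂ) (t s : ℝ) (v : ℕ → ℂ)
    (hv : ∀ n, n ≠ M → v n = 0) :
    ∑ n ∈ Finset.Icc 2 M, dd n * (2 * (conj (tc M G n) *
      (-(Complex.I * (t : ℂ) * ((Real.exp (-s) * dd n : ℝ) : ℂ)) * tc M G n +
        (((n : ℂ) + 2) * tc M G (n + 1) - ((n : ℂ) - 2) * tc M G (n - 1)) / 2 - v n)).re) =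
      -(dd M * (2 * (conj (G M) * v M).re)) := by
  have h1 : ∀ n ∈ Finset.Icc 2 M, dd n * (2 * (conj (tc M G n) *
      (-(Complex.I * (t : ℂ) * ((Real.exp (-s) * dd n : ℝ) : ℂ)) * tc M G n +
        (((n : ℂ) + 2) * tc M G (n + 1) - ((n : ℂ) - 2) * tc M G (n - 1)) / 2 - v n)).re) =
      (ww n * (conj (tc M G n) * tc M G (n + 1)).re -
        ww (n - 1) * (conj (tc M G (n - 1)) * tc M G (n - 1 + 1)).re) -
        dd n * (2 * (conj (tc M G n) * v n).re) := by
    intro n hn
    rw [Finset.mem_Icc] at hn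
    have h2 := term (tc M G n) (tc M G (n + 1)) (tc M G (n - 1)) (v n) t (Real.exp (-s) * dd n) n
    rw [Complex.ofReal_natCast] at h2
    rw [h2]
    have h3 : n - 1 + 1 = n := by omega
    rw [h3]
    have h4 : ((n - 1 : ℕ) : ℝ) = n - 1 := by
      rw [Nat.cast_sub (by omega)]; simp
    have h5 : dd n * ((n : ℝ) + 2) = ww n := by unfold dd ww; ring
    have h6 : dd n * ((n : ℝ) - 2) = ww (n - 1) := by unfold dd ww; rw [h4]; ring
    rw [← h5, ← h6]
    ring
  rw [Finset.sum_congr rfl h1, Finset.sum_sub_distrib,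
    telescope (fun n => ww n * (conj (tc M G n) * tc M G (n + 1)).re) M (by omega)]
  have h2 : tc M G (M + 1) = 0 := by
    unfold tc
    rw [if_neg (by omega)]
  have h3 : ww 1 = 0 := by unfold ww; simp
  have h4 : ∑ n ∈ Finset.Icc 2 M, dd n * (2 * (conj (tc M G n) * v n).re) =
      dd M * (2 * (conj (G M) * v M).re) := by
    rw [Finset.sum_eq_single M]
    · have : tc M G M = G M := by
        unfold tc
        rw [if_pos ⟨hM, le_rfl⟩]
      rw [this]
    · intro n _ hn
      rw [hv n hn]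
      simp
    · intro h
      exact absurd (Finset.mem_Icc.2 ⟨hM, le_rfl⟩) h
  rw [h4, h2, h3]
  simp

end GLMM

open GLMM in
theorem specGLM : SpecGLM := by
  intro T f F hf hF h0 S hS n hn
  obtain ⟨C, hC⟩ := hf.dec S
  have key : ∀ M : ℕ, n ≤ M → ‖F M S n - f S n‖ ≤ |C| * Real.exp S * (1 / ((M : ℝ) + 1)) := by
    intro M hnM
    have hM2 : 2 ≤ M := hn.trans hnM
    set ε : ℝ := dd M * ((M : ℝ) + 2) ^ 2 * (C / ((M : ℝ) + 1) ^ 4) ^ 2 / 4 with hε
    have hdM : 0 ≤ dd M := dd_nonneg M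
    have hε0 : 0 ≤ ε := by positivity
    let y : ℝ → ℝ := fun s => ∑ m ∈ Finset.Icc 2 M, dd m * ‖F M s m - f s m‖ ^ 2
    -- derivative of the energy
    have hder : ∀ s, 0 ≤ s → HasDerivAt y (-(dd M * (2 * (conj (F M s M - f s M) *
        (((M : ℂ) + 2) / 2 * f s (M + 1))).re))) s := by
      intro s hs
      have h1 : HasDerivAt y (∑ m ∈ Finset.Icc 2 M, dd m * (2 * inner ℝ (F M s m - f s m)
          (rhs (T : ℂ) s (F M s) m - rhs (T : ℂ) s (f s) m))) s := by
        apply HasDerivAt.fun_sum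
        intro m hm
        apply HasDerivAt.const_mul
        have h2 := (hF M).der s hs m hm
        have h3 := hf.der s hs m (Finset.mem_Icc.1 hm).1
        exact (h2.sub h3).norm_sq
      convert h1 using 1
      have h4 := energy M hM2 (fun m => F M s m - f s m) T s
        (fun m => if m = M then ((M : ℂ) + 2) / 2 * f s (M + 1) else 0)
        (fun m hm => if_neg hm)
      rw [if_pos rfl] at h4
      rw [← h4]
      refine Finset.sum_congr rfl fun m hm => ?_
      rw [Finset.mem_Icc] at hm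
      rw [Complex.inner, mul_comm (rhs _ _ _ _ - rhs _ _ _ _)]
      have e1 : tc M (fun m => F M s m - f s m) m = F M s m - f s m := by
        unfold tc
        rw [if_pos hm]
      rw [e1]
      congr 4
      unfold rhs
      have e2 : ((m : ℂ) + 2) * tc M (fun m => F M s m - f s m) (m + 1) -
          2 * (if m = M then ((M : ℂ) + 2) / 2 * f s (M + 1) else 0) =
          ((m : ℂ) + 2) * (F M s (m + 1) - f s (m + 1)) := by
        by_cases hmM : m = M
        · subst hmM
          have e3 : F m s (m + 1) = 0 := (hF m).supp s (m + 1) (Or.inr (by omega))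
          have e4 : tc m (fun l => F m s l - f s l) (m + 1) = 0 := by
            unfold tc
            rw [if_neg (by omega)]
          rw [if_pos rfl, e3, e4]
          ring
        · have e4 : tc M (fun m => F M s m - f s m) (m + 1) = F M s (m + 1) - f s (m + 1) := by
            unfold tc
            rw [if_pos (by omega)]
          rw [if_neg hmM, e4]
          ring
      have e5 : ((m : ℂ) - 2) * tc M (fun m => F M s m - f s m) (m - 1) =
          ((m : ℂ) - 2) * (F M s (m - 1) - f s (m - 1)) := by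
        by_cases hm2 : m = 2
        · subst hm2
          simp
        · have e4 : tc M (fun m => F M s m - f s m) (m - 1) = F M s (m - 1) - f s (m - 1) := by
            unfold tc
            rw [if_pos (by omega)]
          rw [e4]
      linear_combination (1 / 2 : ℂ) * e2 - (1 / 2 : ℂ) * e5
    -- the differential inequality
    have hy0 : ∀ s, 0 ≤ y s := fun s =>
      Finset.sum_nonneg fun m _ => mul_nonneg (dd_nonneg m) (sq_nonneg _)
    have hineq : ∀ s ∈ Set.Icc 0 S, -(dd M * (2 * (conj (F M s M - f s M) *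
        (((M : ℂ) + 2) / 2 * f s (M + 1))).re)) ≤ y s + ε := by
      intro s hs
      have h1 : dd M * ‖F M s M - f s M‖ ^ 2 ≤ y s :=
        Finset.single_le_sum (f := fun m => dd m * ‖F M s m - f s m‖ ^ 2)
          (fun m _ => mul_nonneg (dd_nonneg m) (sq_nonneg _)) (Finset.mem_Icc.2 ⟨hM2, le_rfl⟩)
      have h2 := hC s hs (M + 1) (by omega)
      push_cast at h2
      have h3 : |(conj (F M s M - f s M) * (((M : ℂ) + 2) / 2 * f s (M + 1))).re| ≤
          ‖F M s M - f s M‖ * (((M : ℝ) + 2) / 2 * ‖f s (M + 1)‖) := by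
        refine (Complex.abs_re_le_norm _).trans (le_of_eq ?_)
        rw [norm_mul, norm_mul, RCLike.norm_conj]
        congr 2
        have : ((M : ℂ) + 2) / 2 = ((((M : ℝ) + 2) / 2 : ℝ) : ℂ) := by push_cast; ring
        rw [this, Complex.norm_real, Real.norm_of_nonneg (by positivity)]
      have h4 := (abs_le.1 h3).1
      set p := ‖F M s M - f s M‖ with hp
      set q := ‖f s (M + 1)‖ with hq
      have hq0 : 0 ≤ q := norm_nonneg _
      have h5 : q ^ 2 ≤ (C / ((M : ℝ) + 1) ^ 4) ^ 2 := pow_le_pow_left₀ hq0 h2 2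
      have h6 : p * (((M : ℝ) + 2) * q) ≤ p ^ 2 + ((M : ℝ) + 2) ^ 2 * q ^ 2 / 4 := by
        nlinarith [sq_nonneg (p - ((M : ℝ) + 2) * q / 2)]
      have h7 : dd M * (p * (((M : ℝ) + 2) * q)) ≤
          dd M * (p ^ 2 + ((M : ℝ) + 2) ^ 2 * q ^ 2 / 4) := mul_le_mul_of_nonneg_left h6 hdM
      have h8 : dd M * ((M : ℝ) + 2) ^ 2 * q ^ 2 / 4 ≤ ε := by
        rw [hε]
        apply div_le_div_of_nonneg_right _ (by norm_num)
        exact mul_le_mul_of_nonneg_left h5 (by positivity)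
      have h9 := mul_le_mul_of_nonneg_left h4 hdM
      linarith
    -- Gronwall
    let z : ℝ → ℝ := fun s => Real.exp (-s) * (y s + ε)
    have hz : ∀ s, 0 ≤ s → HasDerivAt z (Real.exp (-s) * (-1) * (y s + ε) + Real.exp (-s) *
        (-(dd M * (2 * (conj (F M s M - f s M) * (((M : ℂ) + 2) / 2 * f s (M + 1))).re)))) s := by
      intro s hs
      have h1 : HasDerivAt (fun s : ℝ => Real.exp (-s)) (Real.exp (-s) * (-1)) s :=
        (hasDerivAt_neg s).exp
      exact h1.mul ((hder s hs).add_const ε)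
    have hanti : AntitoneOn z (Set.Icc 0 S) := by
      apply antitoneOn_of_deriv_nonpos (convex_Icc 0 S)
      · intro s hs
        exact (hz s hs.1).continuousAt.continuousWithinAt
      · intro s hs
        rw [interior_Icc] at hs
        exact (hz s hs.1.le).differentiableAt.differentiableWithinAt
      · intro s hs
        rw [interior_Icc] at hs
        rw [(hz s hs.1.le).deriv]
        have h1 := hineq s ⟨hs.1.le, hs.2.le⟩
        have h2 := Real.exp_pos (-s)
        nlinarith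
    have h1 := hanti (Set.left_mem_Icc.2 hS) (Set.right_mem_Icc.2 hS) hS
    have hy00 : y 0 = 0 := by
      refine Finset.sum_eq_zero fun m hm => ?_
      rw [h0 M m hm]
      simp
    have h2 : Real.exp (-S) * (y S + ε) ≤ ε := by
      have h3 : z 0 = ε := by
        show Real.exp (-0) * (y 0 + ε) = ε
        rw [hy00]
        simp
      have h1' : Real.exp (-S) * (y S + ε) ≤ z 0 := h1
      rw [h3] at h1'
      exact h1'
    have h3 : y S ≤ Real.exp S * ε := by
      have h4 := mul_le_mul_of_nonneg_left h2 (Real.exp_pos S).le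
      rw [← mul_assoc, ← Real.exp_add, add_neg_cancel, Real.exp_zero, one_mul] at h4
      linarith
    have h4 : ‖F M S n - f S n‖ ^ 2 ≤ y S := by
      have h5 : dd n * ‖F M S n - f S n‖ ^ 2 ≤ y S :=
        Finset.single_le_sum (f := fun m => dd m * ‖F M S m - f S m‖ ^ 2)
          (fun m _ => mul_nonneg (dd_nonneg m) (sq_nonneg _)) (Finset.mem_Icc.2 ⟨hn, hnM⟩)
      have h6 : 1 ≤ dd n := by
        have h : (2 : ℝ) ≤ n := by exact_mod_cast hn
        unfold dd
        nlinarith [mul_nonneg (show (0 : ℝ) ≤ (n : ℝ) - 2 by linarith)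
          (show (0 : ℝ) ≤ (n : ℝ) by linarith), sq_nonneg ((n : ℝ) - 2)]
      nlinarith [sq_nonneg ‖F M S n - f S n‖]
    have h5 : ε ≤ C ^ 2 * (1 / ((M : ℝ) + 1)) ^ 2 := by
      have hM1 : (0 : ℝ) < (M : ℝ) + 1 := by positivity
      have h6 : dd M ≤ ((M : ℝ) + 1) ^ 3 := by
        unfold dd
        have : (0 : ℝ) ≤ M := by positivity
        nlinarith [pow_nonneg this 2]
      have h7 : ((M : ℝ) + 2) ^ 2 ≤ 4 * ((M : ℝ) + 1) ^ 2 := by
        have : (0 : ℝ) ≤ M := by positivity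
        nlinarith
      have h8 : dd M * ((M : ℝ) + 2) ^ 2 ≤ ((M : ℝ) + 1) ^ 3 * (4 * ((M : ℝ) + 1) ^ 2) :=
        mul_le_mul h6 h7 (sq_nonneg _) (by positivity)
      have h9 : ε ≤ ((M : ℝ) + 1) ^ 3 * (4 * ((M : ℝ) + 1) ^ 2) * (C / ((M : ℝ) + 1) ^ 4) ^ 2 / 4 := by
        rw [hε]
        apply div_le_div_of_nonneg_right _ (by norm_num)
        exact mul_le_mul_of_nonneg_right h8 (sq_nonneg _)
      have h10 : ((M : ℝ) + 1) ^ 3 * (4 * ((M : ℝ) + 1) ^ 2) * (C / ((M : ℝ) + 1) ^ 4) ^ 2 / 4 =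
          C ^ 2 * (1 / ((M : ℝ) + 1)) ^ 2 * (1 / ((M : ℝ) + 1)) := by
        field_simp
      have h11 : 1 / ((M : ℝ) + 1) ≤ 1 := by
        rw [div_le_one hM1]
        have : (0 : ℝ) ≤ M := by positivity
        linarith
      rw [h10] at h9
      refine h9.trans ?_
      have h12 : 0 ≤ C ^ 2 * (1 / ((M : ℝ) + 1)) ^ 2 := by positivity
      exact mul_le_of_le_one_right h12 h11
    apply le_of_sq_le_sq _ (by positivity)
    have h6 : (|C| * Real.exp S * (1 / ((M : ℝ) + 1))) ^ 2 =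
        Real.exp S ^ 2 * (C ^ 2 * (1 / ((M : ℝ) + 1)) ^ 2) := by
      rw [mul_pow, mul_pow, sq_abs]
      ring
    rw [h6]
    have h7 : 1 ≤ Real.exp S := Real.one_le_exp hS
    calc _ ≤ y S := h4
      _ ≤ Real.exp S * ε := h3
      _ ≤ Real.exp S ^ 2 * (C ^ 2 * (1 / ((M : ℝ) + 1)) ^ 2) := by
        apply mul_le_mul _ h5 hε0 (by positivity)
        nlinarith
  rw [tendsto_iff_norm_sub_tendsto_zero]
  have h1 : Tendsto (fun M : ℕ => |C| * Real.exp S * (1 / ((M : ℝ) + 1))) atTop (𝓝 0) := by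
    have := tendsto_one_div_add_atTop_nhds_zero_nat (𝕜 := ℝ)
    simpa using this.const_mul (|C| * Real.exp S)
  refine squeeze_zero' (Eventually.of_forall fun M => norm_nonneg _) ?_ h1
  filter_upwards [eventually_ge_atTop n] with M hM
  exact key M hM

end Pool.Agent.Lib.MPb879.Lin
end

section
/-!
# INV: Fourier inversion
-/
set_option autoImplicit false

namespace Pool.Agent.Lib.MPb879.Lin

open Set Filter Finset
open scoped Topology ContDiff

namespace INVM

theorem coe_fourier (n : ℤ) (x : ℝ) :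
    fourier n (x : AddCircle (2 * Real.pi)) = Complex.exp ((n : ℂ) * x * Complex.I) := by
  rw [fourier_coe_apply]
  congr 1
  have h : (Real.pi : ℂ) ≠ 0 := by exact_mod_cast Real.pi_ne_zero
  push_cast
  field_simp

/-- conjugate of a coefficient -/
theorem conj_fc (g : ℝ → ℝ) (n : ℕ) : (starRingEnd ℂ) (fc g n) =
    (1 / (2 * Real.pi) : ℝ) *
      ∫ x in (0)..(2 * Real.pi), (g x : ℂ) * Complex.exp ((n : ℂ) * x * Complex.I) := by
  unfold fc
  rw [map_mul, Complex.conj_ofReal]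
  congr 1
  rw [intervalIntegral.integral_of_le Real.two_pi_pos.le,
    intervalIntegral.integral_of_le Real.two_pi_pos.le, ← integral_conj]
  refine MeasureTheory.integral_congr_ae (Filter.Eventually.of_forall fun x => ?_)
  show (starRingEnd ℂ) ((g x : ℂ) * Complex.exp (-((n : ℂ) * x * Complex.I))) = _
  rw [map_mul, Complex.conj_ofReal, ← Complex.exp_conj]
  simp

end INVM

open INVM in
/-- INV -/
theorem specINV : SpecINV := by
  intro g B hg hper hB x
  have hfact : Fact (0 < 2 * Real.pi) := ⟨Real.two_pi_pos⟩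
  have hp : Function.Periodic (fun x : ℝ => (g x : ℂ)) (2 * Real.pi) := fun x => by
    show (g (x + 2 * Real.pi) : ℂ) = g x
    rw [hper]
  let G : C(AddCircle (2 * Real.pi), ℂ) := ⟨hp.lift, continuous_coinduced_dom.mpr
    (Complex.continuous_ofReal.comp hg.continuous)⟩
  have hG : ∀ y : ℝ, G (y : AddCircle (2 * Real.pi)) = g y := fun y => rfl
  have hcoef : ∀ n : ℤ, fourierCoeff G n = (1 / (2 * Real.pi) : ℝ) *
      ∫ x in (0)..(2 * Real.pi), (g x : ℂ) * Complex.exp (-((n : ℂ) * x * Complex.I)) := by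
    intro n
    rw [fourierCoeff_eq_intervalIntegral G n 0, zero_add, Complex.real_smul]
    congr 1
    refine intervalIntegral.integral_congr fun y _ => ?_
    show fourier (-n) (y : AddCircle (2 * Real.pi)) • G (y : AddCircle (2 * Real.pi)) = _
    rw [coe_fourier, hG, smul_eq_mul, mul_comm]
    congr 2
    push_cast
    ring
  have hpos : ∀ n : ℕ, fourierCoeff G (n : ℤ) = fc g n := by
    intro n
    rw [hcoef]
    rfl
  have hneg : ∀ n : ℕ, fourierCoeff G (-(n : ℤ)) = (starRingEnd ℂ) (fc g n) := by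
    intro n
    rw [hcoef, conj_fc]
    congr 1
    refine intervalIntegral.integral_congr fun y _ => ?_
    show (g y : ℂ) * Complex.exp (-(((-(n : ℤ) : ℤ) : ℂ) * y * Complex.I)) = _
    congr 2
    push_cast
    ring
  -- summability
  have hsum : Summable fun n : ℕ => ‖fc g n‖ := by
    refine summable_of_sum_range_le (c := ‖fc g 0‖ + ‖fc g 1‖ + B) (fun n => norm_nonneg _) ?_
    intro n
    have h1 : ∑ i ∈ Finset.range n, ‖fc g i‖ ≤
        ∑ i ∈ insert 0 (insert 1 (Finset.Icc 2 n)), ‖fc g i‖ := by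
      refine Finset.sum_le_sum_of_subset_of_nonneg ?_ fun i _ _ => norm_nonneg _
      intro i hi
      rw [Finset.mem_range] at hi
      rw [Finset.mem_insert, Finset.mem_insert, Finset.mem_Icc]
      omega
    refine h1.trans ?_
    rw [Finset.sum_insert, Finset.sum_insert]
    · have := hB n
      linarith
    · rw [Finset.mem_Icc]
      omega
    · rw [Finset.mem_insert, Finset.mem_Icc]
      omega
  have hs1 : Summable fun n : ℕ => fourierCoeff G (n : ℤ) := by
    refine Summable.of_norm (hsum.congr fun n => ?_)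
    rw [hpos]
  have hs2 : Summable fun n : ℕ => fourierCoeff G (-(n : ℤ)) := by
    refine Summable.of_norm (hsum.congr fun n => ?_)
    rw [hneg, Complex.norm_conj]
  have hsZ : Summable (fourierCoeff G) := Summable.of_nat_of_neg hs1 hs2
  have hS := has_pointwise_sum_fourier_series_of_summable hsZ (x : AddCircle (2 * Real.pi))
  have hS2 := hS.nat_add_neg
  set t : ℕ → ℝ := fun n => 2 * (fc g n * Complex.exp ((n : ℂ) * x * Complex.I)).re with ht
  have hterm : ∀ n : ℕ, fourierCoeff G (n : ℤ) • fourier (n : ℤ) (x : AddCircle (2 * Real.pi)) +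
      fourierCoeff G (-(n : ℤ)) • fourier (-(n : ℤ)) (x : AddCircle (2 * Real.pi)) =
      ((t n : ℝ) : ℂ) := by
    intro n
    rw [hpos, hneg, coe_fourier, coe_fourier, smul_eq_mul, smul_eq_mul]
    have e1 : (starRingEnd ℂ) (fc g n) * Complex.exp (((-(n : ℤ) : ℤ) : ℂ) * x * Complex.I) =
        (starRingEnd ℂ) (fc g n * Complex.exp ((n : ℂ) * x * Complex.I)) := by
      rw [map_mul, ← Complex.exp_conj]
      congr 2
      simp
    rw [e1, Int.cast_natCast, Complex.add_conj]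
  have hS3 : HasSum (fun n : ℕ => ((t n : ℝ) : ℂ)) ((g x : ℂ) + fc g 0) := by
    have h1 : (fun n : ℕ => ((t n : ℝ) : ℂ)) = fun n : ℕ =>
        fourierCoeff G (n : ℤ) • fourier (n : ℤ) (x : AddCircle (2 * Real.pi)) +
        fourierCoeff G (-(n : ℤ)) • fourier (-(n : ℤ)) (x : AddCircle (2 * Real.pi)) :=
      funext fun n => (hterm n).symm
    rw [h1]
    have h2 : fourierCoeff G 0 • fourier 0 (x : AddCircle (2 * Real.pi)) = fc g 0 := by
      have := hpos 0
      rw [Nat.cast_zero] at this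
      rw [this, fourier_zero, smul_eq_mul, mul_one]
    rw [← hG x, ← h2]
    exact hS2
  have hS4 : HasSum t (g x + (fc g 0).re) := by
    have := Complex.hasSum_re hS3
    simpa using this
  have hlim := hS4.tendsto_sum_nat
  have ht0 : t 0 = 2 * (fc g 0).re := by
    rw [ht]
    simp
  have ht1 : t 1 = 2 * (fc g 1 * Complex.exp ((x : ℂ) * Complex.I)).re := by
    rw [ht]
    simp
  have hlim2 : Tendsto (fun N : ℕ => |∑ i ∈ Finset.range N, t i - t 0 - t 1|) atTop
      (𝓝 |g x + (fc g 0).re - t 0 - t 1|) :=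
    ((hlim.sub_const _).sub_const _).abs
  have hbd : ∀ᶠ N : ℕ in atTop, |∑ i ∈ Finset.range N, t i - t 0 - t 1| ≤ 2 * B := by
    filter_upwards [eventually_ge_atTop 2] with N hN
    have h1 : ∑ i ∈ Finset.range N, t i - t 0 - t 1 = ∑ i ∈ Finset.Ico 2 N, t i := by
      rw [Finset.range_eq_Ico, ← Finset.sum_Ico_consecutive t (Nat.zero_le 2) hN]
      have : ∑ i ∈ Finset.Ico 0 2, t i = t 0 + t 1 := by
        rw [← Finset.range_eq_Ico, Finset.sum_range_succ, Finset.sum_range_one]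
      rw [this]
      ring
    rw [h1]
    refine (Finset.abs_sum_le_sum_abs _ _).trans ?_
    have h2 : ∀ i ∈ Finset.Ico 2 N, |t i| ≤ 2 * ‖fc g i‖ := by
      intro i _
      rw [ht]
      show |2 * (fc g i * Complex.exp ((i : ℂ) * x * Complex.I)).re| ≤ _
      rw [abs_mul, abs_two]
      refine mul_le_mul_of_nonneg_left ((Complex.abs_re_le_norm _).trans (le_of_eq ?_)) zero_le_two
      rw [norm_mul]
      have e : ((i : ℂ) * x * Complex.I) = ((i * x : ℝ) : ℂ) * Complex.I := by push_cast; ring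
      rw [e, Complex.norm_exp_ofReal_mul_I, mul_one]
    refine (Finset.sum_le_sum h2).trans ?_
    rw [← Finset.mul_sum]
    refine mul_le_mul_of_nonneg_left ?_ zero_le_two
    refine le_trans (Finset.sum_le_sum_of_subset_of_nonneg ?_ fun i _ _ => norm_nonneg _) (hB N)
    intro i hi
    rw [Finset.mem_Ico] at hi
    rw [Finset.mem_Icc]
    omega
  have h := le_of_tendsto hlim2 hbd
  rw [ht0, ht1] at h
  have e : g x + (fc g 0).re - 2 * (fc g 0).re -
      2 * (fc g 1 * Complex.exp ((x : ℂ) * Complex.I)).re =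
      g x - (fc g 0).re - 2 * (fc g 1 * Complex.exp ((x : ℂ) * Complex.I)).re := by ring
  rwa [e] at h

end Pool.Agent.Lib.MPb879.Lin
end

section
/-! # MP_b879c5_an, module LOW: the modes `0, 1` -/
set_option autoImplicit false

namespace Pool.Agent.Lib.MPb879.Lin

open Set

namespace LowM

theorem mono {u u' : ℝ → ℝ} (hu : ∀ s, 0 ≤ s → HasDerivAt u (u' s) s)
    (h0 : ∀ s, 0 ≤ s → 0 ≤ u' s) : ∀ s t, 0 ≤ s → s ≤ t → u s ≤ u t := by
  have h1 : MonotoneOn u (Set.Ici 0) := by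
    refine monotoneOn_of_deriv_nonneg (convex_Ici 0)
      (fun s hs => (hu s hs).continuousAt.continuousWithinAt) ?_ ?_
    · intro s hs
      rw [interior_Ici] at hs
      exact (hu s (le_of_lt hs)).differentiableAt.differentiableWithinAt
    · intro s hs
      rw [interior_Ici] at hs
      rw [(hu s (le_of_lt hs)).deriv]
      exact h0 s (le_of_lt hs)
  intro s t hs hst
  exact h1 hs (hs.trans hst) hst

theorem dexp (a s : ℝ) : HasDerivAt (fun r => Real.exp (a * r)) (a * Real.exp (a * s)) s := by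
  have h1 : HasDerivAt (fun r => a * r) a s := by
    simpa using (hasDerivAt_id s).const_mul a
  have h2 := h1.exp
  rwa [mul_comm] at h2

theorem tail {g g' : ℝ → ℝ} {K c : ℝ} (hc : 0 < c) (hK : 0 ≤ K)
    (hg : ∀ s, 0 ≤ s → HasDerivAt g (g' s) s)
    (hb : ∀ s, 0 ≤ s → |g' s| ≤ K * Real.exp (-c * s)) :
    ∃ L, ∀ s, 0 ≤ s → |g s - L| ≤ K / c * Real.exp (-c * s) := by
  have e1 : ∀ s, 0 ≤ s → HasDerivAt (fun r => g r - K / c * Real.exp (-c * r))
      (g' s + K * Real.exp (-c * s)) s := by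
    intro s hs
    have h1 := (hg s hs).sub ((dexp (-c) s).const_mul (K / c))
    refine h1.congr_deriv ?_
    field_simp
    ring
  have e2 : ∀ s, 0 ≤ s → HasDerivAt (fun r => -(g r + K / c * Real.exp (-c * r)))
      (-g' s + K * Real.exp (-c * s)) s := by
    intro s hs
    have h1 := ((hg s hs).add ((dexp (-c) s).const_mul (K / c))).neg
    refine h1.congr_deriv ?_
    field_simp
    ring
  have m1 := mono e1 fun s hs => by
    have := abs_le.1 (hb s hs)
    linarith
  have m2 := mono e2 fun s hs => by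
    have := abs_le.1 (hb s hs)
    linarith
  have hpos : ∀ s, 0 ≤ K / c * Real.exp (-c * s) := fun s =>
    mul_nonneg (div_nonneg hK hc.le) (Real.exp_pos _).le
  have hlu : ∀ s t, 0 ≤ s → 0 ≤ t → g t - K / c * Real.exp (-c * t) ≤
      g s + K / c * Real.exp (-c * s) := by
    intro s t hs ht
    rcases le_total s t with h | h
    · have h1 := m2 s t hs h
      have h2 := hpos t
      linarith
    · have h1 := m1 t s ht h
      have h2 := hpos s
      linarith
  set A : Set ℝ := (fun t => g t - K / c * Real.exp (-c * t)) '' Set.Ici 0 with hA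
  have hbd : BddAbove A := by
    refine ⟨g 0 + K / c * Real.exp (-c * 0), ?_⟩
    rintro x ⟨t, ht, rfl⟩
    exact hlu 0 t le_rfl ht
  have hne : A.Nonempty := ⟨_, ⟨0, Set.self_mem_Ici, rfl⟩⟩
  refine ⟨sSup A, fun s hs => ?_⟩
  have h1 : g s - K / c * Real.exp (-c * s) ≤ sSup A := le_csSup hbd ⟨s, hs, rfl⟩
  have h2 : sSup A ≤ g s + K / c * Real.exp (-c * s) := by
    refine csSup_le hne ?_
    rintro x ⟨t, ht, rfl⟩
    exact hlu s t hs ht
  rw [abs_le]
  constructor <;> linarith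

theorem grow {g g' : ℝ → ℝ} {K c : ℝ} (hc : 0 < c) (hK : 0 ≤ K)
    (hg : ∀ s, 0 ≤ s → HasDerivAt g (g' s) s)
    (hb : ∀ s, 0 ≤ s → |g' s| ≤ K * Real.exp (c * s)) :
    ∀ s, 0 ≤ s → |g s| ≤ |g 0| + K / c * Real.exp (c * s) := by
  have e1 : ∀ s, 0 ≤ s → HasDerivAt (fun r => g r + K / c * Real.exp (c * r))
      (g' s + K * Real.exp (c * s)) s := by
    intro s hs
    have h1 := (hg s hs).add ((dexp c s).const_mul (K / c))
    refine h1.congr_deriv ?_
    field_simp
  have e2 : ∀ s, 0 ≤ s → HasDerivAt (fun r => -(g r) + K / c * Real.exp (c * r))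
      (-g' s + K * Real.exp (c * s)) s := by
    intro s hs
    have h1 := ((hg s hs).neg.add ((dexp c s).const_mul (K / c)))
    refine h1.congr_deriv ?_
    field_simp
  intro s hs
  have m1 := mono e1 (fun s hs => by
    have := abs_le.1 (hb s hs)
    linarith) 0 s le_rfl hs
  have m2 := mono e2 (fun s hs => by
    have := abs_le.1 (hb s hs)
    linarith) 0 s le_rfl hs
  have hpos : 0 ≤ K / c * Real.exp (c * 0) :=
    mul_nonneg (div_nonneg hK hc.le) (Real.exp_pos _).le
  have h3 := neg_abs_le (g 0)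
  have h4 := le_abs_self (g 0)
  rw [abs_le]
  constructor <;> linarith

end LowM

open LowM in
theorem specLOW : SpecLOW := by
  refine ⟨54, by norm_num, fun B f0 f1 f2 hB _ h0 h1 h2 => ?_⟩
  have hre : ∀ s, 0 ≤ s → HasDerivAt (fun r => (f1 r).re) (f0 s / 2 + 3 / 2 * (f2 s).re) s := by
    intro s hs
    have h := Complex.reCLM.hasFDerivAt.comp_hasDerivAt s (h1 s hs)
    refine h.congr_deriv ?_
    simp [Complex.add_re, Complex.mul_re]
  have him : ∀ s, 0 ≤ s → HasDerivAt (fun r => (f1 r).im) (3 / 2 * (f2 s).im) s := by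
    intro s hs
    have h := Complex.imCLM.hasFDerivAt.comp_hasDerivAt s (h1 s hs)
    refine h.congr_deriv ?_
    simp [Complex.add_im, Complex.mul_im]
  have hr2 : ∀ s, 0 ≤ s → |(f2 s).re| ≤ B * Real.exp (-(s / 18)) := fun s hs =>
    (Complex.abs_re_le_norm _).trans (h2 s hs)
  have hi2 : ∀ s, 0 ≤ s → |(f2 s).im| ≤ B * Real.exp (-(s / 18)) := fun s hs =>
    (Complex.abs_im_le_norm _).trans (h2 s hs)
  -- the growing combination
  obtain ⟨α, hα⟩ := tail (g := fun s => Real.exp (-1 * s) * (f0 s + 2 * (f1 s).re))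
    (g' := fun s => 3 * (Real.exp (-1 * s) * (f2 s).re)) (K := 3 * B) (c := 19 / 18)
    (by norm_num) (by positivity)
    (fun s hs => by
      have h := (dexp (-1) s).mul ((h0 s hs).add ((hre s hs).const_mul 2))
      refine h.congr_deriv ?_
      simp only [Pi.add_apply]
      ring)
    (fun s hs => by
      rw [abs_mul, abs_mul, abs_of_pos (Real.exp_pos _), abs_of_pos (by norm_num : (0 : ℝ) < 3)]
      have h3 := hr2 s hs
      have h4 : Real.exp (-(19 / 18) * s) = Real.exp (-1 * s) * Real.exp (-(s / 18)) := by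
        rw [← Real.exp_add]
        congr 1
        ring
      rw [h4]
      have h5 := mul_le_mul_of_nonneg_left h3 (Real.exp_pos (-1 * s)).le
      nlinarith [h5])
  -- the decaying combination
  have hm := grow (g := fun s => Real.exp (1 * s) * (f0 s - 2 * (f1 s).re))
    (g' := fun s => -(3 * (Real.exp (1 * s) * (f2 s).re))) (K := 3 * B) (c := 17 / 18)
    (by norm_num) (by positivity)
    (fun s hs => by
      have h := (dexp 1 s).mul ((h0 s hs).sub ((hre s hs).const_mul 2))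
      refine h.congr_deriv ?_
      simp only [Pi.sub_apply]
      ring)
    (fun s hs => by
      rw [abs_neg, abs_mul, abs_mul, abs_of_pos (Real.exp_pos _),
        abs_of_pos (by norm_num : (0 : ℝ) < 3)]
      have h3 := hr2 s hs
      have h4 : Real.exp (17 / 18 * s) = Real.exp (1 * s) * Real.exp (-(s / 18)) := by
        rw [← Real.exp_add]
        congr 1
        ring
      rw [h4]
      have h5 := mul_le_mul_of_nonneg_left h3 (Real.exp_pos (1 * s)).le
      nlinarith [h5])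
  -- the phase
  obtain ⟨β, hβ⟩ := tail (g := fun s => -2 * (f1 s).im)
    (g' := fun s => -2 * (3 / 2 * (f2 s).im)) (K := 3 * B) (c := 1 / 18)
    (by norm_num) (by positivity)
    (fun s hs => (him s hs).const_mul (-2))
    (fun s hs => by
      rw [abs_mul, abs_mul, abs_of_neg (by norm_num : (-2 : ℝ) < 0),
        abs_of_pos (by norm_num : (0 : ℝ) < 3 / 2)]
      have h3 := hi2 s hs
      have h4 : -(1 / 18) * s = -(s / 18) := by ring
      rw [h4]
      linarith)
  refine ⟨α, β, fun s hs => ?_⟩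
  set E := Real.exp (-(s / 18)) with hE
  have hE0 : 0 < E := Real.exp_pos _
  -- `p`
  have hp : |f0 s + 2 * (f1 s).re - α * Real.exp s| ≤ 3 * B * E := by
    have h3 := hα s hs
    have h4 : f0 s + 2 * (f1 s).re - α * Real.exp s =
        Real.exp s * (Real.exp (-1 * s) * (f0 s + 2 * (f1 s).re) - α) := by
      have h5 : Real.exp s * Real.exp (-1 * s) = 1 := by
        rw [← Real.exp_add]
        simp
      linear_combination -(f0 s + 2 * (f1 s).re) * h5
    rw [h4, abs_mul, abs_of_pos (Real.exp_pos s)]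
    have h6 : Real.exp s * Real.exp (-(19 / 18) * s) = E := by
      rw [hE, ← Real.exp_add]
      congr 1
      ring
    calc Real.exp s * |Real.exp (-1 * s) * (f0 s + 2 * (f1 s).re) - α|
        ≤ Real.exp s * (3 * B / (19 / 18) * Real.exp (-(19 / 18) * s)) :=
          mul_le_mul_of_nonneg_left h3 (Real.exp_pos s).le
      _ = 54 / 19 * B * E := by rw [← h6]; ring
      _ ≤ 3 * B * E := by
          have := mul_nonneg hB hE0.le
          nlinarith
  -- `m`
  have hm2 : |f0 s - 2 * (f1 s).re| ≤ (|f0 0| + 2 * ‖f1 0‖ + 4 * B) * E := by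
    have h3 := hm s hs
    simp only [one_mul, mul_zero, Real.exp_zero] at h3
    rw [abs_mul, abs_of_pos (Real.exp_pos s)] at h3
    have h4 : |f0 0 - 2 * (f1 0).re| ≤ |f0 0| + 2 * ‖f1 0‖ := by
      have h5 := Complex.abs_re_le_norm (f1 0)
      have h6 := abs_sub (f0 0) (2 * (f1 0).re)
      rw [abs_mul, abs_of_pos (by norm_num : (0 : ℝ) < 2)] at h6
      linarith
    have h7 : Real.exp (-s) ≤ E := by
      rw [hE]
      apply Real.exp_le_exp.2
      linarith
    have h8 : Real.exp (-s) * Real.exp (17 / 18 * s) = E := by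
      rw [hE, ← Real.exp_add]
      congr 1
      ring
    have h9 : Real.exp (-s) * Real.exp s = 1 := by
      rw [← Real.exp_add]
      simp
    calc |f0 s - 2 * (f1 s).re| = Real.exp (-s) * (Real.exp s * |f0 s - 2 * (f1 s).re|) := by
          rw [← mul_assoc, h9, one_mul]
      _ ≤ Real.exp (-s) * (|f0 0 - 2 * (f1 0).re| +
            3 * B / (17 / 18) * Real.exp (17 / 18 * s)) :=
          mul_le_mul_of_nonneg_left h3 (Real.exp_pos _).le
      _ = Real.exp (-s) * |f0 0 - 2 * (f1 0).re| + 54 / 17 * B * E := by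
          rw [← h8]; ring
      _ ≤ E * (|f0 0| + 2 * ‖f1 0‖) + 4 * B * E := by
          refine add_le_add (mul_le_mul h7 h4 (abs_nonneg _) hE0.le) ?_
          have := mul_nonneg hB hE0.le
          nlinarith
      _ = (|f0 0| + 2 * ‖f1 0‖ + 4 * B) * E := by ring
  have hBE := mul_nonneg hB hE0.le
  have h0E := mul_nonneg (abs_nonneg (f0 0)) hE0.le
  have h1E := mul_nonneg (norm_nonneg (f1 0)) hE0.le
  have hp1 := abs_le.1 hp
  have hm1 := abs_le.1 hm2
  refine ⟨?_, ?_, ?_⟩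
  · rw [abs_le]
    constructor <;> nlinarith
  · rw [abs_le]
    constructor <;> nlinarith
  · have h3 := hβ s hs
    have h4 : -(1 / 18) * s = -(s / 18) := by ring
    rw [h4] at h3
    refine h3.trans ?_
    rw [← hE]
    nlinarith

end Pool.Agent.Lib.MPb879.Lin
end

section
/-!
# MP_b879c5_an, module MBD: bounds for the modes of the infinite system
-/
set_option autoImplicit false

namespace Pool.Agent.Lib.MPb879.Lin

open Set Filter Finset
open scoped Topology ContDiff

namespace MBDM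

theorem sum_inv_sq (M : ℕ) : ∑ n ∈ Finset.Icc 2 M, 1 / (n : ℝ) ^ 2 ≤ 1 := by
  rcases Nat.lt_or_ge M 1 with h | h
  · rw [Finset.Icc_eq_empty (by omega), Finset.sum_empty]
    exact zero_le_one
  have h1 : ∑ n ∈ Finset.Icc 2 M, 1 / (n : ℝ) ^ 2 ≤ 1 - 1 / (M : ℝ) := by
    induction M, h using Nat.le_induction with
    | base => simp
    | succ M hM ih =>
      rw [Finset.sum_Icc_succ_top (by omega)]
      have hM' : (1 : ℝ) ≤ M := by exact_mod_cast hM
      have h2 : 1 / ((M + 1 : ℕ) : ℝ) ^ 2 ≤ 1 / (M : ℝ) - 1 / ((M + 1 : ℕ) : ℝ) := by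
        push_cast
        rw [div_sub_div _ _ (by positivity) (by positivity),
          div_le_div_iff₀ (by positivity) (by positivity)]
        nlinarith
      linarith
  have h3 : (0 : ℝ) ≤ 1 / (M : ℝ) := by positivity
  linarith

theorem dd_nonneg {n : ℕ} (hn : 2 ≤ n) : 0 ≤ dd n := by
  unfold dd
  have h1 : (2 : ℝ) ≤ n := by exact_mod_cast hn
  nlinarith [mul_nonneg (by linarith : (0 : ℝ) ≤ n) (by nlinarith : (0 : ℝ) ≤ (n : ℝ) ^ 2 - 1)]

theorem dd_le {n : ℕ} : dd n ≤ (n : ℝ) ^ 3 := by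
  unfold dd
  have h1 : (0 : ℝ) ≤ n := Nat.cast_nonneg n
  linarith

/-- the truncation -/
noncomputable def gM (M : ℕ) (g : ℕ → ℂ) (n : ℕ) : ℂ := if n ∈ Finset.Icc 2 M then g n else 0

theorem gM_supp (M : ℕ) (g : ℕ → ℂ) : Supp M (gM M g) := by
  intro n hn
  unfold gM
  rw [if_neg]
  rw [Finset.mem_Icc]
  omega

theorem gM_mem {M : ℕ} {g : ℕ → ℂ} {n : ℕ} (hn : n ∈ Finset.Icc 2 M) : gM M g n = g n := if_pos hn

section bounds

variable {N : ℝ} {g : ℕ → ℂ} (hN : 0 ≤ N) (hg : ∀ n : ℕ, 2 ≤ n → ‖g n‖ ≤ N / (n : ℝ) ^ 6)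

include hg in
theorem sq_le {n : ℕ} (hn : 2 ≤ n) : ‖g n‖ ^ 2 ≤ N ^ 2 / (n : ℝ) ^ 12 := by
  have h1 := pow_le_pow_left₀ (norm_nonneg _) (hg n hn) 2
  rw [div_pow, ← pow_mul] at h1
  exact h1

include hg in
theorem gM_sq_le {M n : ℕ} (hn : 2 ≤ n) : ‖gM M g n‖ ^ 2 ≤ N ^ 2 / (n : ℝ) ^ 12 := by
  unfold gM
  split_ifs
  · exact sq_le hg hn
  · rw [norm_zero, zero_pow two_ne_zero]
    positivity

theorem sum_le {M : ℕ} {a : ℕ → ℝ} (h : ∀ n ∈ Finset.Icc 2 M, a n ≤ N ^ 2 * (1 / (n : ℝ) ^ 2)) :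
    ∑ n ∈ Finset.Icc 2 M, a n ≤ N ^ 2 := by
  refine (Finset.sum_le_sum h).trans ?_
  rw [← Finset.mul_sum]
  calc N ^ 2 * ∑ n ∈ Finset.Icc 2 M, 1 / (n : ℝ) ^ 2 ≤ N ^ 2 * 1 :=
        mul_le_mul_of_nonneg_left (sum_inv_sq M) (sq_nonneg N)
    _ = N ^ 2 := mul_one _

include hN hg in
theorem yE_le (M : ℕ) : yE M (gM M g) ≤ N ^ 2 := by
  unfold yE
  refine sum_le fun n hn => ?_
  have hn2 := (Finset.mem_Icc.1 hn).1
  have hn' : (2 : ℝ) ≤ n := by exact_mod_cast hn2
  calc dd n * ‖gM M g n‖ ^ 2 ≤ (n : ℝ) ^ 3 * (N ^ 2 / (n : ℝ) ^ 12) :=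
        mul_le_mul dd_le (gM_sq_le hg hn2) (sq_nonneg _) (by positivity)
    _ = N ^ 2 * (1 / (n : ℝ) ^ 9) := by
        field_simp
    _ ≤ N ^ 2 * (1 / (n : ℝ) ^ 2) := by
        refine mul_le_mul_of_nonneg_left ?_ (sq_nonneg N)
        exact one_div_le_one_div_of_le (by positivity)
          (pow_le_pow_right₀ (by linarith) (by norm_num))

include hN hg in
theorem hE_le (M : ℕ) : hE M (gM M g) ≤ N ^ 2 := by
  unfold hE
  refine sum_le fun n hn => ?_
  have hn2 := (Finset.mem_Icc.1 hn).1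
  have hn' : (2 : ℝ) ≤ n := by exact_mod_cast hn2
  have h1 : dd n ^ 3 ≤ ((n : ℝ) ^ 3) ^ 3 := pow_le_pow_left₀ (dd_nonneg hn2) dd_le 3
  calc dd n ^ 3 * ‖gM M g n‖ ^ 2 ≤ ((n : ℝ) ^ 3) ^ 3 * (N ^ 2 / (n : ℝ) ^ 12) :=
        mul_le_mul h1 (gM_sq_le hg hn2) (sq_nonneg _) (by positivity)
    _ = N ^ 2 * (1 / (n : ℝ) ^ 3) := by
        field_simp
    _ ≤ N ^ 2 * (1 / (n : ℝ) ^ 2) := by
        refine mul_le_mul_of_nonneg_left ?_ (sq_nonneg N)
        exact one_div_le_one_div_of_le (by positivity)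
          (pow_le_pow_right₀ (by linarith) (by norm_num))

include hN hg in
theorem xE_le (M : ℕ) : xE M (gM M g) ≤ N ^ 2 := by
  unfold xE
  rw [Finset.mul_sum]
  refine sum_le fun n hn => ?_
  have hn2 := (Finset.mem_Icc.1 hn).1
  have hn' : (2 : ℝ) ≤ n := by exact_mod_cast hn2
  have h1 : ‖gM M g n + gM M g (n + 1)‖ ^ 2 ≤
      2 * (‖gM M g n‖ ^ 2 + ‖gM M g (n + 1)‖ ^ 2) := by
    have h2 := norm_add_le (gM M g n) (gM M g (n + 1))
    have h3 := pow_le_pow_left₀ (norm_nonneg _) h2 2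
    nlinarith [sq_nonneg (‖gM M g n‖ - ‖gM M g (n + 1)‖)]
  have h2 := gM_sq_le hg (M := M) hn2
  have h3 : ‖gM M g (n + 1)‖ ^ 2 ≤ N ^ 2 / (n : ℝ) ^ 12 := by
    refine (gM_sq_le hg (M := M) (show 2 ≤ n + 1 by omega)).trans ?_
    refine div_le_div_of_nonneg_left (sq_nonneg N) (by positivity) ?_
    refine pow_le_pow_left₀ (by linarith) ?_ 12
    push_cast
    linarith
  have hw : ww n ≤ 2 * (n : ℝ) ^ 4 := by
    unfold ww
    have h4 : ((n : ℝ) - 1) * n * (n + 1) * (n + 2) =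
        (n : ℝ) ^ 4 + 2 * (n : ℝ) ^ 3 - (n : ℝ) ^ 2 - 2 * n := by ring
    rw [h4]
    have h5 : 2 * (n : ℝ) ^ 3 ≤ (n : ℝ) ^ 4 := by
      calc 2 * (n : ℝ) ^ 3 ≤ n * (n : ℝ) ^ 3 := mul_le_mul_of_nonneg_right hn' (by positivity)
        _ = (n : ℝ) ^ 4 := by ring
    nlinarith [sq_nonneg (n : ℝ)]
  have h64 : (64 : ℝ) ≤ (n : ℝ) ^ 6 := by
    calc (64 : ℝ) = 2 ^ 6 := by norm_num
      _ ≤ (n : ℝ) ^ 6 := pow_le_pow_left₀ (by norm_num) hn' 6
  calc 1 / 2 * (ww n * ‖gM M g n + gM M g (n + 1)‖ ^ 2)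
      ≤ 1 / 2 * ((2 * (n : ℝ) ^ 4) * (2 * (N ^ 2 / (n : ℝ) ^ 12 + N ^ 2 / (n : ℝ) ^ 12))) := by
        refine mul_le_mul_of_nonneg_left ?_ (by norm_num)
        exact mul_le_mul hw (h1.trans (by linarith)) (sq_nonneg _) (by positivity)
    _ = N ^ 2 * (4 / (n : ℝ) ^ 8) := by
        field_simp
        ring
    _ ≤ N ^ 2 * (1 / (n : ℝ) ^ 2) := by
        refine mul_le_mul_of_nonneg_left ?_ (sq_nonneg N)
        rw [div_le_div_iff₀ (by positivity) (by positivity), one_mul]
        calc 4 * (n : ℝ) ^ 2 ≤ (n : ℝ) ^ 6 * (n : ℝ) ^ 2 :=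
              mul_le_mul_of_nonneg_right (by linarith) (by positivity)
          _ = (n : ℝ) ^ 8 := by ring

end bounds

/-- the bound of `KK` -/
theorem KK_le {T S : ℝ} (hT : 0 < T) (hS : 0 ≤ S) :
    KK T (Real.exp (-(S / 12))) ≤ 200 * (1 + T) * Real.exp (5 * S / 36) := by
  set σ : ℝ := Real.exp (-(S / 12)) with hσ
  have hσ0 : 0 < σ := Real.exp_pos _
  have hσ1 : σ ≤ 1 := Real.exp_le_one_iff.2 (by linarith)
  have hpi := Real.pi_gt_three
  have hpi4 := Real.pi_le_four
  have hsin : σ / 2 ≤ Real.sin σ := by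
    have h1 := Real.mul_le_sin hσ0.le (by linarith : σ ≤ Real.pi / 2)
    refine le_trans ?_ h1
    rw [div_mul_eq_mul_div, div_le_div_iff₀ (by norm_num) (by linarith)]
    nlinarith
  have hX : 72000 * T / Real.sin σ ^ 5 ≤ (200 * (1 + T) * Real.exp (5 * S / 36)) ^ 3 := by
    have h1 : (σ / 2) ^ 5 ≤ Real.sin σ ^ 5 := pow_le_pow_left₀ (by positivity) hsin 5
    have h2 : (0 : ℝ) < (σ / 2) ^ 5 := by positivity
    calc 72000 * T / Real.sin σ ^ 5 ≤ 72000 * T / (σ / 2) ^ 5 :=
          div_le_div_of_nonneg_left (by positivity) h2 h1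
      _ = 2304000 * T * (σ ^ 5)⁻¹ := by
          rw [div_pow]
          field_simp
          norm_num
      _ = 2304000 * T * Real.exp (5 * S / 12) := by
          rw [hσ, ← Real.exp_nat_mul, ← Real.exp_neg]
          congr 2
          push_cast
          ring
      _ ≤ 8000000 * (1 + T) ^ 3 * Real.exp (5 * S / 12) := by
          refine mul_le_mul_of_nonneg_right ?_ (Real.exp_pos _).le
          nlinarith [sq_nonneg T, pow_pos hT 3]
      _ = (200 * (1 + T) * Real.exp (5 * S / 36)) ^ 3 := by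
          rw [mul_pow, mul_pow, ← Real.exp_nat_mul]
          have h3 : ((3 : ℕ) : ℝ) * (5 * S / 36) = 5 * S / 12 := by
            push_cast
            ring
          rw [h3]
          norm_num
  unfold KK
  have h0 : 0 ≤ 72000 * T / Real.sin σ ^ 5 := by
    have : 0 < Real.sin σ := lt_of_lt_of_le (by positivity) hsin
    positivity
  have h4 : 0 ≤ 200 * (1 + T) * Real.exp (5 * S / 36) := by positivity
  calc (72000 * T / Real.sin σ ^ 5) ^ (1 / 3 : ℝ)
      ≤ ((200 * (1 + T) * Real.exp (5 * S / 36)) ^ 3) ^ (1 / 3 : ℝ) :=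
        Real.rpow_le_rpow h0 hX (by norm_num)
    _ = 200 * (1 + T) * Real.exp (5 * S / 36) := by
        have h5 := Real.pow_rpow_inv_natCast h4 (show (3 : ℕ) ≠ 0 by norm_num)
        have h6 : (((3 : ℕ) : ℝ))⁻¹ = 1 / 3 := by norm_num
        rw [h6] at h5
        exact h5

theorem KK_nonneg {T σ : ℝ} (hT : 0 < T) (hσ : 0 < σ) (hσ1 : σ ≤ 1) : 0 ≤ KK T σ := by
  unfold KK
  have hpi := Real.pi_gt_three
  have : 0 < Real.sin σ := Real.sin_pos_of_pos_of_lt_pi hσ (by linarith)
  positivity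

theorem mu_zero (T : ℝ) : mu T 0 = (T : ℂ) := by
  unfold mu
  simp

end MBDM

open MBDM in
theorem specMBD (hEXI : SpecEXI) (hENE : SpecENE) (hZDE : SpecZDE) (hMOD : SpecMOD)
    (hPAR : SpecPAR) (hGLM : SpecGLM) : SpecMBD := by
  refine ⟨17, by norm_num, ?_⟩
  intro T N f hT hN hf h0 S hS
  -- the Galerkin solutions
  have hex : ∀ (M : ℕ) (σ : ℝ), ∃ F, Gal M (mu T σ) F ∧ F 0 = gM M (f 0) := fun M σ =>
    hEXI M (mu T σ) _ (gM_supp M _)
  choose F hF hF0 using hex
  have hF00 : ∀ M, Gal M (T : ℂ) (F M 0) := fun M => by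
    rw [← mu_zero]
    exact hF M 0
  have hlim := hGLM T f (fun M => F M 0) hf hF00 (fun M n hn => by
    show F M 0 0 n = f 0 n
    rw [hF0, gM_mem hn])
  constructor
  · intro n hn
    set σ : ℝ := Real.exp (-(S / 12)) with hσ
    have hσ0 : 0 < σ := Real.exp_pos _
    have hσ1 : σ ≤ 1 := Real.exp_le_one_iff.2 (by linarith)
    have hpi := Real.pi_gt_three
    have hσπ : σ ≤ Real.pi / 2 := by linarith
    obtain ⟨M₀, hM₀⟩ := hZDE T σ S hT hσ0 hσπ hS
    have hev : ∀ᶠ M in atTop, Real.sqrt (dd n) * ‖F M 0 S n‖ ≤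
        N * (17 * (1 + T) * Real.exp (-(S / 18)) + σ * (T * Real.exp (-S) * dd n + n)) := by
      filter_upwards [eventually_ge_atTop (max M₀ n)] with M hM
      have hM0 : M₀ ≤ M := (le_max_left _ _).trans hM
      have hnM : n ∈ Finset.Icc 2 M := Finset.mem_Icc.2 ⟨hn, (le_max_right _ _).trans hM⟩
      have hddn := dd_nonneg hn
      -- the solution with complex time
      have h1 := hM₀ M hM0 (F M σ) (hF M σ)
      rw [hF0] at h1
      have hx := xE_le hN h0 M
      have hy := yE_le hN h0 M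
      have hh := hE_le hN h0 M
      have hK0 := KK_nonneg hT hσ0 hσ1
      have hK1 : KK T σ ≤ 200 * (1 + T) * Real.exp (5 * S / 36) := KK_le hT hS
      have h2 : xE M (F M σ S) ≤ (15 * (1 + T) * Real.exp (-(S / 18)) * N) ^ 2 := by
        have h3 : xE M (gM M (f 0)) + KK T σ * yE M (gM M (f 0)) ≤
            N ^ 2 * (1 + 200 * (1 + T) * Real.exp (5 * S / 36)) := by
          have h4 : KK T σ * yE M (gM M (f 0)) ≤
              (200 * (1 + T) * Real.exp (5 * S / 36)) * N ^ 2 :=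
            (mul_le_mul_of_nonneg_left hy hK0).trans
              (mul_le_mul_of_nonneg_right hK1 (sq_nonneg N))
          linarith
        have h5 : Real.exp (-(S / 4)) ≤ Real.exp (-(S / 9)) := Real.exp_le_exp.2 (by linarith)
        have h6 : Real.exp (-(S / 4)) * Real.exp (5 * S / 36) = Real.exp (-(S / 9)) := by
          rw [← Real.exp_add]
          congr 1
          ring
        have h7 : Real.exp (-(S / 18)) ^ 2 = Real.exp (-(S / 9)) := by
          rw [← Real.exp_nat_mul]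
          congr 1
          push_cast
          ring
        calc xE M (F M σ S) ≤ Real.exp (-(S / 4)) *
              (xE M (gM M (f 0)) + KK T σ * yE M (gM M (f 0))) := h1
          _ ≤ Real.exp (-(S / 4)) *
              (N ^ 2 * (1 + 200 * (1 + T) * Real.exp (5 * S / 36))) :=
              mul_le_mul_of_nonneg_left h3 (Real.exp_pos _).le
          _ = N ^ 2 * (Real.exp (-(S / 4)) + 200 * (1 + T) *
              (Real.exp (-(S / 4)) * Real.exp (5 * S / 36))) := by ring
          _ ≤ N ^ 2 * (Real.exp (-(S / 9)) + 200 * (1 + T) * Real.exp (-(S / 9))) := by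
              rw [h6]
              refine mul_le_mul_of_nonneg_left ?_ (sq_nonneg N)
              linarith
          _ = N ^ 2 * ((1 + 200 * (1 + T)) * Real.exp (-(S / 9))) := by ring
          _ ≤ N ^ 2 * ((225 * (1 + T) ^ 2) * Real.exp (-(S / 9))) := by
              refine mul_le_mul_of_nonneg_left ?_ (sq_nonneg N)
              refine mul_le_mul_of_nonneg_right ?_ (Real.exp_pos _).le
              nlinarith
          _ = (15 * (1 + T) * Real.exp (-(S / 18)) * N) ^ 2 := by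
              rw [← h7]
              ring
      have h3 := hMOD M (F M σ S) ((hF M σ).supp S) n hnM
      have h4 : Real.sqrt (dd n) * ‖F M σ S n‖ ≤ 15 * (1 + T) * Real.exp (-(S / 18)) * N := by
        refine abs_le_of_sq_le_sq' ?_ (by positivity) |>.2
        rw [mul_pow, Real.sq_sqrt hddn]
        have h5 : 0 ≤ xE M (F M σ S) := by
          unfold xE
          refine mul_nonneg (by norm_num) (Finset.sum_nonneg fun m hm => ?_)
          have hm' : (2 : ℝ) ≤ m := by exact_mod_cast (Finset.mem_Icc.1 hm).1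
          unfold ww
          have : 0 ≤ (m : ℝ) - 1 := by linarith
          positivity
        linarith
      -- the transfer
      have h5 := hPAR M T (gM M (f 0)) (F M) hT (gM_supp M _) (hF M) (hF0 M) σ S hσ0.le hσπ hS n hnM
      have h6 : Real.sqrt (yE M (gM M (f 0))) ≤ N := Real.sqrt_le_iff.2 ⟨hN, hy⟩
      have h7 : Real.sqrt (hE M (gM M (f 0))) ≤ N := Real.sqrt_le_iff.2 ⟨hN, hh⟩
      have h8 : 0 ≤ T * Real.exp (-S) * dd n + n := by
        have : 0 ≤ T * Real.exp (-S) * dd n := by positivity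
        positivity
      have h9 : σ ≤ Real.exp (-(S / 18)) := Real.exp_le_exp.2 (by linarith)
      have h10 : Real.sqrt (dd n) * ‖F M 0 S n - F M σ S n‖ ≤
          N * (σ * (T * Real.exp (-S) * dd n + n) + 2 * (1 + T) * Real.exp (-(S / 18))) := by
        calc _ ≤ _ := h5
          _ ≤ σ * ((T * Real.exp (-S) * dd n + n) * N + 2 * (1 + T) * N) := by
              refine mul_le_mul_of_nonneg_left ?_ hσ0.le
              exact add_le_add (mul_le_mul_of_nonneg_left h6 h8)
                (mul_le_mul_of_nonneg_left h7 (by positivity))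
          _ = N * (σ * (T * Real.exp (-S) * dd n + n) + 2 * (1 + T) * σ) := by ring
          _ ≤ _ := by
              refine mul_le_mul_of_nonneg_left ?_ hN
              refine add_le_add le_rfl (mul_le_mul_of_nonneg_left h9 (by positivity))
      have h11 : ‖F M 0 S n‖ ≤ ‖F M 0 S n - F M σ S n‖ + ‖F M σ S n‖ := by
        calc ‖F M 0 S n‖ = ‖(F M 0 S n - F M σ S n) + F M σ S n‖ := by rw [sub_add_cancel]
          _ ≤ _ := norm_add_le _ _
      have h12 := mul_le_mul_of_nonneg_left h11 (Real.sqrt_nonneg (dd n))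
      rw [mul_add] at h12
      calc _ ≤ _ := h12
        _ ≤ _ := add_le_add h10 h4
        _ = _ := by ring
    have hlim' : Tendsto (fun M => Real.sqrt (dd n) * ‖F M 0 S n‖) atTop
        (𝓝 (Real.sqrt (dd n) * ‖f S n‖)) := ((hlim S hS n hn).norm).const_mul _
    exact le_of_tendsto hlim' hev
  · intro L
    have hlim' : Tendsto (fun M => yE L (F M 0 S)) atTop (𝓝 (yE L (f S))) := by
      unfold yE
      refine tendsto_finsetSum _ fun n hn => ?_
      exact (((hlim S hS n (Finset.mem_Icc.1 hn).1).norm).pow 2).const_mul _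
    refine le_of_tendsto hlim' ?_
    filter_upwards [eventually_ge_atTop L] with M hM
    have h1 : yE M (F M 0 S) = yE M (F M 0 0) := by
      have hder : ∀ s, 0 ≤ s → HasDerivAt (fun r => yE M (F M 0 r)) 0 s := by
        intro s hs
        have h2 := hENE M (T : ℂ) (F M 0) (hF00 M) s hs
        rwa [Complex.ofReal_im, mul_zero, zero_mul, zero_mul] at h2
      exact constant_of_has_deriv_right_zero
        (fun s hs => (hder s hs.1).continuousAt.continuousWithinAt)
        (fun s hs => (hder s hs.1).hasDerivWithinAt) S ⟨hS, le_rfl⟩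
    have h2 : yE L (F M 0 S) ≤ yE M (F M 0 S) := by
      unfold yE
      refine Finset.sum_le_sum_of_subset_of_nonneg (Finset.Icc_subset_Icc le_rfl hM)
        fun n hn _ => mul_nonneg (dd_nonneg (Finset.mem_Icc.1 hn).1) (sq_nonneg _)
    rw [h1, hF0] at h2
    exact h2.trans (yE_le hN h0 M)

end Pool.Agent.Lib.MPb879.Lin
end

section
/-!
# MP_b879c5_an, module MOD: `x` controls all modes
-/
set_option autoImplicit false

namespace Pool.Agent.Lib.MPb879.Lin.MODM

theorem step (n a b c : ℝ) (_ : 0 ≤ n) (hn1 : 1 ≤ n) (hc : 0 ≤ c) (h : c ≤ a + b) :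
    3 * (n ^ 3 - n) * c ^ 2 ≤
      (n - 1) * n * (n + 1) * (n + 2) * a ^ 2 + 3 * ((n + 1) ^ 3 - (n + 1)) * b ^ 2 := by
  have h1 : c ^ 2 ≤ (a + b) ^ 2 := pow_le_pow_left₀ hc h 2
  have h2 : 0 ≤ 3 * (n ^ 3 - n) := by
    have : n ^ 3 - n = (n - 1) * n * (n + 1) := by ring
    rw [this]
    have : 0 ≤ n - 1 := by linarith
    positivity
  have h3 := mul_le_mul_of_nonneg_left h1 h2
  have h4 : 0 ≤ n * (n + 1) * ((n - 1) * a - 3 * b) ^ 2 := by positivity
  nlinarith [h3, h4]

end Pool.Agent.Lib.MPb879.Lin.MODM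

namespace Pool.Agent.Lib.MPb879.Lin

open Set Filter Finset MODM

theorem specMOD : SpecMOD := by
  intro M f hf
  have key : ∀ k : ℕ, ∀ n : ℕ, 2 ≤ n → n + k = M + 1 →
      3 * dd n * ‖f n‖ ^ 2 ≤ ∑ m ∈ Finset.Icc n M, ww m * ‖f m + f (m + 1)‖ ^ 2 := by
    intro k
    induction k with
    | zero =>
      intro n hn hk
      have h1 : f n = 0 := hf n (Or.inr (by omega))
      have h2 : Finset.Icc n M = ∅ := by
        rw [Finset.Icc_eq_empty_iff]
        omega
      rw [h1, h2]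
      simp
    | succ k ih =>
      intro n hn hk
      have h1 := ih (n + 1) (by omega) (by omega)
      have h2 : Finset.Icc n M = insert n (Finset.Icc (n + 1) M) := by
        ext m
        simp only [Finset.mem_Icc, Finset.mem_insert]
        omega
      have h3 : n ∉ Finset.Icc (n + 1) M := by
        simp
      rw [h2, Finset.sum_insert h3]
      have h4 : ‖f n‖ ≤ ‖f n + f (n + 1)‖ + ‖f (n + 1)‖ := by
        have : f n = (f n + f (n + 1)) - f (n + 1) := by ring
        calc ‖f n‖ = ‖(f n + f (n + 1)) - f (n + 1)‖ := by rw [← this]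
          _ ≤ _ := norm_sub_le _ _
      have hn' : (1 : ℝ) ≤ (n : ℝ) := by exact_mod_cast (by omega : 1 ≤ n)
      have h5 := step (n : ℝ) ‖f n + f (n + 1)‖ ‖f (n + 1)‖ ‖f n‖ (by positivity) hn'
        (norm_nonneg _) h4
      have h6 : dd (n + 1) = ((n : ℝ) + 1) ^ 3 - ((n : ℝ) + 1) := by
        unfold dd
        push_cast
        ring
      rw [h6] at h1
      unfold dd ww
      unfold ww at h1
      linarith
  intro n hn
  rw [Finset.mem_Icc] at hn
  have h1 := key (M + 1 - n) n hn.1 (by omega)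
  have h2 : ∑ m ∈ Finset.Icc n M, ww m * ‖f m + f (m + 1)‖ ^ 2 ≤
      ∑ m ∈ Finset.Icc 2 M, ww m * ‖f m + f (m + 1)‖ ^ 2 := by
    apply Finset.sum_le_sum_of_subset_of_nonneg
    · apply Finset.Icc_subset_Icc_left hn.1
    · intro m hm _
      rw [Finset.mem_Icc] at hm
      have hm' : (1 : ℝ) ≤ (m : ℝ) := by exact_mod_cast (by omega : 1 ≤ m)
      have : 0 ≤ (m : ℝ) - 1 := by linarith
      unfold ww
      positivity
  unfold xE
  linarith

end Pool.Agent.Lib.MPb879.Lin
end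

section
/-!
# MP_b879c5_an, module PAR: the transfer from complex time to real time
-/
set_option autoImplicit false

namespace Pool.Agent.Lib.MPb879.Lin.PARM

open Set Filter Finset

theorem dd_nonneg {n : ℕ} (hn : 1 ≤ n) : 0 ≤ dd n := by
  have hn' : (1 : ℝ) ≤ (n : ℝ) := by exact_mod_cast hn
  have : (n : ℝ) ^ 3 - n = ((n : ℝ) - 1) * n * (n + 1) := by ring
  unfold dd
  rw [this]
  have : 0 ≤ (n : ℝ) - 1 := by linarith
  positivity

theorem mode_le {M : ℕ} (f : ℕ → ℂ) {n : ℕ} (hn : n ∈ Finset.Icc 2 M) :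
    Real.sqrt (dd n) * ‖f n‖ ≤ Real.sqrt (yE M f) := by
  apply Real.le_sqrt_of_sq_le
  rw [mul_pow, Real.sq_sqrt (dd_nonneg (by rw [Finset.mem_Icc] at hn; omega))]
  unfold yE
  exact Finset.single_le_sum (f := fun n => dd n * ‖f n‖ ^ 2) (fun m hm => by
    rw [Finset.mem_Icc] at hm
    exact mul_nonneg (dd_nonneg (by omega)) (by positivity)) hn

theorem dE_nonneg (M : ℕ) (f : ℕ → ℂ) : 0 ≤ dE M f := by
  unfold dE
  exact Finset.sum_nonneg fun m _ => by positivity

theorem yE_le (hENE : SpecENE) {M : ℕ} {μ : ℂ} {f : ℝ → ℕ → ℂ} (hf : Gal M μ f)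
    (hμ : μ.im ≤ 0) {S : ℝ} (hS : 0 ≤ S) : yE M (f S) ≤ yE M (f 0) := by
  have hd : ∀ s, 0 ≤ s → HasDerivAt (fun r => yE M (f r))
      (2 * μ.im * Real.exp (-s) * dE M (f s)) s := fun s hs => hENE M μ f hf s hs
  have h1 : AntitoneOn (fun r => yE M (f r)) (Set.Icc 0 S) := by
    apply antitoneOn_of_deriv_nonpos (convex_Icc 0 S)
    · exact fun s hs => (hd s hs.1).continuousAt.continuousWithinAt
    · intro s hs
      rw [interior_Icc] at hs
      exact (hd s hs.1.le).differentiableAt.differentiableWithinAt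
    · intro s hs
      rw [interior_Icc] at hs
      rw [(hd s hs.1.le).deriv]
      have h2 : 0 ≤ Real.exp (-s) * dE M (f s) :=
        mul_nonneg (Real.exp_pos _).le (dE_nonneg M _)
      nlinarith
  exact h1 (Set.left_mem_Icc.2 hS) (Set.right_mem_Icc.2 hS) hS

theorem mu_im (T σ : ℝ) : (mu T σ).im = -(T * Real.sin σ) := by
  unfold mu
  have : -((σ : ℂ) * Complex.I) = ((-σ : ℝ) : ℂ) * Complex.I := by push_cast; ring
  rw [this, Complex.im_ofReal_mul, Complex.exp_ofReal_mul_I_im,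
    Real.sin_neg]
  ring

theorem norm_mu {T : ℝ} (hT : 0 < T) (σ : ℝ) : ‖mu T σ‖ = T := by
  unfold mu
  have : -((σ : ℂ) * Complex.I) = ((-σ : ℝ) : ℂ) * Complex.I := by push_cast; ring
  rw [this, norm_mul, Complex.norm_exp_ofReal_mul_I, mul_one, Complex.norm_real,
    Real.norm_of_nonneg hT.le]

end Pool.Agent.Lib.MPb879.Lin.PARM

namespace Pool.Agent.Lib.MPb879.Lin

open Set Filter Finset PARM

theorem specPAR (hEXI : SpecEXI) (hENE : SpecENE) (hPRH : SpecPRH) (hPDF : SpecPDF) :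
    SpecPAR := by
  intro M T g F hT hg hF hF0 σ S hσ hσ' hS n hn
  let g' : ℝ → ℕ → ℂ := fun a m => if m ∈ Finset.Icc 2 M then rhs (mu T a) 0 g m else 0
  have hg' : ∀ a, Supp M (g' a) := by
    intro a m hm
    have : m ∉ Finset.Icc 2 M := by
      rw [Finset.mem_Icc]
      omega
    simp only [g', if_neg this]
  choose H hH hH0 using fun a => hEXI M (mu T a) (g' a) (hg' a)
  have hder := hPDF M T F H hF hH (fun a b => by rw [hF0, hF0]) (fun a m hm => by
    rw [hH0, hF0]
    simp only [g', if_pos hm]) S hS n hn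
  have hyg' : ∀ a, yE M (g' a) = yE M (rhs (mu T a) 0 g) := by
    intro a
    unfold yE
    apply Finset.sum_congr rfl
    intro m hm
    simp only [g', if_pos hm]
  have him : ∀ a ∈ Set.Icc (0 : ℝ) σ, (mu T a).im ≤ 0 := by
    intro a ha
    rw [mu_im]
    have h1 : 0 ≤ Real.sin a :=
      Real.sin_nonneg_of_nonneg_of_le_pi ha.1 (by linarith [ha.2, Real.pi_pos])
    have := mul_nonneg hT.le h1
    linarith
  have hB : ∀ a ∈ Set.Icc (0 : ℝ) σ,
      Real.sqrt (dd n) * ‖Complex.I * (rhs (mu T a) S (F a S) n - H a S n)‖ ≤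
        (T * Real.exp (-S) * dd n + n) * Real.sqrt (yE M g) +
          2 * (1 + T) * Real.sqrt (hE M g) := by
    intro a ha
    have h1 := (hPRH M (mu T a) S (F a S) ((hF a).supp S)).1 n hn
    have h2 := yE_le hENE (hF a) (him a ha) hS
    rw [hF0] at h2
    have h3 := yE_le hENE (hH a) (him a ha) hS
    rw [hH0, hyg'] at h3
    have h4 := (hPRH M (mu T a) 0 g hg).2
    have h5 := mode_le (H a S) hn
    rw [norm_mu hT] at h1 h4
    have hdn : 0 ≤ dd n := dd_nonneg (by rw [Finset.mem_Icc] at hn; omega)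
    have h6 : Real.sqrt (dd n) * ‖rhs (mu T a) S (F a S) n‖ ≤
        (T * Real.exp (-S) * dd n + n) * Real.sqrt (yE M g) :=
      h1.trans (mul_le_mul_of_nonneg_left (Real.sqrt_le_sqrt h2) (by positivity))
    have hhE : 0 ≤ hE M g := by
      unfold hE
      refine Finset.sum_nonneg fun m hm => ?_
      rw [Finset.mem_Icc] at hm
      have := dd_nonneg (n := m) (by omega)
      positivity
    have h7 : Real.sqrt (yE M (H a S)) ≤ 2 * (1 + T) * Real.sqrt (hE M g) := by
      apply Real.sqrt_le_iff.2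
      refine ⟨by positivity, (h3.trans h4).trans ?_⟩
      rw [mul_pow, Real.sq_sqrt hhE]
      apply mul_le_mul_of_nonneg_right _ hhE
      nlinarith
    have h8 : ‖Complex.I * (rhs (mu T a) S (F a S) n - H a S n)‖ ≤
        ‖rhs (mu T a) S (F a S) n‖ + ‖H a S n‖ := by
      rw [norm_mul, Complex.norm_I, one_mul]
      exact norm_sub_le _ _
    have h9 := mul_le_mul_of_nonneg_left h8 (Real.sqrt_nonneg (dd n))
    rw [mul_add] at h9
    linarith
  have hmv := (convex_Icc (0 : ℝ) σ).norm_image_sub_le_of_norm_hasDerivWithin_le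
    (f := fun a => ((Real.sqrt (dd n) : ℝ) : ℂ) * F a S n)
    (f' := fun a => ((Real.sqrt (dd n) : ℝ) : ℂ) *
      (Complex.I * (rhs (mu T a) S (F a S) n - H a S n)))
    (C := (T * Real.exp (-S) * dd n + n) * Real.sqrt (yE M g) +
          2 * (1 + T) * Real.sqrt (hE M g))
    (fun a _ => ((hder a).const_mul _).hasDerivWithinAt)
    (fun a ha => by
      rw [norm_mul, Complex.norm_real, Real.norm_of_nonneg (Real.sqrt_nonneg _)]
      exact hB a ha)
    (Set.right_mem_Icc.2 hσ) (Set.left_mem_Icc.2 hσ)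
  rw [← mul_sub, norm_mul, Complex.norm_real, Real.norm_of_nonneg (Real.sqrt_nonneg _)] at hmv
  refine hmv.trans (le_of_eq ?_)
  rw [zero_sub, norm_neg, Real.norm_of_nonneg hσ]
  ring

end Pool.Agent.Lib.MPb879.Lin
end
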