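import Pool.Agent.Lib.MP_b879c5_an.Lin.SpecA

section
/-!
# MP_b879c5_an, module PDF: derivative in the parameter `σ`
-/
set_option autoImplicit false

namespace Pool.Agent.Lib.MPb879.Lin

open Set Filter Finset
open scoped Topology ContDiff

namespace PDFM

theorem norm_mu (T σ : ℝ) : ‖mu T σ‖ = |T| := by
  unfold mu
  rw [norm_mul, Complex.norm_real, Real.norm_eq_abs]
  have h1 : -((σ : ℂ) * Complex.I) = ((-σ : ℝ) : ℂ) * Complex.I := by
    push_cast
    ring
  rw [h1, Complex.norm_exp_ofReal_mul_I, mul_one]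

theorem mu_add (T σ h : ℝ) :
    mu T (σ + h) = mu T σ * Complex.exp (-((h : ℂ) * Complex.I)) := by
  unfold mu
  rw [mul_assoc, ← Complex.exp_add]
  congr 2
  push_cast
  ring

theorem norm_hI (h : ℝ) : ‖-((h : ℂ) * Complex.I)‖ = |h| := by
  rw [norm_neg, norm_mul, Complex.norm_real, Complex.norm_I, mul_one, Real.norm_eq_abs]

theorem mu_diff (T σ h : ℝ) (hh : |h| ≤ 1) : ‖mu T (σ + h) - mu T σ‖ ≤ 2 * |T| * |h| := by
  have h1 : mu T (σ + h) - mu T σ = mu T σ * (Complex.exp (-((h : ℂ) * Complex.I)) - 1) := by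
    rw [mu_add]
    ring
  rw [h1, norm_mul, norm_mu]
  have h2 := Complex.norm_exp_sub_one_le (x := -((h : ℂ) * Complex.I)) (by rw [norm_hI]; exact hh)
  rw [norm_hI] at h2
  calc |T| * ‖Complex.exp (-((h : ℂ) * Complex.I)) - 1‖ ≤ |T| * (2 * |h|) :=
        mul_le_mul_of_nonneg_left h2 (abs_nonneg T)
    _ = _ := by ring

theorem mu_diff2 (T σ h : ℝ) (hh : |h| ≤ 1) :
    ‖-Complex.I * (mu T (σ + h) - mu T σ) + h * mu T σ‖ ≤ |T| * h ^ 2 := by
  have h1 : -Complex.I * (mu T (σ + h) - mu T σ) + h * mu T σ =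
      -Complex.I * mu T σ *
        (Complex.exp (-((h : ℂ) * Complex.I)) - 1 - (-((h : ℂ) * Complex.I))) := by
    rw [mu_add]
    linear_combination (h * mu T σ) * Complex.I_sq
  rw [h1, norm_mul, norm_mul, norm_neg, Complex.norm_I, one_mul, norm_mu]
  have h2 := Complex.norm_exp_sub_one_sub_id_le (x := -((h : ℂ) * Complex.I))
    (by rw [norm_hI]; exact hh)
  rw [norm_hI, sq_abs] at h2
  exact mul_le_mul_of_nonneg_left h2 (abs_nonneg T)

theorem dd_nonneg (n : ℕ) (hn : 2 ≤ n) : 0 ≤ dd n := by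
  unfold dd
  have h1 : (2 : ℝ) ≤ n := by exact_mod_cast hn
  nlinarith [mul_nonneg (by linarith : (0 : ℝ) ≤ n) (by nlinarith : (0 : ℝ) ≤ (n : ℝ) ^ 2 - 1)]

theorem dd_le (n M : ℕ) (hn : 2 ≤ n) (hM : n ≤ M) : dd n ≤ (M : ℝ) ^ 3 := by
  unfold dd
  have h1 : (2 : ℝ) ≤ n := by exact_mod_cast hn
  have h2 : (n : ℝ) ≤ M := by exact_mod_cast hM
  have h3 : (n : ℝ) ^ 3 ≤ (M : ℝ) ^ 3 := pow_le_pow_left₀ (by linarith) h2 3
  linarith

theorem ed_le {s : ℝ} (hs : 0 ≤ s) (n M : ℕ) (hn : 2 ≤ n) (hM : n ≤ M) :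
    ‖((Real.exp (-s) * dd n : ℝ) : ℂ)‖ ≤ (M : ℝ) ^ 3 := by
  rw [Complex.norm_real, Real.norm_eq_abs, abs_of_nonneg
    (mul_nonneg (Real.exp_pos _).le (dd_nonneg n hn))]
  have h1 : Real.exp (-s) ≤ 1 := Real.exp_le_one_iff.2 (by linarith)
  calc Real.exp (-s) * dd n ≤ 1 * dd n := mul_le_mul_of_nonneg_right h1 (dd_nonneg n hn)
    _ = dd n := one_mul _
    _ ≤ _ := dd_le n M hn hM

theorem rhs_bound (μ : ℂ) {s N : ℝ} (g : ℕ → ℂ) (n M : ℕ) (hs : 0 ≤ s) (hn : 2 ≤ n)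
    (hM : n ≤ M) (hN : ∀ m, ‖g m‖ ≤ N) :
    ‖rhs μ s g n‖ ≤ (‖μ‖ * (M : ℝ) ^ 3 + M) * N := by
  have hN0 : 0 ≤ N := (norm_nonneg _).trans (hN 0)
  have h1 : (2 : ℝ) ≤ n := by exact_mod_cast hn
  have h2 : (n : ℝ) ≤ M := by exact_mod_cast hM
  unfold rhs
  have h3 : ‖-(Complex.I * μ * ((Real.exp (-s) * dd n : ℝ) : ℂ)) * g n‖ ≤
      ‖μ‖ * (M : ℝ) ^ 3 * N := by
    rw [norm_mul, norm_neg, norm_mul, norm_mul, Complex.norm_I, one_mul]
    exact mul_le_mul (mul_le_mul_of_nonneg_left (ed_le hs n M hn hM) (norm_nonneg _)) (hN n)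
      (norm_nonneg _) (by positivity)
  have h4 : ‖(((n : ℂ) + 2) * g (n + 1) - ((n : ℂ) - 2) * g (n - 1)) / 2‖ ≤ M * N := by
    rw [norm_div]
    have h5 : ‖(2 : ℂ)‖ = 2 := by simp
    rw [h5, div_le_iff₀ (by norm_num)]
    have h6 : ‖(n : ℂ) + 2‖ = n + 2 := by
      have : ((n : ℂ) + 2) = (((n : ℝ) + 2 : ℝ) : ℂ) := by push_cast; ring
      rw [this, Complex.norm_real, Real.norm_eq_abs, abs_of_nonneg (by linarith)]
    have h7 : ‖(n : ℂ) - 2‖ = n - 2 := by
      have : ((n : ℂ) - 2) = (((n : ℝ) - 2 : ℝ) : ℂ) := by push_cast; ring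
      rw [this, Complex.norm_real, Real.norm_eq_abs, abs_of_nonneg (by linarith)]
    calc ‖((n : ℂ) + 2) * g (n + 1) - ((n : ℂ) - 2) * g (n - 1)‖
        ≤ ‖((n : ℂ) + 2) * g (n + 1)‖ + ‖((n : ℂ) - 2) * g (n - 1)‖ := norm_sub_le _ _
      _ = (n + 2) * ‖g (n + 1)‖ + (n - 2) * ‖g (n - 1)‖ := by
          rw [norm_mul, norm_mul, h6, h7]
      _ ≤ (n + 2) * N + (n - 2) * N := by
          refine add_le_add (mul_le_mul_of_nonneg_left (hN _) (by linarith))
            (mul_le_mul_of_nonneg_left (hN _) (by linarith))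
      _ = 2 * n * N := by ring
      _ ≤ 2 * M * N := by
          refine mul_le_mul_of_nonneg_right ?_ hN0
          linarith
      _ = M * N * 2 := by ring
  calc _ ≤ _ := norm_add_le _ _
    _ ≤ ‖μ‖ * (M : ℝ) ^ 3 * N + M * N := add_le_add h3 h4
    _ = _ := by ring

/-- the vector of the modes `≤ M` -/
def vec (M : ℕ) (g : ℕ → ℂ) : Fin (M + 1) → ℂ := fun i => g i

theorem le_vec {M : ℕ} {g : ℕ → ℂ} (hg : Supp M g) (m : ℕ) : ‖g m‖ ≤ ‖vec M g‖ := by
  rcases Nat.lt_or_ge M m with h | h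
  · rw [hg m (Or.inr h), norm_zero]
    exact norm_nonneg _
  · exact norm_le_pi_norm (vec M g) ⟨m, by omega⟩

/-- derivatives of all modes of a supported function -/
theorem der_all {M : ℕ} {s : ℝ} {g : ℝ → ℕ → ℂ} {g' : ℕ → ℂ} (hg : ∀ r, Supp M (g r))
    (hg' : Supp M g') (h : ∀ n ∈ Finset.Icc 2 M, HasDerivAt (fun r => g r n) (g' n) s) (m : ℕ) :
    HasDerivAt (fun r => g r m) (g' m) s := by
  by_cases hm : m ∈ Finset.Icc 2 M
  · exact h m hm
  · have h1 : m < 2 ∨ M < m := by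
      rw [Finset.mem_Icc] at hm
      omega
    have h2 : (fun r => g r m) = fun _ => (0 : ℂ) := funext fun r => hg r m h1
    rw [h2, hg' m h1]
    exact hasDerivAt_const s 0

/-- truncation -/
noncomputable def tr (M : ℕ) (g : ℕ → ℂ) (n : ℕ) : ℂ := if n ∈ Finset.Icc 2 M then g n else 0

theorem tr_supp (M : ℕ) (g : ℕ → ℂ) : Supp M (tr M g) := by
  intro n hn
  unfold tr
  rw [if_neg]
  rw [Finset.mem_Icc]
  omega

theorem tr_mem {M : ℕ} {g : ℕ → ℂ} {n : ℕ} (hn : n ∈ Finset.Icc 2 M) : tr M g n = g n := if_pos hn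

/-- derivative of the right-hand side -/
theorem der_rhs {M : ℕ} {μ : ℂ} {f : ℝ → ℕ → ℂ} (hf : Gal M μ f) {s : ℝ} (hs : 0 ≤ s) (n : ℕ) :
    HasDerivAt (fun r => rhs μ r (f r) n)
      (Complex.I * μ * ((Real.exp (-s) * dd n : ℝ) : ℂ) * f s n +
        rhs μ s (tr M (rhs μ s (f s))) n) s := by
  have hall : ∀ m, HasDerivAt (fun r => f r m) (tr M (rhs μ s (f s)) m) s :=
    der_all hf.supp (tr_supp M _) (fun m hm => by
      rw [tr_mem hm]
      exact hf.der s hs m hm)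
  have he : HasDerivAt (fun r : ℝ => ((Real.exp (-r) * dd n : ℝ) : ℂ))
      ((-(Real.exp (-s) * dd n) : ℝ) : ℂ) s := by
    refine HasDerivAt.ofReal_comp ?_
    have h1 : HasDerivAt (fun r : ℝ => Real.exp (-r)) (Real.exp (-s) * (-1)) s :=
      (hasDerivAt_neg s).exp
    convert! h1.mul_const (dd n) using 1
    ring
  generalize tr M (rhs μ s (f s)) = g' at hall ⊢
  have h1 := ((he.const_mul (Complex.I * μ)).neg.mul (hall n)).add
    ((((hall (n + 1)).const_mul ((n : ℂ) + 2)).sub ((hall (n - 1)).const_mul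
      ((n : ℂ) - 2))).div_const 2)
  unfold rhs
  convert! h1 using 1
  simp only [Pi.neg_apply]
  push_cast
  ring

end PDFM

open PDFM in
theorem specPDF : SpecPDF := by
  intro M T F H hF hH hF0 hH0 S hS n hn σ
  set μ : ℂ := mu T σ with hμ
  set G : ℝ → ℕ → ℂ := fun s => tr M (rhs μ s (F σ s)) with hG
  set Θ : ℝ → ℕ → ℂ := fun s m => Complex.I * (G s m - H σ s m) with hΘ
  have hGsupp : ∀ s, Supp M (G s) := fun s => tr_supp M _
  have hΘsupp : ∀ s, Supp M (Θ s) := by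
    intro s m hm
    rw [hΘ]
    simp only
    rw [hGsupp s m hm, (hH σ).supp s m hm, sub_zero, mul_zero]
  have hΘder : ∀ s, 0 ≤ s → ∀ m ∈ Finset.Icc 2 M, HasDerivAt (fun r => Θ r m)
      (rhs μ s (Θ s) m - μ * ((Real.exp (-s) * dd m : ℝ) : ℂ) * F σ s m) s := by
    intro s hs m hm
    have h1 : HasDerivAt (fun r => G r m)
        (Complex.I * μ * ((Real.exp (-s) * dd m : ℝ) : ℂ) * F σ s m + rhs μ s (G s) m) s := by
      have h2 := der_rhs (hF σ) hs m
      refine h2.congr_of_eventuallyEq ?_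
      exact Filter.Eventually.of_forall fun r => tr_mem hm
    have h2 := (h1.sub ((hH σ).der s hs m hm)).const_mul Complex.I
    convert! h2 using 1
    rw [hΘ]
    unfold rhs
    linear_combination (-(μ * ((Real.exp (-s) * dd m : ℝ) : ℂ) * F σ s m)) * Complex.I_sq
  -- bounds on the compact interval
  have hFd : ∀ a, ∀ s, 0 ≤ s → ∀ m, HasDerivAt (fun r => F a r m)
      (tr M (rhs (mu T a) s (F a s)) m) s := fun a s hs =>
    der_all (hF a).supp (tr_supp M _) (fun m hm => by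
      rw [tr_mem hm]
      exact (hF a).der s hs m hm)
  have hΘd : ∀ s, 0 ≤ s → ∀ m, HasDerivAt (fun r => Θ r m)
      (tr M (fun m => rhs μ s (Θ s) m - μ * ((Real.exp (-s) * dd m : ℝ) : ℂ) * F σ s m) m) s :=
    fun s hs => der_all hΘsupp (tr_supp M _) (fun m hm => by
      rw [tr_mem hm]
      exact hΘder s hs m hm)
  obtain ⟨CF, hCF⟩ : ∃ C, ∀ s ∈ Set.Icc 0 S, ‖vec M (F σ s)‖ ≤ C := by
    refine isCompact_Icc.exists_bound_of_continuousOn ?_
    refine continuousOn_pi.2 fun i s hs => ?_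
    exact (hFd σ s hs.1 i).continuousAt.continuousWithinAt
  obtain ⟨CT, hCT⟩ : ∃ C, ∀ s ∈ Set.Icc 0 S, ‖vec M (Θ s)‖ ≤ C := by
    refine isCompact_Icc.exists_bound_of_continuousOn ?_
    refine continuousOn_pi.2 fun i s hs => ?_
    exact (hΘd s hs.1 i).continuousAt.continuousWithinAt
  have hCF0 : 0 ≤ CF := (norm_nonneg _).trans (hCF 0 ⟨le_rfl, hS⟩)
  have hCT0 : 0 ≤ CT := (norm_nonneg _).trans (hCT 0 ⟨le_rfl, hS⟩)
  set K : ℝ := |T| * (M : ℝ) ^ 3 + M + 1 with hK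
  have hK0 : 0 < K := by positivity
  set C1 : ℝ := (M : ℝ) ^ 3 * (|T| * CF + 2 * |T| * CT) with hC1
  have hC10 : 0 ≤ C1 := by positivity
  -- the main estimate
  have hmain : ∀ h : ℝ, |h| ≤ 1 →
      ‖F (σ + h) S n - F σ S n - (h : ℂ) * Θ S n‖ ≤ C1 / K * (Real.exp (K * S) - 1) * h ^ 2 := by
    intro h hh
    set μ' : ℂ := mu T (σ + h) with hμ'
    set δ : ℝ → ℕ → ℂ := fun s m => F (σ + h) s m - F σ s m - (h : ℂ) * Θ s m with hδ
    have hδsupp : ∀ s, Supp M (δ s) := by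
      intro s m hm
      rw [hδ]
      simp only
      rw [(hF (σ + h)).supp s m hm, (hF σ).supp s m hm, hΘsupp s m hm, sub_zero, mul_zero,
        sub_zero]
    set E : ℝ → ℕ → ℂ := fun s m => rhs μ' s (δ s) m + ((Real.exp (-s) * dd m : ℝ) : ℂ) *
      ((-Complex.I * (μ' - μ) + h * μ) * F σ s m - Complex.I * (μ' - μ) * h * Θ s m) with hE
    have hδder : ∀ s, 0 ≤ s → ∀ m, HasDerivAt (fun r => δ r m) (tr M (E s) m) s := by
      intro s hs
      refine der_all hδsupp (tr_supp M _) (fun m hm => ?_)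
      rw [tr_mem hm]
      have h1 := (((hF (σ + h)).der s hs m hm).sub ((hF σ).der s hs m hm)).sub
        ((hΘder s hs m hm).const_mul (h : ℂ))
      convert! h1 using 1
      rw [hE, hδ]
      unfold rhs
      simp only
      ring
    have hg := norm_le_gronwallBound_of_norm_deriv_right_le (f := fun s => vec M (δ s))
      (f' := fun s => vec M (tr M (E s))) (δ := 0) (K := K) (ε := C1 * h ^ 2) (a := 0) (b := S)
      (continuousOn_pi.2 fun i s hs => (hδder s hs.1 i).continuousAt.continuousWithinAt)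
      (fun s hs => (show HasDerivAt (fun s => vec M (δ s)) (vec M (tr M (E s))) s from
        hasDerivAt_pi.2 fun i => hδder s hs.1 i).hasDerivWithinAt)
      (by
        have h1 : vec M (δ 0) = 0 := by
          funext i
          show δ 0 i = 0
          by_cases hi : (i : ℕ) ∈ Finset.Icc 2 M
          · rw [hδ, hΘ, hG]
            simp only
            rw [tr_mem hi, hH0 σ i hi, hF0 (σ + h) σ, ← hμ]
            ring
          · refine hδsupp 0 i ?_
            rw [Finset.mem_Icc] at hi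
            omega
        rw [h1, norm_zero])
      (by
        intro s hs
        have hs' : s ∈ Set.Icc 0 S := ⟨hs.1, hs.2.le⟩
        rw [pi_norm_le_iff_of_nonneg (by positivity)]
        intro i
        show ‖tr M (E s) i‖ ≤ _
        by_cases hi : (i : ℕ) ∈ Finset.Icc 2 M
        swap
        · have h0 : tr M (E s) i = 0 := if_neg hi
          rw [h0, norm_zero]
          positivity
        rw [tr_mem hi]
        have hi' := Finset.mem_Icc.1 hi
        have h1 := rhs_bound μ' (δ s) i M hs.1 hi'.1 hi'.2 (le_vec (hδsupp s))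
        have h2 := ed_le hs.1 i M hi'.1 hi'.2
        have h3 : ‖F σ s i‖ ≤ CF := (le_vec ((hF σ).supp s) i).trans (hCF s hs')
        have h4 : ‖Θ s i‖ ≤ CT := (le_vec (hΘsupp s) i).trans (hCT s hs')
        have h5 := mu_diff2 T σ h hh
        have h6 := mu_diff T σ h hh
        rw [← hμ, ← hμ'] at h5 h6
        have h7 : ‖(-Complex.I * (μ' - μ) + h * μ) * F σ s i -
            Complex.I * (μ' - μ) * h * Θ s i‖ ≤ |T| * h ^ 2 * CF + 2 * |T| * h ^ 2 * CT := by
          refine (norm_sub_le _ _).trans (add_le_add ?_ ?_)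
          · rw [norm_mul]
            exact mul_le_mul h5 h3 (norm_nonneg _) (by positivity)
          · rw [norm_mul, norm_mul, norm_mul, Complex.norm_I, one_mul, Complex.norm_real,
              Real.norm_eq_abs]
            refine mul_le_mul ?_ h4 (norm_nonneg _) (by positivity)
            calc ‖μ' - μ‖ * |h| ≤ 2 * |T| * |h| * |h| :=
                  mul_le_mul_of_nonneg_right h6 (abs_nonneg h)
              _ = 2 * |T| * h ^ 2 := by rw [mul_assoc, ← sq, sq_abs]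
        have h8 : ‖μ'‖ = |T| := norm_mu T _
        rw [h8] at h1
        rw [hE]
        simp only
        refine (norm_add_le _ _).trans ?_
        rw [norm_mul]
        calc _ ≤ (|T| * (M : ℝ) ^ 3 + M) * ‖vec M (δ s)‖ +
              (M : ℝ) ^ 3 * (|T| * h ^ 2 * CF + 2 * |T| * h ^ 2 * CT) :=
              add_le_add h1 (mul_le_mul h2 h7 (norm_nonneg _) (by positivity))
          _ ≤ K * ‖vec M (δ s)‖ + C1 * h ^ 2 := by
              refine add_le_add (mul_le_mul_of_nonneg_right (by rw [hK]; linarith)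
                (norm_nonneg _)) (le_of_eq ?_)
              rw [hC1]
              ring) S ⟨hS, le_rfl⟩
    have h9 : ‖δ S n‖ ≤ ‖vec M (δ S)‖ := le_vec (hδsupp S) n
    refine (h9.trans hg).trans (le_of_eq ?_)
    rw [gronwallBound_of_K_ne_0 hK0.ne', sub_zero]
    ring
  -- conclusion
  have hΘn : Complex.I * (rhs μ S (F σ S) n - H σ S n) = Θ S n := by
    rw [hΘ, hG]
    simp only
    rw [tr_mem hn]
  rw [hΘn, hasDerivAt_iff_isLittleO_nhds_zero]
  refine Asymptotics.IsBigO.trans_isLittleO (g := fun h : ℝ => h ^ 2) ?_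
    (Asymptotics.isLittleO_pow_id (by norm_num))
  refine Asymptotics.IsBigO.of_bound (C1 / K * (Real.exp (K * S) - 1)) ?_
  have hev : ∀ᶠ h : ℝ in 𝓝 0, |h| ≤ 1 := by
    have h1 : Metric.closedBall (0 : ℝ) 1 ∈ 𝓝 (0 : ℝ) := Metric.closedBall_mem_nhds 0 one_pos
    filter_upwards [h1] with h hh
    rwa [Metric.mem_closedBall, Real.dist_eq, sub_zero] at hh
  filter_upwards [hev] with h hh
  have h1 := hmain h hh
  rw [Real.norm_eq_abs, abs_of_nonneg (sq_nonneg h)]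
  rw [Complex.real_smul]
  exact h1

end Pool.Agent.Lib.MPb879.Lin
end

section
set_option autoImplicit false

namespace Pool.Agent.Lib.MPb879.Lin

open Finset

namespace PRHM

lemma dd_nonneg (n : ℕ) : 0 ≤ dd n := by
  unfold dd
  rcases Nat.eq_zero_or_pos n with h | h
  · subst h; simp
  · have h1 : (1 : ℝ) ≤ n := by exact_mod_cast h
    nlinarith [mul_nonneg (by linarith : (0:ℝ) ≤ n) (by nlinarith : (0:ℝ) ≤ (n:ℝ)^2 - 1)]

lemma term_le (M : ℕ) (f : ℕ → ℂ) (h : Supp M f) (m : ℕ) :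
    dd m * ‖f m‖ ^ 2 ≤ yE M f := by
  by_cases hm : m ∈ Icc 2 M
  · exact Finset.single_le_sum (f := fun n => dd n * ‖f n‖ ^ 2)
      (fun i _ => mul_nonneg (dd_nonneg i) (sq_nonneg _)) hm
  · have : f m = 0 := by
      apply h
      simp only [Finset.mem_Icc, not_and_or, not_le] at hm
      exact hm
    rw [this]
    simp only [norm_zero, ne_eq, OfNat.ofNat_ne_zero, not_false_eq_true, zero_pow, mul_zero]
    exact Finset.sum_nonneg (fun i _ => mul_nonneg (dd_nonneg i) (sq_nonneg _))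

lemma sqrt_term_le (M : ℕ) (f : ℕ → ℂ) (h : Supp M f) (m : ℕ) :
    Real.sqrt (dd m) * ‖f m‖ ≤ Real.sqrt (yE M f) := by
  apply Real.le_sqrt_of_sq_le
  rw [mul_pow, Real.sq_sqrt (dd_nonneg m)]
  exact term_le M f h m

lemma sqrt_up (n : ℕ) (hn : 2 ≤ n) :
    Real.sqrt (dd n) * ((n : ℝ) + 2) ≤ ((n : ℝ) + 1 / 2) * Real.sqrt (dd (n + 1)) := by
  have h2 : (2 : ℝ) ≤ n := by exact_mod_cast hn
  have e : ((n : ℝ) + 1 / 2) = Real.sqrt (((n : ℝ) + 1 / 2) ^ 2) :=
    (Real.sqrt_sq (by linarith)).symm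
  have e2 : ((n : ℝ) + 2) = Real.sqrt (((n : ℝ) + 2) ^ 2) :=
    (Real.sqrt_sq (by linarith)).symm
  rw [e, e2, ← Real.sqrt_mul (dd_nonneg n), ← Real.sqrt_mul (sq_nonneg _)]
  apply Real.sqrt_le_sqrt
  have h3 : dd n * ((n : ℝ) + 2) ^ 2 = (((n : ℝ) - 1) * (n + 2)) * dd (n + 1) := by
    unfold dd; push_cast; ring
  rw [h3]
  apply mul_le_mul_of_nonneg_right _ (dd_nonneg _)
  nlinarith

lemma sqrt_down (n : ℕ) (hn : 2 ≤ n) :
    Real.sqrt (dd n) * ((n : ℝ) - 2) ≤ ((n : ℝ) - 1 / 2) * Real.sqrt (dd (n - 1)) := by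
  obtain ⟨m, rfl⟩ : ∃ m, n = m + 1 := ⟨n - 1, by omega⟩
  have h2 : (1 : ℝ) ≤ m := by exact_mod_cast (by omega : 1 ≤ m)
  simp only [Nat.add_sub_cancel]
  push_cast
  have e : ((m : ℝ) + 1 - 1 / 2) = Real.sqrt (((m : ℝ) + 1 - 1 / 2) ^ 2) :=
    (Real.sqrt_sq (by linarith)).symm
  have e2 : ((m : ℝ) + 1 - 2) = Real.sqrt (((m : ℝ) + 1 - 2) ^ 2) :=
    (Real.sqrt_sq (by linarith)).symm
  rw [e, e2, ← Real.sqrt_mul (dd_nonneg _), ← Real.sqrt_mul (sq_nonneg _)]
  apply Real.sqrt_le_sqrt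
  have h3 : dd (m + 1) * ((m : ℝ) + 1 - 2) ^ 2 = (((m : ℝ) - 1) * (m + 2)) * dd m := by
    unfold dd; push_cast; ring
  rw [h3]
  apply mul_le_mul_of_nonneg_right _ (dd_nonneg _)
  nlinarith

lemma norm_tr (f : ℕ → ℂ) (n : ℕ) (hn : 2 ≤ n) :
    ‖(((n : ℂ) + 2) * f (n + 1) - ((n : ℂ) - 2) * f (n - 1)) / 2‖ ≤
      (((n : ℝ) + 2) * ‖f (n + 1)‖ + ((n : ℝ) - 2) * ‖f (n - 1)‖) / 2 := by
  have h2 : (2 : ℝ) ≤ n := by exact_mod_cast hn
  have e1 : ‖((n : ℂ) + 2)‖ = (n : ℝ) + 2 := by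
    have : ((n : ℂ) + 2) = (((n : ℝ) + 2 : ℝ) : ℂ) := by push_cast; ring
    rw [this, Complex.norm_real, Real.norm_eq_abs, abs_of_nonneg (by linarith)]
  have e2 : ‖((n : ℂ) - 2)‖ = (n : ℝ) - 2 := by
    have : ((n : ℂ) - 2) = (((n : ℝ) - 2 : ℝ) : ℂ) := by push_cast; ring
    rw [this, Complex.norm_real, Real.norm_eq_abs, abs_of_nonneg (by linarith)]
  rw [norm_div]
  have e3 : ‖(2 : ℂ)‖ = 2 := by norm_num
  rw [e3]
  apply div_le_div_of_nonneg_right _ (by norm_num)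
  refine (norm_sub_le _ _).trans ?_
  rw [norm_mul, norm_mul, e1, e2]

lemma norm_dp (μ : ℂ) (s : ℝ) (f : ℕ → ℂ) (n : ℕ) :
    ‖-(Complex.I * μ * ((Real.exp (-s) * dd n : ℝ) : ℂ)) * f n‖ =
      ‖μ‖ * (Real.exp (-s) * dd n) * ‖f n‖ := by
  rw [norm_mul, norm_neg, norm_mul, norm_mul, Complex.norm_I, one_mul, Complex.norm_real,
    Real.norm_eq_abs, abs_of_nonneg (mul_nonneg (Real.exp_pos _).le (dd_nonneg n))]

lemma part1 (M : ℕ) (μ : ℂ) (s : ℝ) (f : ℕ → ℂ) (h : Supp M f) (n : ℕ) (hn : 2 ≤ n) :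
    Real.sqrt (dd n) * ‖rhs μ s f n‖ ≤
      (‖μ‖ * Real.exp (-s) * dd n + n) * Real.sqrt (yE M f) := by
  have h2 : (2 : ℝ) ≤ n := by exact_mod_cast hn
  set Y := Real.sqrt (yE M f) with hY
  have hY0 : 0 ≤ Y := Real.sqrt_nonneg _
  have hs0 := Real.sqrt_nonneg (dd n)
  have t1 : ‖rhs μ s f n‖ ≤ ‖μ‖ * (Real.exp (-s) * dd n) * ‖f n‖ +
      (((n : ℝ) + 2) * ‖f (n + 1)‖ + ((n : ℝ) - 2) * ‖f (n - 1)‖) / 2 := by
    unfold rhs
    refine (norm_add_le _ _).trans ?_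
    rw [norm_dp]
    exact add_le_add le_rfl (norm_tr f n hn)
  have a1 : Real.sqrt (dd n) * ‖f n‖ ≤ Y := sqrt_term_le M f h n
  have a2 : Real.sqrt (dd n) * ((n : ℝ) + 2) * ‖f (n + 1)‖ ≤ ((n : ℝ) + 1 / 2) * Y := by
    calc Real.sqrt (dd n) * ((n : ℝ) + 2) * ‖f (n + 1)‖
        ≤ (((n : ℝ) + 1 / 2) * Real.sqrt (dd (n + 1))) * ‖f (n + 1)‖ :=
          mul_le_mul_of_nonneg_right (sqrt_up n hn) (norm_nonneg _)
      _ = ((n : ℝ) + 1 / 2) * (Real.sqrt (dd (n + 1)) * ‖f (n + 1)‖) := by ring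
      _ ≤ ((n : ℝ) + 1 / 2) * Y :=
          mul_le_mul_of_nonneg_left (sqrt_term_le M f h _) (by linarith)
  have a3 : Real.sqrt (dd n) * ((n : ℝ) - 2) * ‖f (n - 1)‖ ≤ ((n : ℝ) - 1 / 2) * Y := by
    calc Real.sqrt (dd n) * ((n : ℝ) - 2) * ‖f (n - 1)‖
        ≤ (((n : ℝ) - 1 / 2) * Real.sqrt (dd (n - 1))) * ‖f (n - 1)‖ :=
          mul_le_mul_of_nonneg_right (sqrt_down n hn) (norm_nonneg _)
      _ = ((n : ℝ) - 1 / 2) * (Real.sqrt (dd (n - 1)) * ‖f (n - 1)‖) := by ring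
      _ ≤ ((n : ℝ) - 1 / 2) * Y :=
          mul_le_mul_of_nonneg_left (sqrt_term_le M f h _) (by linarith)
  have b0 : 0 ≤ ‖μ‖ * (Real.exp (-s) * dd n) :=
    mul_nonneg (norm_nonneg _) (mul_nonneg (Real.exp_pos _).le (dd_nonneg n))
  calc Real.sqrt (dd n) * ‖rhs μ s f n‖
      ≤ Real.sqrt (dd n) * (‖μ‖ * (Real.exp (-s) * dd n) * ‖f n‖ +
        (((n : ℝ) + 2) * ‖f (n + 1)‖ + ((n : ℝ) - 2) * ‖f (n - 1)‖) / 2) :=
        mul_le_mul_of_nonneg_left t1 hs0
    _ = ‖μ‖ * (Real.exp (-s) * dd n) * (Real.sqrt (dd n) * ‖f n‖) +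
        (Real.sqrt (dd n) * ((n : ℝ) + 2) * ‖f (n + 1)‖ +
          Real.sqrt (dd n) * ((n : ℝ) - 2) * ‖f (n - 1)‖) / 2 := by ring
    _ ≤ ‖μ‖ * (Real.exp (-s) * dd n) * Y +
        (((n : ℝ) + 1 / 2) * Y + ((n : ℝ) - 1 / 2) * Y) / 2 := by
        have := mul_le_mul_of_nonneg_left a1 b0
        linarith
    _ = (‖μ‖ * Real.exp (-s) * dd n + n) * Y := by ring

lemma sum_up (G : ℕ → ℝ) (M : ℕ) (hM : 1 ≤ M) :
    (∑ n ∈ Icc 2 M, G (n + 1)) + G 2 = (∑ n ∈ Icc 2 M, G n) + G (M + 1) := by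
  induction M with
  | zero => omega
  | succ m ih =>
    rcases Nat.eq_zero_or_pos m with hm | hm
    · subst hm; simp
    · rw [Finset.sum_Icc_succ_top (by omega), Finset.sum_Icc_succ_top (by omega)]
      have := ih hm
      linarith

lemma sum_down (G : ℕ → ℝ) (M : ℕ) (hM : 1 ≤ M) :
    (∑ n ∈ Icc 2 M, G (n - 1)) + G M = (∑ n ∈ Icc 2 M, G n) + G 1 := by
  induction M with
  | zero => omega
  | succ m ih =>
    rcases Nat.eq_zero_or_pos m with hm | hm
    · subst hm; simp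
    · rw [Finset.sum_Icc_succ_top (by omega), Finset.sum_Icc_succ_top (by omega)]
      have := ih hm
      simp only [Nat.add_sub_cancel]
      linarith

lemma part2 (M : ℕ) (μ : ℂ) (f : ℕ → ℂ) (h : Supp M f) :
    yE M (rhs μ 0 f) ≤ 2 * (1 + ‖μ‖ ^ 2) * hE M f := by
  rcases Nat.lt_or_ge M 1 with hM | hM
  · have : M = 0 := by omega
    subst this
    simp [yE, hE]
  -- the two shifted weights
  let G1 : ℕ → ℝ := fun m => ((m : ℝ) - 2) * (m + 1) * dd m * ‖f m‖ ^ 2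
  let G2 : ℕ → ℝ := fun m => ((m : ℝ) + 2) * (m - 1) * dd m * ‖f m‖ ^ 2
  have hG1M : G1 (M + 1) = 0 := by
    have : f (M + 1) = 0 := h _ (Or.inr (by omega))
    simp [G1, this]
  have hG12 : G1 2 = 0 := by simp [G1]
  have hG21 : G2 1 = 0 := by simp [G2]
  have hG2M : 0 ≤ G2 M := by
    have h1 : (1 : ℝ) ≤ M := by exact_mod_cast hM
    have := dd_nonneg M
    simp only [G2]
    have h3 : 0 ≤ ((M : ℝ) + 2) * (M - 1) := mul_nonneg (by linarith) (by linarith)
    positivity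
  have s1 := sum_up G1 M hM
  have s2 := sum_down G2 M hM
  have key : ∀ n ∈ Icc 2 M, dd n * ‖rhs μ 0 f n‖ ^ 2 ≤
      2 * ‖μ‖ ^ 2 * (dd n ^ 3 * ‖f n‖ ^ 2) + (G1 (n + 1) + G2 (n - 1)) := by
    intro n hn
    have hn2 : 2 ≤ n := (Finset.mem_Icc.mp hn).1
    have h2 : (2 : ℝ) ≤ n := by exact_mod_cast hn2
    have t1 : ‖rhs μ 0 f n‖ ≤ ‖μ‖ * dd n * ‖f n‖ +
        (((n : ℝ) + 2) * ‖f (n + 1)‖ + ((n : ℝ) - 2) * ‖f (n - 1)‖) / 2 := by
      unfold rhs
      refine (norm_add_le _ _).trans ?_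
      rw [norm_dp]
      have := norm_tr f n hn2
      simp only [neg_zero, Real.exp_zero, one_mul]
      exact add_le_add le_rfl this
    set A := ‖μ‖ * dd n * ‖f n‖ with hA
    set B := ((n : ℝ) + 2) * ‖f (n + 1)‖ with hB
    set D := ((n : ℝ) - 2) * ‖f (n - 1)‖ with hD
    have hA0 : 0 ≤ A := by
      have := dd_nonneg n
      positivity
    have hB0 : 0 ≤ B := by positivity
    have hD0 : 0 ≤ D := mul_nonneg (by linarith) (norm_nonneg _)
    have t2 : ‖rhs μ 0 f n‖ ^ 2 ≤ 2 * A ^ 2 + (B ^ 2 + D ^ 2) := by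
      have : ‖rhs μ 0 f n‖ ^ 2 ≤ (A + (B + D) / 2) ^ 2 :=
        pow_le_pow_left₀ (norm_nonneg _) t1 2
      nlinarith [sq_nonneg (A - (B + D) / 2), sq_nonneg (B - D)]
    have e1 : G1 (n + 1) = dd n * B ^ 2 := by
      simp only [G1, hB]
      unfold dd
      push_cast
      ring
    have e2 : G2 (n - 1) = dd n * D ^ 2 := by
      obtain ⟨m, rfl⟩ : ∃ m, n = m + 1 := ⟨n - 1, by omega⟩
      simp only [G2, hD, Nat.add_sub_cancel]
      unfold dd
      push_cast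
      ring
    calc dd n * ‖rhs μ 0 f n‖ ^ 2 ≤ dd n * (2 * A ^ 2 + (B ^ 2 + D ^ 2)) :=
          mul_le_mul_of_nonneg_left t2 (dd_nonneg n)
      _ = 2 * ‖μ‖ ^ 2 * (dd n ^ 3 * ‖f n‖ ^ 2) + (G1 (n + 1) + G2 (n - 1)) := by
          rw [e1, e2, hA]; ring
  have key2 : ∀ n ∈ Icc 2 M, G1 n + G2 n ≤ 2 * (dd n ^ 3 * ‖f n‖ ^ 2) := by
    intro n hn
    have hn2 : 2 ≤ n := (Finset.mem_Icc.mp hn).1
    have h2 : (2 : ℝ) ≤ n := by exact_mod_cast hn2
    have hd := dd_nonneg n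
    have hdn : (n : ℝ) ≤ dd n := by
      unfold dd
      have h5 : 0 ≤ (n : ℝ) * ((n : ℝ) ^ 2 - 2) :=
        mul_nonneg (by linarith) (by nlinarith)
      nlinarith
    have hd2 : (n : ℝ) ^ 2 ≤ dd n ^ 2 := pow_le_pow_left₀ (by linarith) hdn 2
    have e : G1 n + G2 n = 2 * (((n : ℝ) ^ 2 - 2) * (dd n * ‖f n‖ ^ 2)) := by
      simp only [G1, G2]; ring
    rw [e]
    have h4 : ((n : ℝ) ^ 2 - 2) * (dd n * ‖f n‖ ^ 2) ≤ dd n ^ 2 * (dd n * ‖f n‖ ^ 2) :=
      mul_le_mul_of_nonneg_right (by linarith) (mul_nonneg hd (sq_nonneg _))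
    nlinarith
  unfold yE hE
  calc ∑ n ∈ Icc 2 M, dd n * ‖rhs μ 0 f n‖ ^ 2
      ≤ ∑ n ∈ Icc 2 M, (2 * ‖μ‖ ^ 2 * (dd n ^ 3 * ‖f n‖ ^ 2) + (G1 (n + 1) + G2 (n - 1))) :=
        Finset.sum_le_sum key
    _ = 2 * ‖μ‖ ^ 2 * ∑ n ∈ Icc 2 M, dd n ^ 3 * ‖f n‖ ^ 2 +
        (∑ n ∈ Icc 2 M, G1 (n + 1) + ∑ n ∈ Icc 2 M, G2 (n - 1)) := by
        rw [Finset.sum_add_distrib, Finset.sum_add_distrib, Finset.mul_sum]
    _ ≤ 2 * ‖μ‖ ^ 2 * ∑ n ∈ Icc 2 M, dd n ^ 3 * ‖f n‖ ^ 2 +
        (∑ n ∈ Icc 2 M, G1 n + ∑ n ∈ Icc 2 M, G2 n) := by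
        linarith
    _ ≤ 2 * ‖μ‖ ^ 2 * ∑ n ∈ Icc 2 M, dd n ^ 3 * ‖f n‖ ^ 2 +
        2 * ∑ n ∈ Icc 2 M, dd n ^ 3 * ‖f n‖ ^ 2 := by
        rw [← Finset.sum_add_distrib, Finset.mul_sum (s := Icc 2 M) (a := (2:ℝ))]
        exact add_le_add le_rfl (Finset.sum_le_sum key2)
    _ = 2 * (1 + ‖μ‖ ^ 2) * ∑ n ∈ Icc 2 M, dd n ^ 3 * ‖f n‖ ^ 2 := by ring

end PRHM

theorem specPRH : SpecPRH := by
  intro M μ s f h
  exact ⟨fun n hn => PRHM.part1 M μ s f h n (Finset.mem_Icc.mp hn).1, PRHM.part2 M μ f h⟩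

end Pool.Agent.Lib.MPb879.Lin
end

section
/-!
# SUM: summation of the modes
-/
set_option autoImplicit false

namespace Pool.Agent.Lib.MPb879.Lin

open Set Filter Finset
open scoped Topology ContDiff

namespace SUMM

lemma dd_pos {n : ℕ} (hn : 2 ≤ n) : 0 < dd n := by
  have h : (2 : ℝ) ≤ n := by exact_mod_cast hn
  unfold dd
  nlinarith [mul_pos (show (0 : ℝ) < n by linarith) (show (0 : ℝ) < (n : ℝ) - 1 by linarith)]

lemma dd_eq (n : ℕ) : dd n = ((n : ℝ) - 1) * (n * (n + 1)) := by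
  unfold dd; ring

lemma sum_A (m : ℕ) (hm : 1 ≤ m) :
    ∑ n ∈ Finset.Icc 2 m, 1 / Real.sqrt (dd n) ≤ 2 - 2 / Real.sqrt m := by
  induction m, hm using Nat.le_induction with
  | base => simp
  | succ m hm ih =>
    rw [Finset.sum_Icc_succ_top (by omega)]
    have hm1 : (1 : ℝ) ≤ m := by exact_mod_cast hm
    have hsm : 0 < Real.sqrt m := Real.sqrt_pos.2 (by linarith)
    have hsm1 : 0 < Real.sqrt ((m + 1 : ℕ) : ℝ) := Real.sqrt_pos.2 (by push_cast; linarith)
    have hd : 0 < Real.sqrt (dd (m + 1)) := Real.sqrt_pos.2 (dd_pos (by omega))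
    have key : 1 / Real.sqrt (dd (m + 1)) ≤ 2 / Real.sqrt m - 2 / Real.sqrt ((m + 1 : ℕ) : ℝ) := by
      set u := Real.sqrt m with hu
      set v := Real.sqrt ((m + 1 : ℕ) : ℝ) with hv
      have hu2 : u ^ 2 = m := Real.sq_sqrt (by linarith)
      have hv2 : v ^ 2 = m + 1 := by
        rw [hv, Real.sq_sqrt (by positivity)]; push_cast; rfl
      have huv : u ≤ v := Real.sqrt_le_sqrt (by push_cast; linarith)
      have e1 : 2 / u - 2 / v = 2 / (u * v * (u + v)) := by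
        have h1 : v ^ 2 - u ^ 2 = 1 := by rw [hu2, hv2]; ring
        rw [div_sub_div _ _ hsm.ne' hsm1.ne', div_eq_div_iff (by positivity) (by positivity)]
        linear_combination (2 * u * v) * h1
      rw [e1, div_le_div_iff₀ hd (by positivity)]
      have e2 : u * v * (u + v) ≤ 2 * (u * v ^ 2) := by
        nlinarith [mul_nonneg hsm.le (mul_nonneg hsm1.le (sub_nonneg.2 huv))]
      have e3 : u * v ^ 2 ≤ Real.sqrt (dd (m + 1)) := by
        apply Real.le_sqrt_of_sq_le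
        have h4 : (u * v ^ 2) ^ 2 = m * ((m : ℝ) + 1) ^ 2 := by
          rw [mul_pow, hu2, hv2]
        rw [h4, dd_eq]
        push_cast
        nlinarith
      linarith
    linarith

lemma sum_B (m : ℕ) (hm : 1 ≤ m) :
    ∑ n ∈ Finset.Icc 2 m, (n : ℝ) / Real.sqrt (dd n) ≤ 2 * Real.sqrt ((m : ℝ) - 1) := by
  induction m, hm using Nat.le_induction with
  | base => simp
  | succ m hm ih =>
    rw [Finset.sum_Icc_succ_top (by omega)]
    have hm1 : (1 : ℝ) ≤ m := by exact_mod_cast hm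
    have hd : 0 < Real.sqrt (dd (m + 1)) := Real.sqrt_pos.2 (dd_pos (by omega))
    have e0 : ((m + 1 : ℕ) : ℝ) - 1 = m := by push_cast; ring
    rw [e0]
    have key : ((m + 1 : ℕ) : ℝ) / Real.sqrt (dd (m + 1)) ≤
        2 * Real.sqrt m - 2 * Real.sqrt ((m : ℝ) - 1) := by
      set u := Real.sqrt m with hu
      set v := Real.sqrt ((m : ℝ) - 1) with hv
      have hu2 : u ^ 2 = m := Real.sq_sqrt (by linarith)
      have hv2 : v ^ 2 = m - 1 := Real.sq_sqrt (by linarith)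
      have hv0 : 0 ≤ v := Real.sqrt_nonneg _
      have hu0 : 0 < u := Real.sqrt_pos.2 (by linarith)
      have huv : v ≤ u := Real.sqrt_le_sqrt (by linarith)
      have h1 : (u - v) * (u + v) = 1 := by
        have : (u - v) * (u + v) = u ^ 2 - v ^ 2 := by ring
        rw [this, hu2, hv2]; ring
      have h2 : 1 / u ≤ 2 * (u - v) := by
        rw [div_le_iff₀ hu0]
        nlinarith [mul_nonneg (sub_nonneg.2 huv) (sub_nonneg.2 huv)]
      have h3 : ((m + 1 : ℕ) : ℝ) / Real.sqrt (dd (m + 1)) ≤ 1 / u := by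
        rw [div_le_div_iff₀ hd hu0, one_mul]
        apply Real.le_sqrt_of_sq_le
        rw [mul_pow, hu2, dd_eq]
        push_cast
        nlinarith
      linarith
    linarith

lemma sum_D (m : ℕ) :
    ∑ n ∈ Finset.Icc 2 m, Real.sqrt (dd n) ≤ m * Real.sqrt ((m : ℝ) ^ 3) := by
  have h1 : ∀ n ∈ Finset.Icc 2 m, Real.sqrt (dd n) ≤ Real.sqrt ((m : ℝ) ^ 3) := by
    intro n hn
    rw [Finset.mem_Icc] at hn
    apply Real.sqrt_le_sqrt
    unfold dd
    have h2 : (n : ℝ) ≤ m := by exact_mod_cast hn.2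
    have h3 : (n : ℝ) ^ 3 ≤ (m : ℝ) ^ 3 := pow_le_pow_left₀ (by positivity) h2 3
    have h4 : (0 : ℝ) ≤ n := by positivity
    linarith
  refine (Finset.sum_le_card_nsmul _ _ _ h1).trans ?_
  rw [nsmul_eq_mul]
  apply mul_le_mul_of_nonneg_right _ (Real.sqrt_nonneg _)
  have : (Finset.Icc 2 m).card ≤ m := by simp
  exact_mod_cast this

lemma sum_T (K : ℕ) (hK : 1 ≤ K) (L : ℕ) (hL : K ≤ L) :
    ∑ n ∈ Finset.Icc (K + 1) L, 1 / dd n ≤
      (1 / 2) * (1 / ((K : ℝ) * (K + 1)) - 1 / ((L : ℝ) * (L + 1))) := by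
  induction L, hL using Nat.le_induction with
  | base => simp
  | succ L hL ih =>
    rw [Finset.sum_Icc_succ_top (by omega)]
    have hL1 : (1 : ℝ) ≤ L := by exact_mod_cast (hK.trans hL)
    have h1 : 1 / dd (L + 1) = (1 / 2) * (1 / ((L : ℝ) * (L + 1)) -
        1 / (((L + 1 : ℕ) : ℝ) * (((L + 1 : ℕ) : ℝ) + 1))) := by
      rw [dd_eq]
      push_cast
      have h2 : (L : ℝ) ≠ 0 := by linarith
      have h3 : (L : ℝ) + 1 ≠ 0 := by linarith
      have h4 : (L : ℝ) + 1 + 1 ≠ 0 := by linarith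
      have h5 : (L : ℝ) + 1 - 1 ≠ 0 := by
        rw [add_sub_cancel_right]; exact h2
      field_simp
      ring
    rw [h1]
    linarith

end SUMM

open SUMM in
theorem specSUM : SpecSUM := by
  intro C hC
  refine ⟨2 * C + 6, by linarith, ?_⟩
  intro T N S a hT hN hS ha h1 h2 L
  set x := Real.exp (S / 18) with hx
  have hx1 : 1 ≤ x := Real.one_le_exp (by positivity)
  have hx0 : 0 < x := by linarith
  set K := ⌈x⌉₊ with hKdef
  have hKx : x ≤ K := Nat.le_ceil x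
  have hK2 : (K : ℝ) ≤ 2 * x := by
    have := Nat.ceil_lt_add_one hx0.le
    linarith
  have hK1 : 1 ≤ K := by
    have : (0 : ℝ) < K := by linarith
    exact_mod_cast Nat.cast_pos.1 this
  have hK1r : (1 : ℝ) ≤ K := by exact_mod_cast hK1
  have hxe : Real.exp (-(S / 18)) = x⁻¹ := by rw [hx, Real.exp_neg]
  set E := Real.exp (-(S / 18)) with hE
  have hE0 : 0 < E := Real.exp_pos _
  -- the head
  have head : ∑ n ∈ Finset.Icc 2 K, a n ≤ N * (C * (1 + T) * E * 2 + 6 * T * E + 3 * E) := by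
    have b1 : ∀ n ∈ Finset.Icc 2 K, a n ≤ N * (C * (1 + T) * E * (1 / Real.sqrt (dd n)) +
        Real.exp (-(S / 12)) * (T * Real.exp (-S) * Real.sqrt (dd n) + n / Real.sqrt (dd n))) := by
      intro n hn
      rw [Finset.mem_Icc] at hn
      have hd := dd_pos hn.1
      have hq : 0 < Real.sqrt (dd n) := Real.sqrt_pos.2 hd
      have h3 := h1 n hn.1
      have h4 : a n ≤ (N * (C * (1 + T) * E +
        Real.exp (-(S / 12)) * (T * Real.exp (-S) * dd n + n))) / Real.sqrt (dd n) := by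
        rw [le_div_iff₀ hq, mul_comm]
        exact h3
      refine h4.trans (le_of_eq ?_)
      have h5 : dd n / Real.sqrt (dd n) = Real.sqrt (dd n) := Real.div_sqrt
      rw [mul_div_assoc, add_div, mul_div_assoc, mul_div_assoc, add_div, mul_div_assoc (T * _), h5]
      ring
    refine (Finset.sum_le_sum b1).trans ?_
    rw [← Finset.mul_sum, Finset.sum_add_distrib, ← Finset.mul_sum, ← Finset.mul_sum,
      Finset.sum_add_distrib, ← Finset.mul_sum]
    apply mul_le_mul_of_nonneg_left _ hN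
    have hA : ∑ n ∈ Finset.Icc 2 K, 1 / Real.sqrt (dd n) ≤ 2 := by
      have := sum_A K hK1
      have h3 : 0 ≤ 2 / Real.sqrt K := by positivity
      linarith
    have hB : ∑ n ∈ Finset.Icc 2 K, (n : ℝ) / Real.sqrt (dd n) ≤ 2 * Real.sqrt K := by
      refine (sum_B K hK1).trans ?_
      apply mul_le_mul_of_nonneg_left _ (by norm_num)
      exact Real.sqrt_le_sqrt (by linarith)
    have hD := sum_D K
    have t1 : C * (1 + T) * E * ∑ n ∈ Finset.Icc 2 K, 1 / Real.sqrt (dd n) ≤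
        C * (1 + T) * E * 2 := mul_le_mul_of_nonneg_left hA (by positivity)
    have t2 : Real.exp (-(S / 12)) * Real.exp (-S) * (K * Real.sqrt ((K : ℝ) ^ 3)) ≤ 6 * E := by
      apply le_of_sq_le_sq _ (by positivity)
      have e1 : (Real.exp (-(S / 12)) * Real.exp (-S) * (K * Real.sqrt ((K : ℝ) ^ 3))) ^ 2 =
          Real.exp (-(13 * S / 6)) * (K : ℝ) ^ 5 := by
        rw [mul_pow, mul_pow, mul_pow, Real.sq_sqrt (by positivity), ← Real.exp_nat_mul,
          ← Real.exp_nat_mul, ← Real.exp_add]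
        have : (K : ℝ) ^ 2 * (K : ℝ) ^ 3 = (K : ℝ) ^ 5 := by ring
        rw [this]
        congr 2
        push_cast
        ring
      have e2 : (K : ℝ) ^ 5 ≤ 32 * Real.exp (5 * S / 18) := by
        have h3 : (K : ℝ) ^ 5 ≤ (2 * x) ^ 5 := pow_le_pow_left₀ (by positivity) hK2 5
        have h4 : x ^ 5 = Real.exp (5 * S / 18) := by
          rw [hx, ← Real.exp_nat_mul]
          congr 1
          push_cast
          ring
        rw [mul_pow, h4] at h3
        linarith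
      have e3 : (6 * E) ^ 2 = 36 * Real.exp (-(S / 9)) := by
        rw [mul_pow, hE, ← Real.exp_nat_mul]
        have : ((2 : ℕ) : ℝ) * -(S / 18) = -(S / 9) := by push_cast; ring
        rw [this]
        norm_num
      rw [e1, e3]
      calc Real.exp (-(13 * S / 6)) * (K : ℝ) ^ 5 ≤
            Real.exp (-(13 * S / 6)) * (32 * Real.exp (5 * S / 18)) :=
            mul_le_mul_of_nonneg_left e2 (Real.exp_pos _).le
        _ = 32 * Real.exp (-(13 * S / 6) + 5 * S / 18) := by rw [Real.exp_add]; ring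
        _ ≤ 32 * Real.exp (-(S / 9)) := by
          apply mul_le_mul_of_nonneg_left _ (by norm_num)
          apply Real.exp_le_exp.2
          linarith
        _ ≤ _ := by
          have := Real.exp_pos (-(S / 9))
          linarith
    have t3 : Real.exp (-(S / 12)) * (2 * Real.sqrt K) ≤ 3 * E := by
      apply le_of_sq_le_sq _ (by positivity)
      have e1 : (Real.exp (-(S / 12)) * (2 * Real.sqrt K)) ^ 2 = Real.exp (-(S / 6)) * (4 * K) := by
        rw [mul_pow, mul_pow, Real.sq_sqrt (by positivity), ← Real.exp_nat_mul]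
        have : ((2 : ℕ) : ℝ) * -(S / 12) = -(S / 6) := by push_cast; ring
        rw [this]
        norm_num
      have e3 : (3 * E) ^ 2 = 9 * Real.exp (-(S / 9)) := by
        rw [mul_pow, hE, ← Real.exp_nat_mul]
        have : ((2 : ℕ) : ℝ) * -(S / 18) = -(S / 9) := by push_cast; ring
        rw [this]
        norm_num
      rw [e1, e3]
      calc Real.exp (-(S / 6)) * (4 * K) ≤ Real.exp (-(S / 6)) * (8 * Real.exp (S / 18)) := by
            apply mul_le_mul_of_nonneg_left _ (Real.exp_pos _).le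
            linarith
        _ = 8 * Real.exp (-(S / 6) + S / 18) := by rw [Real.exp_add]; ring
        _ = 8 * Real.exp (-(S / 9)) := by
          congr 2
          ring
        _ ≤ _ := by
          have := Real.exp_pos (-(S / 9))
          linarith
    have t4 : Real.exp (-(S / 12)) * (T * Real.exp (-S) * ∑ n ∈ Finset.Icc 2 K, Real.sqrt (dd n) +
        ∑ n ∈ Finset.Icc 2 K, (n : ℝ) / Real.sqrt (dd n)) ≤ 6 * T * E + 3 * E := by
      calc _ ≤ Real.exp (-(S / 12)) * (T * Real.exp (-S) * (K * Real.sqrt ((K : ℝ) ^ 3)) +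
            2 * Real.sqrt K) := by
            apply mul_le_mul_of_nonneg_left _ (Real.exp_pos _).le
            apply add_le_add _ hB
            exact mul_le_mul_of_nonneg_left hD (by positivity)
        _ = T * (Real.exp (-(S / 12)) * Real.exp (-S) * (K * Real.sqrt ((K : ℝ) ^ 3))) +
            Real.exp (-(S / 12)) * (2 * Real.sqrt K) := by ring
        _ ≤ T * (6 * E) + 3 * E := add_le_add (mul_le_mul_of_nonneg_left t2 hT.le) t3
        _ = _ := by ring
    linarith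
  -- the tail
  have tail : ∑ n ∈ Finset.Icc (K + 1) L, a n ≤ N * E := by
    rcases lt_or_ge L K with hLK | hLK
    · have : Finset.Icc (K + 1) L = ∅ := Finset.Icc_eq_empty (by omega)
      rw [this, Finset.sum_empty]
      positivity
    · apply le_of_sq_le_sq _ (by positivity)
      have c1 := Finset.sum_mul_sq_le_sq_mul_sq (Finset.Icc (K + 1) L)
        (fun n => 1 / Real.sqrt (dd n)) (fun n => Real.sqrt (dd n) * a n)
      have c2 : ∑ n ∈ Finset.Icc (K + 1) L, 1 / Real.sqrt (dd n) * (Real.sqrt (dd n) * a n) =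
          ∑ n ∈ Finset.Icc (K + 1) L, a n := by
        refine Finset.sum_congr rfl fun n hn => ?_
        rw [Finset.mem_Icc] at hn
        have hq : 0 < Real.sqrt (dd n) := Real.sqrt_pos.2 (dd_pos (by omega))
        field_simp
      have c3 : ∑ n ∈ Finset.Icc (K + 1) L, (1 / Real.sqrt (dd n)) ^ 2 =
          ∑ n ∈ Finset.Icc (K + 1) L, 1 / dd n := by
        refine Finset.sum_congr rfl fun n hn => ?_
        rw [Finset.mem_Icc] at hn
        rw [div_pow, one_pow, Real.sq_sqrt (dd_pos (by omega)).le]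
      have c4 : ∑ n ∈ Finset.Icc (K + 1) L, (Real.sqrt (dd n) * a n) ^ 2 ≤ N ^ 2 := by
        refine le_trans ?_ (h2 L)
        have c5 : ∑ n ∈ Finset.Icc (K + 1) L, (Real.sqrt (dd n) * a n) ^ 2 =
            ∑ n ∈ Finset.Icc (K + 1) L, dd n * a n ^ 2 := by
          refine Finset.sum_congr rfl fun n hn => ?_
          rw [Finset.mem_Icc] at hn
          rw [mul_pow, Real.sq_sqrt (dd_pos (by omega)).le]
        rw [c5]
        apply Finset.sum_le_sum_of_subset_of_nonneg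
        · exact Finset.Icc_subset_Icc (by omega) le_rfl
        · intro n hn _
          rw [Finset.mem_Icc] at hn
          exact mul_nonneg (dd_pos hn.1).le (sq_nonneg _)
      have c6 : ∑ n ∈ Finset.Icc (K + 1) L, 1 / dd n ≤ E ^ 2 := by
        refine (sum_T K hK1 L hLK).trans ?_
        have d1 : 0 ≤ 1 / ((L : ℝ) * (L + 1)) := by positivity
        have d2 : 1 / ((K : ℝ) * (K + 1)) ≤ E ^ 2 := by
          rw [hxe, inv_pow, ← one_div]
          apply one_div_le_one_div_of_le (by positivity)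
          nlinarith
        have d3 := sq_nonneg E
        linarith
      rw [c2, c3] at c1
      calc _ ≤ _ := c1
        _ ≤ E ^ 2 * N ^ 2 := mul_le_mul c6 c4 (Finset.sum_nonneg fun _ _ => sq_nonneg _)
          (sq_nonneg _)
        _ = _ := by ring
  -- together
  have hsub : Finset.Icc 2 L ⊆ Finset.Icc 2 K ∪ Finset.Icc (K + 1) L := by
    intro n hn
    rw [Finset.mem_Icc] at hn
    rw [Finset.mem_union, Finset.mem_Icc, Finset.mem_Icc]
    omega
  have hdis : Disjoint (Finset.Icc 2 K) (Finset.Icc (K + 1) L) := by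
    rw [Finset.disjoint_left]
    intro n hn hn'
    rw [Finset.mem_Icc] at hn hn'
    omega
  have h5 : ∑ n ∈ Finset.Icc 2 L, a n ≤ ∑ n ∈ Finset.Icc 2 K, a n +
      ∑ n ∈ Finset.Icc (K + 1) L, a n := by
    rw [← Finset.sum_union hdis]
    exact Finset.sum_le_sum_of_subset_of_nonneg hsub fun n _ _ => ha n
  have h6 : 0 ≤ N * E := by positivity
  have h7 : 0 ≤ N * E * T := by positivity
  nlinarith

end Pool.Agent.Lib.MPb879.Lin
end

section
/-!
# MP_b879c5_an, Lin, XDI: the dispersion inequality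
-/
set_option autoImplicit false

namespace Pool.Agent.Lib.MPb879.Lin

open Set Filter Finset
open scoped Topology ContDiff

namespace XDIM

lemma tele (W : ℕ → ℝ) (M : ℕ) (hM : 1 ≤ M) :
    ∑ n ∈ Finset.Icc 2 M, (W n - W (n - 1)) = W M - W 1 := by
  induction M, hM using Nat.le_induction with
  | base => simp
  | succ k hk ih =>
    rw [Finset.sum_Icc_succ_top (by omega), ih]
    simp

lemma mu_re (T σ : ℝ) : (mu T σ).re = T * Real.cos σ := by
  unfold mu
  have h : -((σ : ℂ) * Complex.I) = ((-σ : ℝ) : ℂ) * Complex.I := by push_cast; ring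
  rw [h, Complex.re_ofReal_mul, Complex.exp_ofReal_mul_I_re, Real.cos_neg]

lemma mu_im (T σ : ℝ) : (mu T σ).im = -(T * Real.sin σ) := by
  unfold mu
  have h : -((σ : ℂ) * Complex.I) = ((-σ : ℝ) : ℂ) * Complex.I := by push_cast; ring
  rw [h, Complex.im_ofReal_mul, Complex.exp_ofReal_mul_I_im, Real.sin_neg]
  ring

lemma young (p q c x y u v : ℝ) (hp : 0 < p) (hc : c ^ 2 ≤ 1) :
    c * q * (x * v - y * u) ≤ p / 2 * (u ^ 2 + v ^ 2) + q ^ 2 / (2 * p) * (x ^ 2 + y ^ 2) := by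
  have h1 : p / 2 * (u ^ 2 + v ^ 2) + q ^ 2 / (2 * p) * (x ^ 2 + y ^ 2) -
      c * q * (x * v - y * u) =
      ((p * v - c * q * x) ^ 2 + (p * u + c * q * y) ^ 2 +
        q ^ 2 * (1 - c ^ 2) * (x ^ 2 + y ^ 2)) / (2 * p) := by
    field_simp
    ring
  have h2 : 0 ≤ ((p * v - c * q * x) ^ 2 + (p * u + c * q * y) ^ 2 +
        q ^ 2 * (1 - c ^ 2) * (x ^ 2 + y ^ 2)) / (2 * p) := by
    have : 0 ≤ 1 - c ^ 2 := by linarith
    positivity
  linarith

/-- the inequality for one term, real variables -/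
lemma pt (r T S c x y u v : ℝ) (hr : 2 ≤ r) (hT : 0 < T) (hS : 0 < S) (hc : c ^ 2 ≤ 1) :
    -(T * S) * ((r ^ 3 - r) * (x ^ 2 + y ^ 2) + ((r + 1) ^ 3 - (r + 1)) * (u ^ 2 + v ^ 2) +
        ((r ^ 3 - r) + ((r + 1) ^ 3 - (r + 1))) * (x * u + y * v)) +
      T * c * ((((r + 1) ^ 3 - (r + 1)) - (r ^ 3 - r)) * (x * v - y * u)) ≤
    T * (9 * (r * (r + 1)) / (2 * (2 * r + 1) * S) * (x ^ 2 + y ^ 2) +
      3 / 2 * S * (r * (r + 1)) * ((x ^ 2 + y ^ 2) - (u ^ 2 + v ^ 2))) := by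
  have hr0 : 0 < r := by linarith
  have h1 := young (S * (r * (r + 1) * (2 * r + 1))) (3 * r * (r + 1)) c x y (x + u) (y + v)
    (by positivity) hc
  have h2 : (3 * r * (r + 1)) ^ 2 / (2 * (S * (r * (r + 1) * (2 * r + 1)))) =
      9 * (r * (r + 1)) / (2 * (2 * r + 1) * S) := by
    field_simp
    ring
  rw [h2] at h1
  have h3 := mul_le_mul_of_nonneg_left h1 hT.le
  nlinarith [h3]

lemma pt2 (r T S c x y u v : ℝ) (hr : 2 ≤ r) (hT : 0 < T) (hS : 0 < S) (hc : c ^ 2 ≤ 1) :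
    ((r - 1) * r * (r + 1) * (r + 2)) *
    (-(T * S) * ((r ^ 3 - r) * (x ^ 2 + y ^ 2) + ((r + 1) ^ 3 - (r + 1)) * (u ^ 2 + v ^ 2) +
        ((r ^ 3 - r) + ((r + 1) ^ 3 - (r + 1))) * (x * u + y * v)) +
      T * c * ((((r + 1) ^ 3 - (r + 1)) - (r ^ 3 - r)) * (x * v - y * u))) ≤
    T * (27 / 5 / S) * (r ^ 2 * (r ^ 3 - r) * (x ^ 2 + y ^ 2)) +
      T * (3 / 2 * S) * (((r - 1) * r * (r + 1) * (r + 2)) * (r * (r + 1)) *
        ((x ^ 2 + y ^ 2) - (u ^ 2 + v ^ 2))) := by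
  have hr0 : 0 < r := by linarith
  have hr1 : 0 < r - 1 := by linarith
  have hw : 0 ≤ (r - 1) * r * (r + 1) * (r + 2) := by positivity
  have h1 := mul_le_mul_of_nonneg_left (pt r T S c x y u v hr hT hS hc) hw
  refine h1.trans ?_
  have h2 : ((r - 1) * r * (r + 1) * (r + 2)) *
      (9 * (r * (r + 1)) / (2 * (2 * r + 1) * S)) ≤ 27 / 5 / S * (r ^ 2 * (r ^ 3 - r)) := by
    have e1 : ((r - 1) * r * (r + 1) * (r + 2)) *
      (9 * (r * (r + 1)) / (2 * (2 * r + 1) * S)) =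
      ((r - 1) * r * (r + 1) / S) * (9 * (r * (r + 1) * (r + 2)) / (2 * (2 * r + 1))) := by
      field_simp
    have e2 : 27 / 5 / S * (r ^ 2 * (r ^ 3 - r)) =
      ((r - 1) * r * (r + 1) / S) * (27 / 5 * r ^ 2) := by
      field_simp
      ring
    rw [e1, e2]
    apply mul_le_mul_of_nonneg_left _ (by positivity)
    rw [div_le_iff₀ (by positivity)]
    nlinarith [mul_nonneg hr0.le (mul_nonneg hr0.le (by linarith : 0 ≤ r - 2)),
      mul_nonneg hr0.le (by linarith : 0 ≤ r - 2),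
      mul_nonneg hr0.le (mul_nonneg (by linarith : 0 ≤ r - 2) (by linarith : 0 ≤ r - 2))]
  have h3 : 0 ≤ T * (x ^ 2 + y ^ 2) := by positivity
  have h4 := mul_le_mul_of_nonneg_right h2 h3
  nlinarith [h4]

end XDIM

open XDIM in
theorem specXDI : SpecXDI := by
  intro M f hf T σ hT hσ hσ2
  have hS : 0 < Real.sin σ :=
    Real.sin_pos_of_pos_of_lt_pi hσ (by linarith [Real.pi_pos])
  have hc : Real.cos σ ^ 2 ≤ 1 := by
    nlinarith [Real.sin_sq_add_cos_sq σ, sq_nonneg (Real.sin σ)]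
  have hS1 : Real.sin σ ≤ 1 := Real.sin_le_one σ
  set S := Real.sin σ with hSdef
  set U : ℕ → ℝ := fun n => ww n * ((n : ℝ) * (n + 1)) with hU
  have h1 : ∀ n ∈ Finset.Icc 2 M, ww n *
    ((mu T σ).im * (dd n * ‖f n‖ ^ 2 + dd (n + 1) * ‖f (n + 1)‖ ^ 2 +
        (dd n + dd (n + 1)) * (star (f n) * f (n + 1)).re) +
      (mu T σ).re * ((dd (n + 1) - dd n) * (star (f n) * f (n + 1)).im)) ≤
      T * (27 / 5 / S) * ((n : ℝ) ^ 2 * dd n * ‖f n‖ ^ 2) +
      T * (3 / 2 * S) * (U n * (‖f n‖ ^ 2 - ‖f (n + 1)‖ ^ 2)) := by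
    intro n hn
    have hn2 : (2 : ℝ) ≤ n := by exact_mod_cast (Finset.mem_Icc.1 hn).1
    have := pt2 (n : ℝ) T S (Real.cos σ) (f n).re (f n).im (f (n + 1)).re (f (n + 1)).im
      hn2 hT hS hc
    rw [mu_re, mu_im, ← Complex.normSq_eq_norm_sq, ← Complex.normSq_eq_norm_sq,
      Complex.normSq_apply, Complex.normSq_apply, Complex.mul_re, Complex.mul_im]
    simp only [Complex.star_def, Complex.conj_re, Complex.conj_im, dd, ww, hU]
    push_cast
    refine le_trans (le_of_eq ?_) (this.trans (le_of_eq ?_))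
    · ring
    · ring
  have h2 : disp M (mu T σ) f ≤ T * (27 / 5 / S) * nE M f +
      T * (3 / 2 * S) * ∑ n ∈ Finset.Icc 2 M, (U n * (‖f n‖ ^ 2 - ‖f (n + 1)‖ ^ 2)) := by
    unfold disp nE
    rw [Finset.mul_sum, Finset.mul_sum, ← Finset.sum_add_distrib]
    exact Finset.sum_le_sum h1
  have h3 : ∑ n ∈ Finset.Icc 2 M, (U n * (‖f n‖ ^ 2 - ‖f (n + 1)‖ ^ 2)) = 6 * nE M f := by
    have h4 : ∀ n ∈ Finset.Icc 2 M, U n * (‖f n‖ ^ 2 - ‖f (n + 1)‖ ^ 2) =
        6 * ((n : ℝ) ^ 2 * dd n * ‖f n‖ ^ 2) -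
          (U n * ‖f (n + 1)‖ ^ 2 - U (n - 1) * ‖f (n - 1 + 1)‖ ^ 2) := by
      intro n hn
      have hn2 := (Finset.mem_Icc.1 hn).1
      obtain ⟨m, rfl⟩ : ∃ m, n = m + 1 := ⟨n - 1, by omega⟩
      simp only [Nat.add_sub_cancel, hU, dd, ww]
      push_cast
      ring
    rw [Finset.sum_congr rfl h4, Finset.sum_sub_distrib, ← Finset.mul_sum]
    have h5 : ∑ n ∈ Finset.Icc 2 M, (U n * ‖f (n + 1)‖ ^ 2 - U (n - 1) * ‖f (n - 1 + 1)‖ ^ 2)
        = 0 := by
      by_cases hM : 2 ≤ M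
      · have h6 := tele (fun n => U n * ‖f (n + 1)‖ ^ 2) M (by omega)
        rw [h6, hf (M + 1) (Or.inr (by omega))]
        simp [hU, ww]
      · rw [Finset.Icc_eq_empty (by omega)]
        simp
    rw [h5, sub_zero]
    rfl
  rw [h3] at h2
  have hn0 : 0 ≤ nE M f := by
    unfold nE
    apply Finset.sum_nonneg
    intro n hn
    have hn2 : (2 : ℝ) ≤ n := by exact_mod_cast (Finset.mem_Icc.1 hn).1
    have : 0 ≤ dd n := by
      unfold dd
      nlinarith [mul_nonneg (by linarith : (0 : ℝ) ≤ n) (by nlinarith : (0 : ℝ) ≤ (n : ℝ) ^ 2 - 1)]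
    positivity
  refine h2.trans ?_
  have h7 : T * (27 / 5 / S) + T * (9 * S) ≤ 15 * T / S := by
    rw [← sub_nonneg]
    have : 15 * T / S - (T * (27 / 5 / S) + T * (9 * S)) = T * (48 / 5 - 9 * S ^ 2) / S := by
      field_simp
      ring
    rw [this]
    have h8 : 0 ≤ 48 / 5 - 9 * S ^ 2 := by nlinarith
    positivity
  have h9 := mul_le_mul_of_nonneg_right h7 hn0
  nlinarith [h9]

end Pool.Agent.Lib.MPb879.Lin
end

section
/-!
# MP_b879c5_an, module XDR: the derivative of `x`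
-/
set_option autoImplicit false

namespace Pool.Agent.Lib.MPb879.Lin

open Set Filter Finset
open scoped Topology ContDiff

namespace XDRM

/-- the neighbouring terms -/
noncomputable def AA (F : ℕ → ℂ) (n : ℕ) : ℝ :=
  ww n * ((n : ℝ) + 3) / 2 * ((F n + F (n + 1)) * star (F (n + 1) + F (n + 2))).re

theorem ww_rel (n : ℕ) : ww n * ((n : ℝ) + 3) = ww (n + 1) * ((n : ℝ) - 1) := by
  unfold ww
  push_cast
  ring

/-- the algebra of one term; `n = k + 1` -/
theorem term (μ : ℂ) (s : ℝ) (F : ℕ → ℂ) (k : ℕ) :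
    ww (k + 1) * ((rhs μ s F (k + 1) + rhs μ s F (k + 2)) * star (F (k + 1) + F (k + 2))).re =
      Real.exp (-s) * (ww (k + 1) * (μ.im * (dd (k + 1) * ‖F (k + 1)‖ ^ 2 +
        dd (k + 2) * ‖F (k + 2)‖ ^ 2 +
        (dd (k + 1) + dd (k + 2)) * (star (F (k + 1)) * F (k + 2)).re) +
        μ.re * ((dd (k + 2) - dd (k + 1)) * (star (F (k + 1)) * F (k + 2)).im))) -
      1 / 2 * (ww (k + 1) * ‖F (k + 1) + F (k + 2)‖ ^ 2) + (AA F (k + 1) - AA F k) := by
  have h1 : AA F k = ww (k + 1) * ((k : ℝ) - 1) / 2 *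
      ((F k + F (k + 1)) * star (F (k + 1) + F (k + 2))).re := by
    unfold AA
    rw [ww_rel]
  rw [h1]
  unfold AA rhs
  simp only [Nat.add_sub_cancel, Complex.sq_norm, Complex.normSq_apply]
  generalize Real.exp (-s) = e
  push_cast
  generalize hd1 : dd (k + 1) = d1
  generalize hd2 : dd (k + 2) = d2
  generalize hw : ww (k + 1) = w
  have hk1 : k + 1 + 1 = k + 2 := rfl
  have hk2 : k + 1 + 2 = k + 3 := rfl
  have hk3 : k + 2 + 1 = k + 3 := rfl
  rw [hk1, hk2, hk3]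
  generalize F k = a
  generalize F (k + 1) = b
  generalize F (k + 2) = c
  generalize F (k + 3) = g
  simp only [Complex.add_re, Complex.add_im, Complex.mul_re, Complex.mul_im, Complex.sub_re,
    Complex.sub_im, Complex.neg_re, Complex.neg_im, Complex.I_re, Complex.I_im,
    Complex.star_def, Complex.conj_re, Complex.conj_im, Complex.ofReal_re, Complex.ofReal_im,
    Complex.natCast_re, Complex.natCast_im, Complex.one_re, Complex.one_im, Complex.re_ofNat,
    Complex.im_ofNat, Complex.div_ofNat_re, Complex.div_ofNat_im]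
  ring

theorem tele (F : ℕ → ℂ) (M : ℕ) (hM : 1 ≤ M) :
    ∑ n ∈ Finset.Icc 2 M, (AA F n - AA F (n - 1)) = AA F M - AA F 1 := by
  induction M, hM using Nat.le_induction with
  | base => simp
  | succ M hM ih =>
    rw [Finset.sum_Icc_succ_top (by omega), ih, Nat.add_sub_cancel]
    ring

theorem AA_one (F : ℕ → ℂ) : AA F 1 = 0 := by
  unfold AA ww
  simp

end XDRM

open XDRM in
theorem specXDR : SpecXDR := by
  intro M μ f hG s hs
  have hsupp := hG.supp
  rcases Nat.lt_or_ge M 2 with hM | hM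
  · have h1 : Finset.Icc 2 M = ∅ := Finset.Icc_eq_empty (by omega)
    unfold xE disp
    rw [h1]
    simp only [Finset.sum_empty, mul_zero, neg_zero, zero_add, add_zero]
    rw [hsupp s M (Or.inl hM), norm_zero]
    simpa using hasDerivAt_const s (0 : ℝ)
  -- derivative of one term
  have hterm : ∀ n ∈ Finset.Icc 2 M,
      HasDerivAt (fun r => ww n * ‖f r n + f r (n + 1)‖ ^ 2)
        (2 * (ww n * ((rhs μ s (f s) n + rhs μ s (f s) (n + 1)) *
          star (f s n + f s (n + 1))).re +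
          if n = M then ((M : ℝ) - 1) / 2 * ww M * ‖f s M‖ ^ 2 else 0)) s := by
    intro n hn
    have hn' := Finset.mem_Icc.1 hn
    by_cases hnM : n = M
    · subst hnM
      have h0 : f s (n + 1) = 0 := hsupp s (n + 1) (Or.inr (by omega))
      have h0' : f s (n + 2) = 0 := hsupp s (n + 2) (Or.inr (by omega))
      have h1 : HasDerivAt (fun r => f r n + f r (n + 1)) (rhs μ s (f s) n + 0) s := by
        refine (hG.der s hs n hn).add ?_
        have h2 : (fun r => f r (n + 1)) = fun _ => (0 : ℂ) :=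
          funext fun r => hsupp r (n + 1) (Or.inr (by omega))
        rw [h2]
        exact hasDerivAt_const s 0
      have h2 := (h1.norm_sq).const_mul (ww n)
      convert! h2 using 1
      rw [if_pos rfl, Complex.inner, h0, add_zero, add_zero]
      have h3 : rhs μ s (f s) (n + 1) = -(((n : ℂ) - 1) * f s n) / 2 := by
        unfold rhs
        rw [h0, h0', Nat.add_sub_cancel]
        push_cast
        ring
      rw [h3, Complex.sq_norm, Complex.normSq_apply]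
      simp only [Complex.add_re, Complex.add_im, Complex.mul_re, Complex.mul_im, Complex.sub_re,
        Complex.sub_im, Complex.neg_re, Complex.neg_im,
        Complex.star_def, Complex.conj_re, Complex.conj_im,
        Complex.natCast_re, Complex.natCast_im, Complex.one_re, Complex.one_im,
        Complex.div_ofNat_re, Complex.div_ofNat_im]
      ring
    · have hn1 : n + 1 ∈ Finset.Icc 2 M := Finset.mem_Icc.2 ⟨by omega, by omega⟩
      have h1 : HasDerivAt (fun r => f r n + f r (n + 1))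
          (rhs μ s (f s) n + rhs μ s (f s) (n + 1)) s :=
        (hG.der s hs n hn).add (hG.der s hs (n + 1) hn1)
      have h2 := (h1.norm_sq).const_mul (ww n)
      convert! h2 using 1
      rw [if_neg hnM, Complex.inner, add_zero]
      rw [← Complex.star_def]
      ring
  have hsum := (HasDerivAt.fun_sum hterm).const_mul (1 / 2 : ℝ)
  have hfun : (fun r => xE M (f r)) =
      fun r => 1 / 2 * ∑ n ∈ Finset.Icc 2 M, ww n * ‖f r n + f r (n + 1)‖ ^ 2 := rfl
  rw [hfun]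
  convert! hsum using 1
  rw [← Finset.mul_sum, Finset.sum_add_distrib, Finset.sum_ite_eq' (Finset.Icc 2 M) M,
    if_pos (Finset.mem_Icc.2 ⟨hM, le_rfl⟩)]
  have h1 : ∀ n ∈ Finset.Icc 2 M, ww n * ((rhs μ s (f s) n + rhs μ s (f s) (n + 1)) *
      star (f s n + f s (n + 1))).re =
      Real.exp (-s) * (ww n * (μ.im * (dd n * ‖f s n‖ ^ 2 + dd (n + 1) * ‖f s (n + 1)‖ ^ 2 +
        (dd n + dd (n + 1)) * (star (f s n) * f s (n + 1)).re) +
        μ.re * ((dd (n + 1) - dd n) * (star (f s n) * f s (n + 1)).im))) -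
      1 / 2 * (ww n * ‖f s n + f s (n + 1)‖ ^ 2) + (AA (f s) n - AA (f s) (n - 1)) := by
    intro n hn
    have hn' := Finset.mem_Icc.1 hn
    obtain ⟨k, rfl⟩ : ∃ k, n = k + 1 := ⟨n - 1, by omega⟩
    exact term μ s (f s) k
  rw [Finset.sum_congr rfl h1, Finset.sum_add_distrib, Finset.sum_sub_distrib, tele _ _ (by omega),
    AA_one, ← Finset.mul_sum, ← Finset.mul_sum]
  have h2 : AA (f s) M = 0 := by
    unfold AA
    rw [hsupp s (M + 1) (Or.inr (by omega)), hsupp s (M + 2) (Or.inr (by omega))]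
    simp
  rw [h2]
  unfold xE disp
  ring

end Pool.Agent.Lib.MPb879.Lin
end

section
/-!
# MP_b879c5_an, Lin, ZDE: exponential decay of `Z = x + κ y`
-/
set_option autoImplicit false

namespace Pool.Agent.Lib.MPb879.Lin

open Set Filter Finset
open scoped Topology ContDiff

namespace ZDEM

lemma mu_im (T σ : ℝ) : (mu T σ).im = -(T * Real.sin σ) := by
  unfold mu
  have h : -((σ : ℂ) * Complex.I) = ((-σ : ℝ) : ℂ) * Complex.I := by push_cast; ring
  rw [h, Complex.im_ofReal_mul, Complex.exp_ofReal_mul_I_im, Real.sin_neg]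
  ring

lemma dd_nonneg (n : ℕ) (hn : 2 ≤ n) : 0 ≤ dd n := by
  have hn2 : (2 : ℝ) ≤ n := by exact_mod_cast hn
  unfold dd
  nlinarith [mul_nonneg (by linarith : (0 : ℝ) ≤ n) (by nlinarith : (0 : ℝ) ≤ (n : ℝ) ^ 2 - 1)]

lemma sq_le (n : ℕ) (hn : 2 ≤ n) (ε : ℝ) (hε : 0 < ε) :
    (n : ℝ) ^ 2 ≤ ε * dd n + 16 / 9 / ε ^ 2 := by
  have hn2 : (2 : ℝ) ≤ n := by exact_mod_cast hn
  have hd := dd_nonneg n hn
  by_cases h : (n : ℝ) ≤ 4 / 3 / ε
  · have h1 : (n : ℝ) ^ 2 ≤ (4 / 3 / ε) ^ 2 := by gcongr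
    have h2 : (4 / 3 / ε) ^ 2 = 16 / 9 / ε ^ 2 := by
      field_simp
      norm_num
    have h3 : 0 ≤ ε * dd n := by positivity
    rw [h2] at h1
    linarith
  · rw [not_le, div_lt_iff₀ hε] at h
    have h1 : 3 / 4 * (n : ℝ) ^ 3 ≤ dd n := by
      unfold dd
      nlinarith [mul_nonneg (by linarith : (0 : ℝ) ≤ n) (by nlinarith : (0 : ℝ) ≤ (n : ℝ) ^ 2 - 4)]
    have h2 : ε * (3 / 4 * (n : ℝ) ^ 3) ≤ ε * dd n := mul_le_mul_of_nonneg_left h1 hε.le
    have h3 : (n : ℝ) ^ 2 ≤ ε * (3 / 4 * (n : ℝ) ^ 3) := by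
      have : (n : ℝ) ^ 2 * 1 ≤ (n : ℝ) ^ 2 * ((n : ℝ) * ε * (3 / 4)) :=
        mul_le_mul_of_nonneg_left (by linarith) (by positivity)
      nlinarith
    have h4 : 0 ≤ 16 / 9 / ε ^ 2 := by positivity
    linarith

lemma nE_le (M : ℕ) (f : ℕ → ℂ) (ε : ℝ) (hε : 0 < ε) :
    nE M f ≤ ε * dE M f + 16 / 9 / ε ^ 2 * yE M f := by
  unfold nE dE yE
  rw [Finset.mul_sum, Finset.mul_sum, ← Finset.sum_add_distrib]
  apply Finset.sum_le_sum
  intro n hn
  have hn2 := (Finset.mem_Icc.1 hn).1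
  have h1 := mul_le_mul_of_nonneg_right (sq_le n hn2 ε hε)
    (by have := dd_nonneg n hn2; positivity : 0 ≤ dd n * ‖f n‖ ^ 2)
  nlinarith [h1]

lemma yE_nonneg (M : ℕ) (f : ℕ → ℂ) : 0 ≤ yE M f := by
  unfold yE
  apply Finset.sum_nonneg
  intro n hn
  have := dd_nonneg n (Finset.mem_Icc.1 hn).1
  positivity

lemma xE_nonneg (M : ℕ) (f : ℕ → ℂ) : 0 ≤ xE M f := by
  unfold xE
  apply mul_nonneg (by norm_num)
  apply Finset.sum_nonneg
  intro n hn
  have hn2 : (2 : ℝ) ≤ n := by exact_mod_cast (Finset.mem_Icc.1 hn).1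
  have h1 : (0 : ℝ) ≤ (n : ℝ) - 1 := by linarith
  unfold ww
  positivity

/-- the top mode is one of the terms of `dE` -/
lemma top_le (M : ℕ) (hM : 2 ≤ M) (f : ℕ → ℂ) : dd M ^ 2 * ‖f M‖ ^ 2 ≤ dE M f := by
  unfold dE
  exact Finset.single_le_sum (f := fun n => dd n ^ 2 * ‖f n‖ ^ 2) (fun n _ => by positivity)
    (Finset.mem_Icc.2 ⟨hM, le_refl M⟩)

/-- the edge term -/
lemma edge (M : ℕ) (hM : 2 ≤ M) (q : ℝ) (hq : 1 ≤ q * M) (f : ℕ → ℂ) :
    ((M : ℝ) - 1) / 2 * ww M * ‖f M‖ ^ 2 ≤ q * dE M f := by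
  have hM2 : (2 : ℝ) ≤ M := by exact_mod_cast hM
  have hq0 : 0 < q := by
    by_contra hneg
    push Not at hneg
    nlinarith
  have h1 := mul_le_mul_of_nonneg_left (top_le M hM f) hq0.le
  refine le_trans ?_ h1
  have h2 : ((M : ℝ) - 1) / 2 * ww M ≤ q * dd M ^ 2 := by
    have hd : dd M = ((M : ℝ) - 1) * M * (M + 1) := by unfold dd; ring
    have hw : ww M = dd M * ((M : ℝ) + 2) := by unfold dd ww; ring
    have hd0 := dd_nonneg M hM
    have h3 : ((M : ℝ) - 1) / 2 * ((M : ℝ) + 2) ≤ q * dd M := by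
      rw [hd]
      have h4 : ((M : ℝ) - 1) / 2 * ((M : ℝ) + 2) ≤ ((M : ℝ) - 1) * (M + 1) := by nlinarith
      have h5 : ((M : ℝ) - 1) * (M + 1) * 1 ≤ ((M : ℝ) - 1) * (M + 1) * (q * M) :=
        mul_le_mul_of_nonneg_left hq (by nlinarith)
      nlinarith
    rw [hw]
    have h6 := mul_le_mul_of_nonneg_right h3 hd0
    nlinarith
  have h7 := mul_le_mul_of_nonneg_right h2 (by positivity : 0 ≤ ‖f M‖ ^ 2)
  nlinarith

lemma KK_cube (T σ : ℝ) (hT : 0 < T) (hS : 0 < Real.sin σ) :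
    KK T σ ^ 3 = 72000 * T / Real.sin σ ^ 5 := by
  unfold KK
  rw [← Real.rpow_natCast, ← Real.rpow_mul (by positivity)]
  norm_num

lemma KK_pos (T σ : ℝ) (hT : 0 < T) (hS : 0 < Real.sin σ) : 0 < KK T σ := by
  unfold KK
  positivity

/-- the scalar inequality: `x' + (κ y)' ≤ -x - κ y / 4` -/
lemma scal (T S0 k e x y D N E : ℝ) (hT : 0 < T) (hS0 : 0 < S0) (hk : 0 < k) (he : 0 < e)
    (hk3 : k ^ 3 = 72000 * (T * e) / S0 ^ 5)
    (hN : N ≤ (k * S0 ^ 2 / 15) * D + 16 / 9 / (k * S0 ^ 2 / 15) ^ 2 * y)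
    (hE : E ≤ k * (T * e) * S0 * D) :
    -x + E + e * (15 * T / S0 * N) + (-(1 / 3) * k * y + k * (2 * (-(T * S0)) * e * D)) ≤
      -x - k * y / 4 := by
  have h1 : e * (15 * T / S0 * N) ≤ k * (T * e) * S0 * D + k / 12 * y := by
    have h2 := mul_le_mul_of_nonneg_left hN (by positivity : 0 ≤ e * (15 * T / S0))
    have h3 : e * (15 * T / S0) * ((k * S0 ^ 2 / 15) * D +
        16 / 9 / (k * S0 ^ 2 / 15) ^ 2 * y) = k * (T * e) * S0 * D + k / 12 * y := by
      have h4 : 72000 * (T * e) = k ^ 3 * S0 ^ 5 := by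
        rw [hk3]
        field_simp
      have h5 : e * (15 * T / S0) * (16 / 9 / (k * S0 ^ 2 / 15) ^ 2 * y) =
          (72000 * (T * e)) / (12 * k ^ 2 * S0 ^ 5) * y := by
        field_simp
        ring
      have h6 : e * (15 * T / S0) * ((k * S0 ^ 2 / 15) * D) = k * (T * e) * S0 * D := by
        field_simp
      rw [mul_add, h6, h5, h4]
      have h7 : k ^ 3 * S0 ^ 5 / (12 * k ^ 2 * S0 ^ 5) = k / 12 := by
        field_simp
      rw [h7]
    nlinarith
  nlinarith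

end ZDEM

open ZDEM in
theorem specZDE (hENE : SpecENE) (hXDR : SpecXDR) (hXDI : SpecXDI) : SpecZDE := by
  intro T σ τ hT hσ hσ2 hτ
  have hS : 0 < Real.sin σ :=
    Real.sin_pos_of_pos_of_lt_pi hσ (by linarith [Real.pi_pos])
  have hk0 := KK_pos T σ hT hS
  have hk3 := KK_cube T σ hT hS
  set k0 := KK T σ with hk0def
  set S0 := Real.sin σ with hS0def
  set q : ℝ := k0 * Real.exp (-(4 / 3 * τ)) * T * S0 with hq
  have hq0 : 0 < q := by positivity
  refine ⟨max 2 ⌈1 / q⌉₊, ?_⟩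
  intro M hM f hf
  have hM2 : 2 ≤ M := le_trans (le_max_left _ _) hM
  have hMq : 1 ≤ q * M := by
    have h1 : 1 / q ≤ M := le_trans (Nat.le_ceil _) (by exact_mod_cast le_trans (le_max_right _ _) hM)
    rwa [div_le_iff₀' hq0] at h1
  -- the derivative of Z
  have hder : ∀ s, 0 ≤ s → HasDerivAt (fun r => xE M (f r) + k0 * Real.exp (-(r / 3)) * yE M (f r))
      ((-xE M (f s) + ((M : ℝ) - 1) / 2 * ww M * ‖f s M‖ ^ 2 +
        Real.exp (-s) * disp M (mu T σ) (f s)) +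
        (k0 * (Real.exp (-(s / 3)) * (-(1 / 3))) * yE M (f s) +
          k0 * Real.exp (-(s / 3)) * (2 * (mu T σ).im * Real.exp (-s) * dE M (f s)))) s := by
    intro s hs
    have h1 := hXDR M (mu T σ) f hf s hs
    have h2 := hENE M (mu T σ) f hf s hs
    have h3 : HasDerivAt (fun r : ℝ => k0 * Real.exp (-(r / 3)))
        (k0 * (Real.exp (-(s / 3)) * (-(1 / 3)))) s := by
      have h4 : HasDerivAt (fun r : ℝ => -(r / 3)) (-(1 / 3)) s :=
        ((hasDerivAt_id s).div_const 3).neg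
      exact (h4.exp).const_mul k0
    exact h1.add (h3.mul h2)
  have hbd : ∀ s, 0 ≤ s → s ≤ τ →
      ((-xE M (f s) + ((M : ℝ) - 1) / 2 * ww M * ‖f s M‖ ^ 2 +
        Real.exp (-s) * disp M (mu T σ) (f s)) +
        (k0 * (Real.exp (-(s / 3)) * (-(1 / 3))) * yE M (f s) +
          k0 * Real.exp (-(s / 3)) * (2 * (mu T σ).im * Real.exp (-s) * dE M (f s)))) ≤
      -(1 / 4) * (xE M (f s) + k0 * Real.exp (-(s / 3)) * yE M (f s)) := by
    intro s hs hsτ
    have hsupp := hf.supp s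
    have h1 := hXDI M (f s) hsupp T σ hT hσ hσ2
    have h2 : (k0 * Real.exp (-(s / 3))) ^ 3 = 72000 * (T * Real.exp (-s)) / S0 ^ 5 := by
      rw [mul_pow, hk3, ← Real.exp_nat_mul]
      have : ((3 : ℕ) : ℝ) * -(s / 3) = -s := by push_cast; ring
      rw [this]
      ring
    have h3 := nE_le M (f s) (k0 * Real.exp (-(s / 3)) * S0 ^ 2 / 15) (by positivity)
    have hq1 : q ≤ k0 * Real.exp (-(s / 3)) * (T * Real.exp (-s)) * S0 := by
      have e1 : k0 * Real.exp (-(s / 3)) * (T * Real.exp (-s)) * S0 =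
          k0 * (Real.exp (-(s / 3)) * Real.exp (-s)) * T * S0 := by ring
      rw [e1, ← Real.exp_add, hq]
      have e2 : Real.exp (-(4 / 3 * τ)) ≤ Real.exp (-(s / 3) + -s) :=
        Real.exp_le_exp.2 (by linarith)
      gcongr
    have hD0 : 0 ≤ dE M (f s) := by
      unfold dE
      apply Finset.sum_nonneg
      intro n hn
      positivity
    have h4 : ((M : ℝ) - 1) / 2 * ww M * ‖f s M‖ ^ 2 ≤
        k0 * Real.exp (-(s / 3)) * (T * Real.exp (-s)) * S0 * dE M (f s) :=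
      (edge M hM2 q hMq (f s)).trans (mul_le_mul_of_nonneg_right hq1 hD0)
    have h5 := scal T S0 (k0 * Real.exp (-(s / 3))) (Real.exp (-s)) (xE M (f s)) (yE M (f s))
      (dE M (f s)) (nE M (f s)) _ hT hS (by positivity) (Real.exp_pos _) h2 h3 h4
    have h6 : Real.exp (-s) * disp M (mu T σ) (f s) ≤
        Real.exp (-s) * (15 * T / S0 * nE M (f s)) :=
      mul_le_mul_of_nonneg_left h1 (Real.exp_pos _).le
    have h7 := xE_nonneg M (f s)
    rw [mu_im]
    nlinarith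
  -- Gronwall
  have hder2 : ∀ s, 0 ≤ s → HasDerivAt
      (fun r => Real.exp (r / 4) * (xE M (f r) + k0 * Real.exp (-(r / 3)) * yE M (f r)))
      ((Real.exp (s / 4) * (1 / 4)) * (xE M (f s) + k0 * Real.exp (-(s / 3)) * yE M (f s)) +
        Real.exp (s / 4) * ((-xE M (f s) + ((M : ℝ) - 1) / 2 * ww M * ‖f s M‖ ^ 2 +
        Real.exp (-s) * disp M (mu T σ) (f s)) +
        (k0 * (Real.exp (-(s / 3)) * (-(1 / 3))) * yE M (f s) +
          k0 * Real.exp (-(s / 3)) * (2 * (mu T σ).im * Real.exp (-s) * dE M (f s))))) s := by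
    intro s hs
    have h3 : HasDerivAt (fun r : ℝ => Real.exp (r / 4)) (Real.exp (s / 4) * (1 / 4)) s :=
      ((hasDerivAt_id s).div_const 4).exp
    exact h3.mul (hder s hs)
  have hanti : AntitoneOn
      (fun r => Real.exp (r / 4) * (xE M (f r) + k0 * Real.exp (-(r / 3)) * yE M (f r)))
      (Set.Icc 0 τ) := by
    apply antitoneOn_of_deriv_nonpos (convex_Icc 0 τ)
    · intro s hs
      exact (hder2 s hs.1).continuousAt.continuousWithinAt
    · intro s hs
      rw [interior_Icc] at hs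
      exact (hder2 s hs.1.le).differentiableAt.differentiableWithinAt
    · intro s hs
      rw [interior_Icc] at hs
      rw [(hder2 s hs.1.le).deriv]
      have h1 := mul_le_mul_of_nonneg_left (hbd s hs.1.le hs.2.le) (Real.exp_pos (s / 4)).le
      nlinarith
  have hfin := hanti (Set.left_mem_Icc.2 hτ) (Set.right_mem_Icc.2 hτ) hτ
  simp only [zero_div, neg_zero, Real.exp_zero, one_mul, mul_one] at hfin
  have hx : Real.exp (τ / 4) * xE M (f τ) ≤ xE M (f 0) + k0 * yE M (f 0) := by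
    have h1 : 0 ≤ Real.exp (τ / 4) * (k0 * Real.exp (-(τ / 3)) * yE M (f τ)) := by
      have := yE_nonneg M (f τ)
      positivity
    nlinarith
  have h8 := mul_le_mul_of_nonneg_left hx (Real.exp_pos (-(τ / 4))).le
  rw [← mul_assoc, ← Real.exp_add] at h8
  simpa using h8

end Pool.Agent.Lib.MPb879.Lin
end
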