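import Pool.Agent.Lib.MP_b879c5_an.Lin.SpecA
import Pool.Agent.Lib.MP_fabde4_an.N.Tint
import Pool.Agent.Lib.MP_b879c5_an.Lin.PAR
import Pool.Agent.Lib.MP_b879c5_an.Lin.ZDE

section
/-!
# MP_b879c5_an, Lin, EXI: existence of Galerkin solutions
-/
set_option autoImplicit false

namespace Pool.Agent.Lib.MPb879.Lin

open Set Filter Finset
open scoped Topology ContDiff

namespace EXIM

/-- extension by zero -/
noncomputable def ext (M : ℕ) (v : Fin (M + 1) → ℂ) (j : ℕ) : ℂ :=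
  if h : 2 ≤ j ∧ j ≤ M then v ⟨j, by omega⟩ else 0

/-- smooth bounded replacement of `e^{-r}` -/
noncomputable def E (r : ℝ) : ℝ := Real.exp (-(r * Real.smoothTransition (r + 1)))

/-- the vector field -/
noncomputable def X (M : ℕ) (μ : ℂ) (p : ℝ × (Fin (M + 1) → ℂ)) : ℝ × (Fin (M + 1) → ℂ) :=
  (1, fun i => -(Complex.I * μ * ((E p.1 * dd i : ℝ) : ℂ)) * ext M p.2 i +
    (((i : ℕ) + 2 : ℂ) * ext M p.2 (i + 1) - ((i : ℕ) - 2 : ℂ) * ext M p.2 (i - 1)) / 2)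

lemma E_nonneg (r : ℝ) : 0 ≤ E r := (Real.exp_pos _).le

lemma E_le (r : ℝ) : E r ≤ Real.exp 1 := by
  unfold E
  apply Real.exp_le_exp.2
  have h0 := Real.smoothTransition.nonneg (r + 1)
  have h1 := Real.smoothTransition.le_one (r + 1)
  by_cases hr : r + 1 ≤ 0
  · rw [Real.smoothTransition.zero_of_nonpos hr]
    simp
  · push Not at hr
    nlinarith

lemma E_eq (r : ℝ) (hr : 0 ≤ r) : E r = Real.exp (-r) := by
  unfold E
  rw [Real.smoothTransition.one_of_one_le (by linarith), mul_one]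

lemma E_cont : ContDiff ℝ 1 E := by
  unfold E
  have h1 : ContDiff ℝ 1 (fun r : ℝ => Real.smoothTransition (r + 1)) :=
    Real.smoothTransition.contDiff.comp (contDiff_id.add contDiff_const)
  exact (contDiff_id.mul h1).neg.exp

lemma ext_cont (M : ℕ) (j : ℕ) : ContDiff ℝ 1
    (fun p : ℝ × (Fin (M + 1) → ℂ) => ext M p.2 j) := by
  unfold ext
  by_cases h : 2 ≤ j ∧ j ≤ M
  · simp only [h, and_self, dite_true]
    exact (contDiff_apply ℝ ℂ _).comp contDiff_snd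
  · simp only [h, dite_false]
    exact contDiff_const

lemma X_cont (M : ℕ) (μ : ℂ) : ContDiff ℝ 1 (X M μ) := by
  unfold X
  apply contDiff_const.prodMk
  rw [contDiff_pi]
  intro i
  have h1 : ContDiff ℝ 1 (fun p : ℝ × (Fin (M + 1) → ℂ) => ((E p.1 * dd i : ℝ) : ℂ)) :=
    Complex.ofRealCLM.contDiff.comp ((E_cont.comp contDiff_fst).mul contDiff_const)
  exact ((contDiff_const.mul h1).neg.mul (ext_cont M i)).add
    (((contDiff_const.mul (ext_cont M (i + 1))).sub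
      (contDiff_const.mul (ext_cont M (i - 1)))).div_const 2)

lemma ext_le (M : ℕ) (v : Fin (M + 1) → ℂ) (j : ℕ) : ‖ext M v j‖ ≤ ‖v‖ := by
  unfold ext
  by_cases h : 2 ≤ j ∧ j ≤ M
  · simp only [h, and_self, dite_true]
    exact norm_le_pi_norm v _
  · simp only [h, dite_false, norm_zero]
    exact norm_nonneg v

lemma dd_le (M n : ℕ) (hn : n ≤ M) : |dd n| ≤ ((M : ℝ) + 1) ^ 3 := by
  have h0 : (0 : ℝ) ≤ n := Nat.cast_nonneg n
  have h1 : (n : ℝ) ≤ M := by exact_mod_cast hn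
  have h2 : (n : ℝ) ^ 3 ≤ ((M : ℝ) + 1) ^ 3 := by gcongr; linarith
  have h3 : (0 : ℝ) ≤ dd n := by
    unfold dd
    rcases Nat.eq_zero_or_pos n with h | h
    · rw [h]; simp
    · have h4 : (1 : ℝ) ≤ n := by exact_mod_cast h
      nlinarith [mul_nonneg h0 (by nlinarith : (0 : ℝ) ≤ (n : ℝ) ^ 2 - 1)]
  rw [abs_of_nonneg h3]
  unfold dd
  linarith

lemma X_le (M : ℕ) (μ : ℂ) (p : ℝ × (Fin (M + 1) → ℂ)) :
    ‖X M μ p‖ ≤ (1 + ‖μ‖ * (Real.exp 1 * ((M : ℝ) + 1) ^ 3) + ((M : ℝ) + 2)) * (1 + ‖p‖) := by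
  have hp2 : ‖p.2‖ ≤ ‖p‖ := norm_snd_le p
  have hp0 := norm_nonneg p
  have hp20 := norm_nonneg p.2
  have hc : 0 ≤ ‖μ‖ * (Real.exp 1 * ((M : ℝ) + 1) ^ 3) := by positivity
  unfold X
  rw [Prod.norm_mk]
  apply max_le
  · rw [norm_one]
    nlinarith [mul_nonneg hc hp0, mul_nonneg (by positivity : (0 : ℝ) ≤ (M : ℝ) + 2) hp0]
  · rw [pi_norm_le_iff_of_nonneg (by positivity)]
    intro i
    have hi : (i : ℕ) ≤ M := by omega
    have hiR : ((i : ℕ) : ℝ) ≤ M := by exact_mod_cast hi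
    have hi0 : (0 : ℝ) ≤ ((i : ℕ) : ℝ) := Nat.cast_nonneg _
    have e1 : ‖-(Complex.I * μ * ((E p.1 * dd i : ℝ) : ℂ)) * ext M p.2 i‖ ≤
        ‖μ‖ * (Real.exp 1 * ((M : ℝ) + 1) ^ 3) * ‖p.2‖ := by
      rw [norm_mul, norm_neg, norm_mul, norm_mul, Complex.norm_I, one_mul, Complex.norm_real,
        norm_mul, Real.norm_eq_abs, Real.norm_eq_abs, abs_of_nonneg (E_nonneg p.1)]
      have a1 := E_le p.1
      have a2 := dd_le M i hi
      have a3 := ext_le M p.2 i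
      have a4 := E_nonneg p.1
      gcongr
    have e2 : ‖(((i : ℕ) + 2 : ℂ) * ext M p.2 (i + 1) -
        ((i : ℕ) - 2 : ℂ) * ext M p.2 (i - 1)) / 2‖ ≤ ((M : ℝ) + 2) * ‖p.2‖ := by
      rw [norm_div]
      have b1 : ‖((i : ℕ) + 2 : ℂ) * ext M p.2 (i + 1)‖ ≤ ((M : ℝ) + 2) * ‖p.2‖ := by
        rw [norm_mul]
        have c1 : ‖((i : ℕ) + 2 : ℂ)‖ ≤ (M : ℝ) + 2 := by
          have : ((i : ℕ) + 2 : ℂ) = ((((i : ℕ) : ℝ) + 2 : ℝ) : ℂ) := by push_cast; rfl
          rw [this, Complex.norm_real, Real.norm_eq_abs, abs_of_nonneg (by positivity)]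
          linarith
        have c2 := ext_le M p.2 (i + 1)
        gcongr
      have b2 : ‖((i : ℕ) - 2 : ℂ) * ext M p.2 (i - 1)‖ ≤ ((M : ℝ) + 2) * ‖p.2‖ := by
        rw [norm_mul]
        have c1 : ‖((i : ℕ) - 2 : ℂ)‖ ≤ (M : ℝ) + 2 := by
          have : ((i : ℕ) - 2 : ℂ) = ((((i : ℕ) : ℝ) - 2 : ℝ) : ℂ) := by push_cast; rfl
          rw [this, Complex.norm_real, Real.norm_eq_abs, abs_le]
          constructor <;> linarith
        have c2 := ext_le M p.2 (i - 1)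
        gcongr
      have b3 := norm_sub_le (((i : ℕ) + 2 : ℂ) * ext M p.2 (i + 1))
        (((i : ℕ) - 2 : ℂ) * ext M p.2 (i - 1))
      have b4 : ‖(2 : ℂ)‖ = 2 := by simp
      rw [b4, div_le_iff₀ (by norm_num)]
      linarith
    refine (norm_add_le _ _).trans ((add_le_add e1 e2).trans ?_)
    have d1 : ‖μ‖ * (Real.exp 1 * ((M : ℝ) + 1) ^ 3) * ‖p.2‖ ≤
        ‖μ‖ * (Real.exp 1 * ((M : ℝ) + 1) ^ 3) * ‖p‖ := mul_le_mul_of_nonneg_left hp2 hc
    have d2 : ((M : ℝ) + 2) * ‖p.2‖ ≤ ((M : ℝ) + 2) * ‖p‖ :=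
      mul_le_mul_of_nonneg_left hp2 (by positivity)
    have d3 : (0 : ℝ) ≤ (M : ℝ) := Nat.cast_nonneg _
    nlinarith

lemma ext_of_mem (M : ℕ) (v : Fin (M + 1) → ℂ) (j : ℕ) (h : 2 ≤ j ∧ j ≤ M) :
    ext M v j = v ⟨j, by omega⟩ := by
  unfold ext
  rw [dif_pos h]

lemma ext_of_not (M : ℕ) (v : Fin (M + 1) → ℂ) (j : ℕ) (h : ¬ (2 ≤ j ∧ j ≤ M)) :
    ext M v j = 0 := by
  unfold ext
  rw [dif_neg h]

end EXIM

open EXIM in
theorem specEXI : SpecEXI := by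
  intro M μ g hg
  obtain ⟨γ, h0, hγ⟩ := MPfab.Glob.global_sol (X M μ) _ (X_cont M μ) (X_le M μ)
    ((0 : ℝ), fun i : Fin (M + 1) => g i)
  have h1 : ∀ t, HasDerivAt (fun r => (γ r).1) 1 t := by
    intro t
    exact (hasFDerivAt_fst (𝕜 := ℝ) (E := ℝ) (F := Fin (M + 1) → ℂ)
      (p := γ t)).comp_hasDerivAt t (hγ t)
  have h2 : ∀ t, (γ t).1 = t := by
    intro t
    have h3 : ∀ r, HasDerivAt (fun r => (γ r).1 - r) 0 r := by
      intro r
      have h := (h1 r).sub (hasDerivAt_id r)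
      rw [sub_self] at h
      exact h
    have h4 := is_const_of_deriv_eq_zero (f := fun r => (γ r).1 - r)
      (fun r => (h3 r).differentiableAt) (fun r => (h3 r).deriv) t 0
    simp only [h0] at h4
    linarith
  have h3 : ∀ t, HasDerivAt (fun r => (γ r).2) (X M μ (γ t)).2 t := by
    intro t
    exact (hasFDerivAt_snd (𝕜 := ℝ) (E := ℝ) (F := Fin (M + 1) → ℂ)
      (p := γ t)).comp_hasDerivAt t (hγ t)
  refine ⟨fun s n => ext M (γ s).2 n, ⟨?_, ?_⟩, ?_⟩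
  · intro s n hn
    exact ext_of_not M _ n (by omega)
  · intro s hs n hn
    rw [Finset.mem_Icc] at hn
    have h5 := (hasDerivAt_pi.1 (h3 s)) ⟨n, by omega⟩
    have h6 : (fun r => ext M (γ r).2 n) = fun r => (γ r).2 ⟨n, by omega⟩ := by
      funext r
      exact ext_of_mem M _ n hn
    rw [h6]
    refine h5.congr_deriv ?_
    unfold X rhs
    simp only [h2, E_eq s hs]
  · funext n
    simp only [h0]
    by_cases hn : 2 ≤ n ∧ n ≤ M
    · rw [ext_of_mem M _ n hn]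
    · rw [ext_of_not M _ n hn, hg n (by omega)]

end Pool.Agent.Lib.MPb879.Lin
end

section
/-!
# Linear asymptotic stability of `cos²` modulo the symmetries: all modules
-/
set_option autoImplicit false

namespace Pool.Agent.Lib.MPb879.Lin

theorem hZDE : SpecZDE := specZDE specENE specXDR specXDI

theorem hPAR : SpecPAR := specPAR specEXI specENE specPRH specPDF

theorem hMBD : SpecMBD := specMBD specEXI specENE hZDE specMOD hPAR specGLM

theorem main : SpecFIN := specFIN hMBD specSUM specLOW specFOU specDEC specINV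

end Pool.Agent.Lib.MPb879.Lin
end
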