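import Pool.Agent.Lib.MP_b879c5_an.BlowUp

/-!
# MP_b879c5_an, linear asymptotic stability of `cos²` modulo the symmetries: Specs

`f_n' = -i μ e^{-s} d_n f_n + ((n+2) f_{n+1} - (n-2) f_{n-1}) / 2`, `d_n = n³ - n`, `n ≥ 2`.
Complex time: `μ = T e^{-iσ}`. All sums are finite (Galerkin system `2 ≤ n ≤ M`).
Conventions: file `Lin/Xxx.lean`, `import Pool.Agent.Lib.MP_b879c5_an.Lin.SpecA`,
`theorem specXxx (h : SpecYyy) ... : SpecXxx`, own lemmas in namespace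
`Pool.Agent.Lib.MPb879.Lin.XxxM`.
-/

set_option autoImplicit false

namespace Pool.Agent.Lib.MPb879.Lin

open Set Filter Finset
open scoped Topology ContDiff

/-- `d_n = n³ - n`. -/
noncomputable def dd (n : ℕ) : ℝ := (n : ℝ) ^ 3 - n

/-- `w_n = (n-1) n (n+1) (n+2)`. -/
noncomputable def ww (n : ℕ) : ℝ := ((n : ℝ) - 1) * n * (n + 1) * (n + 2)

/-- The right-hand side for the mode `n` (used for `n ≥ 2`; for `n = 2` the coefficient of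
`f 1` is `0`). -/
noncomputable def rhs (μ : ℂ) (s : ℝ) (f : ℕ → ℂ) (n : ℕ) : ℂ :=
  -(Complex.I * μ * ((Real.exp (-s) * dd n : ℝ) : ℂ)) * f n +
    (((n : ℂ) + 2) * f (n + 1) - ((n : ℂ) - 2) * f (n - 1)) / 2

/-- `y = Σ d_n |f_n|²`. -/
noncomputable def yE (M : ℕ) (f : ℕ → ℂ) : ℝ := ∑ n ∈ Finset.Icc 2 M, dd n * ‖f n‖ ^ 2

/-- `x = (1/2) Σ w_n |f_n + f_{n+1}|²`. -/
noncomputable def xE (M : ℕ) (f : ℕ → ℂ) : ℝ :=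
  (1 / 2) * ∑ n ∈ Finset.Icc 2 M, ww n * ‖f n + f (n + 1)‖ ^ 2

/-- `Σ d_n² |f_n|²`. -/
noncomputable def dE (M : ℕ) (f : ℕ → ℂ) : ℝ := ∑ n ∈ Finset.Icc 2 M, dd n ^ 2 * ‖f n‖ ^ 2

/-- `Σ n² d_n |f_n|²`. -/
noncomputable def nE (M : ℕ) (f : ℕ → ℂ) : ℝ :=
  ∑ n ∈ Finset.Icc 2 M, (n : ℝ) ^ 2 * dd n * ‖f n‖ ^ 2

/-- `Σ d_n³ |f_n|²`. -/
noncomputable def hE (M : ℕ) (f : ℕ → ℂ) : ℝ := ∑ n ∈ Finset.Icc 2 M, dd n ^ 3 * ‖f n‖ ^ 2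

/-- `f` is supported in `2 ≤ n ≤ M`. -/
def Supp (M : ℕ) (f : ℕ → ℂ) : Prop := ∀ n, (n < 2 ∨ M < n) → f n = 0

/-- `f` is a solution of the Galerkin system `2 ≤ n ≤ M` for `s ≥ 0`. -/
structure Gal (M : ℕ) (μ : ℂ) (f : ℝ → ℕ → ℂ) : Prop where
  supp : ∀ s, Supp M (f s)
  der : ∀ s, 0 ≤ s → ∀ n ∈ Finset.Icc 2 M,
    HasDerivAt (fun r => f r n) (rhs μ s (f s) n) s

/-- `μ = T e^{-iσ}`. -/
noncomputable def mu (T σ : ℝ) : ℂ := (T : ℂ) * Complex.exp (-((σ : ℂ) * Complex.I))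

/-- The dispersive part of the derivative of `x` (without the factor `e^{-s}`). -/
noncomputable def disp (M : ℕ) (μ : ℂ) (f : ℕ → ℂ) : ℝ :=
  ∑ n ∈ Finset.Icc 2 M, ww n *
    (μ.im * (dd n * ‖f n‖ ^ 2 + dd (n + 1) * ‖f (n + 1)‖ ^ 2 +
        (dd n + dd (n + 1)) * (star (f n) * f (n + 1)).re) +
      μ.re * ((dd (n + 1) - dd n) * (star (f n) * f (n + 1)).im))

/-- `κ₀ = (72000 T / sin⁵σ)^{1/3}`. -/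
noncomputable def KK (T σ : ℝ) : ℝ := (72000 * T / Real.sin σ ^ 5) ^ (1 / 3 : ℝ)

/-! ## Block A: the Galerkin system -/

/-- EXI [120]: existence of Galerkin solutions (linear ODE in the finite dimensional space
`ℝ × (Fin (M+1) → ℂ)`, `Fin (M+1)` read as `n ≤ M`). Use `MPfab.Glob.global_sol`
(`Pool/Agent/Lib/MP_fabde4_an/B/Glob.lean`: a `C¹` field of linear growth has global integral
curves) for the field `(r, v) ↦ (1, (rhs with e^{-r} replaced by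
exp (-(r * Real.smoothTransition (r + 1)))) v)`, which is `C¹` and of linear growth, because
`exp (-(r * smoothTransition (r+1)))` is smooth, bounded by `e`, and equal to `e^{-r}` for
`r ≥ 0` (`Real.smoothTransition.one_of_one_le`). -/
def SpecEXI : Prop :=
  ∀ (M : ℕ) (μ : ℂ) (g : ℕ → ℂ), Supp M g → ∃ f, Gal M μ f ∧ f 0 = g

/-- ENE [80]: the energy identity. `Σ d_n 2 Re (conj f_n f_n')`; the dispersive part gives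
`2 Re (-i μ e^{-s}) d_n² |f_n|² = 2 μ.im e^{-s} d_n² |f_n|²`; the transport part is
`Re Σ conj f_n (d_n (n+2) f_{n+1} - d_n (n-2) f_{n-1})`, with `d_n (n+2) = w_n` and
`d_{n+1} (n-1) = w_n`: the two sums are `Re Σ w_n (conj f_n f_{n+1} - conj f_{n+1} f_n) = 0`
(`f_{M+1} = 0`, `f_1 = 0`). -/
def SpecENE : Prop :=
  ∀ (M : ℕ) (μ : ℂ) (f : ℝ → ℕ → ℂ), Gal M μ f → ∀ s, 0 ≤ s →
    HasDerivAt (fun r => yE M (f r)) (2 * μ.im * Real.exp (-s) * dE M (f s)) s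

/-- XDR [150]: the derivative of `x`. With `g_n = f_n + f_{n+1}` the transport part of `g_n'` is
`((n+3) g_{n+1} - g_n - (n-2) g_{n-1}) / 2` for `n < M` (for `n = 2` the last coefficient is `0`)
and `(-(M-2) g_{M-1} + (M-2) g_M) / 2 = (0 - g_M - (M-2) g_{M-1}) / 2 + (M-1) g_M / 2` for `n = M`
(`f_{M+1} = 0` is not moved), `w_n (n+3) = w_{n+1} (n-1)`, so the neighbouring terms cancel in
`Re Σ w_n conj g_n g_n'` and `-x + (M-1)/2 w_M |f_M|²` remains. Dispersive part: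
`Re (conj (f_n + f_{n+1}) (-i μ) (d_n f_n + d_{n+1} f_{n+1}))`
`= μ.im Re (..) + μ.re Im (..)`, `(..) = d_n |f_n|² + d_{n+1} |f_{n+1}|² + d_{n+1} z + d_n conj z`,
`z = conj f_n f_{n+1}`. -/
def SpecXDR : Prop :=
  ∀ (M : ℕ) (μ : ℂ) (f : ℝ → ℕ → ℂ), Gal M μ f → ∀ s, 0 ≤ s →
    HasDerivAt (fun r => xE M (f r))
      (-xE M (f s) + ((M : ℝ) - 1) / 2 * ww M * ‖f s M‖ ^ 2 +
        Real.exp (-s) * disp M μ (f s)) s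

/-- XDI [120]: the dispersion inequality (pure algebra). `μ.im = -T sin σ`, `μ.re = T cos σ`.
For each `n`, with `g = f_n + f_{n+1}`:
`d_n |f_n|² + d_{n+1} |f_{n+1}|² + (d_n + d_{n+1}) Re z`
`= (1/2) (d_n + d_{n+1}) |g|² - (1/2) (d_{n+1} - d_n) (|f_n|² - |f_{n+1}|²)`,
`Im z = Im (conj f_n g) ≤ |f_n| |g|`, `d_{n+1} - d_n = 3 n (n+1)`,
`d_n + d_{n+1} = n (n+1) (2n+1)`. Young:
`3 n (n+1) |f_n| |g| ≤ (1/2) sin σ n (n+1) (2n+1) |g|² + 9 n (n+1) / (2 (2n+1) sin σ) |f_n|²`. So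
`disp ≤ T Σ w_n (9 n (n+1) / (2 (2n+1) sin σ) |f_n|² + (3/2) sin σ n (n+1) (|f_n|² - |f_{n+1}|²))`.
First term: `w_n = (n+2) d_n`, `n (n+1) (n+2) ≤ (6/5) n² (2n+1)` for `n ≥ 2`: at most
`5.4 n² d_n |f_n|² / sin σ`. Second: shift the index in the sum of `|f_{n+1}|²` (`f_{M+1} = 0`,
and the term `n = 1` has `w_1 = 0`): `w_n n (n+1) - w_{n-1} (n-1) n = 6 n² d_n`: `9 sin σ n² d_n`.
Total `(5.4 / sin σ + 9 sin σ) ≤ 15 / sin σ`. -/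
def SpecXDI : Prop :=
  ∀ (M : ℕ) (f : ℕ → ℂ), Supp M f → ∀ T σ : ℝ, 0 < T → 0 < σ → σ ≤ Real.pi / 2 →
    disp M (mu T σ) f ≤ 15 * T / Real.sin σ * nE M f

/-- ZDE [150] (from ENE, XDR, XDI): `Z = x + κ y`, `κ = κ₀ e^{-s/3}`, `κ₀ = KK T σ`, satisfies
`Z' ≤ -Z/4` on `[0,S]` if `M ≥ M₀`. For `n ≥ 2`, `ε > 0`: `n² ≤ ε d_n + (16/9) ε⁻²`
(if `n ≤ 4/(3ε)` the second term, otherwise `d_n ≥ (3/4) n³`), so `nE ≤ ε dE + (16/9) ε⁻² yE`.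
With `ε = κ sin²σ / 15`, `S₀ = sin σ`, `ω = T e^{-s}`:
`x' ≤ -x + κ ω S₀ dE + 6000 ω κ⁻² S₀⁻⁵ yE + edge`, and `κ³ = 72000 ω S₀⁻⁵` (since
`κ³ = κ₀³ e^{-s}`), so `6000 ω κ⁻² S₀⁻⁵ = κ/12`;
`(κ y)' = -(1/3) κ y - 2 κ ω S₀ dE`. The edge term is at most `κ ω S₀ d_M² |f_M|² ≤ κ ω S₀ dE`
as soon as `(M-1)(M+2)/2 ≤ κ₀ e^{-S/3} T e^{-S} S₀ d_M`, true for `M` large. Sum:
`Z' ≤ -x - κ y / 4 ≤ -Z/4`. Then `e^{s/4} Z` is nonincreasing. -/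
def SpecZDE : Prop :=
  ∀ T σ S : ℝ, 0 < T → 0 < σ → σ ≤ Real.pi / 2 → 0 ≤ S →
    ∃ M₀ : ℕ, ∀ M, M₀ ≤ M → ∀ f : ℝ → ℕ → ℂ, Gal M (mu T σ) f →
      xE M (f S) ≤ Real.exp (-(S / 4)) * (xE M (f 0) + KK T σ * yE M (f 0))

/-- MOD [80]: `x` controls all modes. `f_n = Σ_{m=n}^M (-1)^{m-n} (f_m + f_{m+1})`
(`f_{M+1} = 0`), Cauchy-Schwarz, `Σ_{m=n}^M 1/w_m ≤ 1/(3 (n-1) n (n+1)) = 1/(3 d_n)` (telescoping:
`1/w_m = (1/3) (1/((m-1) m (m+1)) - 1/(m (m+1) (m+2)))`), `Σ w_m |g_m|² = 2 x`. (An induction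
downwards in `n` also works.) -/
def SpecMOD : Prop :=
  ∀ (M : ℕ) (f : ℕ → ℂ), Supp M f → ∀ n ∈ Finset.Icc 2 M, dd n * ‖f n‖ ^ 2 ≤ 2 / 3 * xE M f

/-- PRH [120]: bounds for the right-hand side (pure algebra). With `ψ_n = √d_n f_n`:
`√d_n rhs_n = -i μ e^{-s} d_n ψ_n + (c_n ψ_{n+1} - c_{n-1} ψ_{n-1}) / 2`,
`c_n² = (n-1) (n+2)` (`d_n (n+2)² = c_n² d_{n+1}`, `d_n (n-2)² = c_{n-1}² d_{n-1}`),
`c_n ≤ n + 1/2`, `c_{n-1} ≤ n - 1/2`, `|ψ_m| ≤ √yE`. Second part: `|a + b|² ≤ 2 |a|² + 2 |b|²`,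
`Σ |(c_n ψ_{n+1} - c_{n-1} ψ_{n-1})/2|² ≤ (1/2) Σ (c_{m-1}² + c_m²) |ψ_m|² ≤ Σ m² |ψ_m|² ≤ hE`
(`m ≤ d_m`). -/
def SpecPRH : Prop :=
  ∀ (M : ℕ) (μ : ℂ) (s : ℝ) (f : ℕ → ℂ), Supp M f →
    (∀ n ∈ Finset.Icc 2 M, Real.sqrt (dd n) * ‖rhs μ s f n‖ ≤
      (‖μ‖ * Real.exp (-s) * dd n + n) * Real.sqrt (yE M f)) ∧
    (yE M (rhs μ 0 f) ≤ 2 * (1 + ‖μ‖ ^ 2) * hE M f)

/-- PDF [200]: derivative in the parameter `σ`. `F σ` are solutions with the same initial data,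
`H σ` the solutions with initial data `rhs (mu T σ) 0 (F σ 0)`. Fix `σ`, `S`, write `F = F σ`,
`H = H σ`, `μ = mu T σ`, and `Θ(s)_n = i (rhs μ s F(s) n - H(s)_n)` for `2 ≤ n ≤ M`, `0` otherwise.
Then `Θ(0) = 0` and `Θ_n' = rhs μ s Θ n - μ e^{-s} d_n F_n` (differentiate `rhs μ s (F s) n`:
`+ i μ e^{-s} d_n F_n + rhs μ s (F') n`). For `h ≠ 0` put `δ = F (σ+h) - F - h Θ`; `δ(0) = 0`,
`δ_n' = rhs μ' s δ n - i e^{-s} d_n ((μ' - μ) + i h μ) F_n - i (μ' - μ) e^{-s} d_n h Θ_n`,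
`μ' = mu T (σ+h)`, `|μ' - μ| ≤ |T| |h|`, `|μ' - μ + i h μ| ≤ |T| h²`. `F`, `Θ` are bounded on
`[0,S]`; so `y(δ)' ≤ C y(δ) + C h⁴` (`C` depends on everything but `h`), Gronwall:
`y(δ)(S) ≤ C' h⁴`, `|δ_n(S)| ≤ C'' h²`. -/
def SpecPDF : Prop :=
  ∀ (M : ℕ) (T : ℝ) (F H : ℝ → ℝ → ℕ → ℂ),
    (∀ σ, Gal M (mu T σ) (F σ)) → (∀ σ, Gal M (mu T σ) (H σ)) →
    (∀ σ σ', F σ 0 = F σ' 0) →
    (∀ σ, ∀ n ∈ Finset.Icc 2 M, H σ 0 n = rhs (mu T σ) 0 (F σ 0) n) →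
    ∀ S, 0 ≤ S → ∀ n ∈ Finset.Icc 2 M, ∀ σ,
      HasDerivAt (fun a => F a S n)
        (Complex.I * (rhs (mu T σ) S (F σ S) n - H σ S n)) σ

/-- PAR [120] (from EXI, ENE, PRH, PDF): the transfer `σ → 0`. `H σ` by EXI. For
`σ ∈ [0, π/2]`, `(mu T σ).im ≤ 0`, so `yE` is nonincreasing (ENE) for `F σ` and `H σ`:
`√d_n ‖i (rhs - H)‖ ≤ (T e^{-S} d_n + n) √(yE g) + √(yE (rhs μ 0 g))` and
`√(2 (1+T²)) ≤ 2 (1+T)`; mean value inequality on `[0,σ]`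
(`norm_image_sub_le_of_norm_deriv_le_segment'` or `Convex.norm_image_sub_le_of_norm_hasDerivWithin_le`). -/
def SpecPAR : Prop :=
  ∀ (M : ℕ) (T : ℝ) (g : ℕ → ℂ) (F : ℝ → ℝ → ℕ → ℂ), 0 < T → Supp M g →
    (∀ σ, Gal M (mu T σ) (F σ)) → (∀ σ, F σ 0 = g) →
    ∀ σ S, 0 ≤ σ → σ ≤ Real.pi / 2 → 0 ≤ S → ∀ n ∈ Finset.Icc 2 M,
      Real.sqrt (dd n) * ‖F 0 S n - F σ S n‖ ≤
        σ * ((T * Real.exp (-S) * dd n + n) * Real.sqrt (yE M g) +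
          2 * (1 + T) * Real.sqrt (hE M g))

/-! ## Block B: the infinite system -/

/-- A solution of the infinite system (`n ≥ 2`) with parameter `T`, with decaying modes. -/
structure Inf (T : ℝ) (f : ℝ → ℕ → ℂ) : Prop where
  der : ∀ s, 0 ≤ s → ∀ n, 2 ≤ n → HasDerivAt (fun r => f r n) (rhs (T : ℂ) s (f s) n) s
  dec : ∀ S, ∃ C, ∀ s ∈ Set.Icc 0 S, ∀ n : ℕ, 2 ≤ n → ‖f s n‖ ≤ C / (n : ℝ) ^ 4

/-- GLM [150]: Galerkin convergence. `δ_n = F M s n - f s n` for `2 ≤ n ≤ M`, `0` otherwise: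
`δ_n' = rhs T s δ n` for `n < M`, and `δ_M' = rhs T s δ M - (M+2) f_{M+1} / 2`. Energy (as ENE,
`T` real): `y(δ)' = -Re (d_M conj δ_M (M+2) f_{M+1}) ≤ y(δ) + d_M (M+2)² |f_{M+1}|² / 4`,
`y(δ)(0) = 0`, so `y(δ)(S) ≤ (e^S - 1) M³ (M+2)² C² / (4 (M+1)⁸) → 0`. -/
def SpecGLM : Prop :=
  ∀ (T : ℝ) (f : ℝ → ℕ → ℂ) (F : ℕ → ℝ → ℕ → ℂ), Inf T f →
    (∀ M, Gal M (T : ℂ) (F M)) → (∀ M, ∀ n ∈ Finset.Icc 2 M, F M 0 n = f 0 n) →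
    ∀ S, 0 ≤ S → ∀ n, 2 ≤ n → Tendsto (fun M => F M S n) atTop (𝓝 (f S n))

/-- MBD [200] (from EXI, ENE, ZDE, MOD, PAR, GLM): bounds for the modes of the infinite system.
`g_M` = truncation of `f 0`, `F M σ` by EXI. `yE g_M`, `hE g_M`, `xE g_M ≤ N²`
(`Σ_{n ≥ 2} n³ n^{-12}`, `Σ_{n≥2} n⁹ n^{-12} ≤ 1`;
`xE ≤ Σ (w_n + w_{n-1}) |f_n|² = Σ 2 n d_n |f_n|²`). `σ = e^{-S/12} ≤ 1 ≤ π/2`. For `M ≥ M₀`:
`√d_n |F σ S n| ≤ √(2/3) e^{-S/8} √(1 + KK T σ) N` (ZDE, MOD), and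
`KK T σ ≤ C T^{1/3} σ^{-5/3}` (`sin σ ≥ 2σ/π`, `Real.mul_le_sin`), `T^{1/6} ≤ 1 + T`, so this is
`≤ C N (1+T) e^{-S/8 + 5S/72} = C N (1+T) e^{-S/18}`. Add PAR and let `M → ∞` (GLM).
Second part: ENE with `μ = T` real: `yE M (F 0 S) = yE M (g_M) ≤ N²`; limit. -/
def SpecMBD : Prop :=
  ∃ C : ℝ, 0 < C ∧ ∀ (T N : ℝ) (f : ℝ → ℕ → ℂ), 0 < T → 0 ≤ N → Inf T f →
    (∀ n : ℕ, 2 ≤ n → ‖f 0 n‖ ≤ N / (n : ℝ) ^ 6) → ∀ S, 0 ≤ S →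
    (∀ n : ℕ, 2 ≤ n → Real.sqrt (dd n) * ‖f S n‖ ≤
      N * (C * (1 + T) * Real.exp (-(S / 18)) +
        Real.exp (-(S / 12)) * (T * Real.exp (-S) * dd n + n))) ∧
    (∀ L : ℕ, yE L (f S) ≤ N ^ 2)

/-- SUM [150]: summation of the modes (real analysis only). `K = ⌈e^{S/18}⌉`,
`e^{S/18} ≤ K ≤ 2 e^{S/18}`, `d_n ≥ n³/2`. For `n ≤ K`: `Σ d_n^{-1/2} ≤ C`,
`Σ_{n≤K} n d_n^{-1/2} ≤ C √K`, `Σ_{n≤K} √d_n ≤ K^{5/2}`; for `n > K` Cauchy-Schwarz with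
`Σ_{n>K} 1/d_n ≤ 1/(2 K (K+1))` (telescoping) and the second hypothesis. -/
def SpecSUM : Prop :=
  ∀ C : ℝ, 0 < C → ∃ C' : ℝ, 0 < C' ∧ ∀ (T N S : ℝ) (a : ℕ → ℝ), 0 < T → 0 ≤ N → 0 ≤ S →
    (∀ n, 0 ≤ a n) →
    (∀ n : ℕ, 2 ≤ n → Real.sqrt (dd n) * a n ≤
      N * (C * (1 + T) * Real.exp (-(S / 18)) +
        Real.exp (-(S / 12)) * (T * Real.exp (-S) * dd n + n))) →
    (∀ L : ℕ, ∑ n ∈ Finset.Icc 2 L, dd n * a n ^ 2 ≤ N ^ 2) →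
    ∀ L : ℕ, ∑ n ∈ Finset.Icc 2 L, a n ≤ C' * (1 + T) * N * Real.exp (-(S / 18))

/-- LOW [150]: the modes `0, 1`. `p = f₀ + 2 Re f₁`, `m = f₀ - 2 Re f₁`, `b = -2 Im f₁`:
`p' = p + 3 Re f₂`, `m' = -m - 3 Re f₂`, `b' = -3 Im f₂`. `α = lim e^{-s} p`, `β = lim b`
(`α = p(0) + 3 ∫₀^∞ e^{-r} Re f₂`), `|p - α e^s| ≤ 3 B e^{-s/18}`,
`|m| ≤ |m(0)| e^{-s} + 4 B e^{-s/18}`, `|b - β| ≤ 54 B e^{-s/18}`; `f₀ = (p+m)/2`,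
`2 Re f₁ = (p-m)/2`. -/
def SpecLOW : Prop :=
  ∃ C : ℝ, 0 < C ∧ ∀ (B : ℝ) (f0 : ℝ → ℝ) (f1 f2 : ℝ → ℂ), 0 ≤ B →
    ContinuousOn f2 (Set.Ici 0) →
    (∀ s, 0 ≤ s → HasDerivAt f0 (2 * (f1 s).re) s) →
    (∀ s, 0 ≤ s → HasDerivAt f1 ((f0 s : ℂ) / 2 + 3 / 2 * f2 s) s) →
    (∀ s, 0 ≤ s → ‖f2 s‖ ≤ B * Real.exp (-(s / 18))) →
    ∃ α β : ℝ, ∀ s, 0 ≤ s →
      |f0 s - α / 2 * Real.exp s| ≤
        C * (B + |f0 0| + ‖f1 0‖) * Real.exp (-(s / 18)) ∧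
      |2 * (f1 s).re - α / 2 * Real.exp s| ≤
        C * (B + |f0 0| + ‖f1 0‖) * Real.exp (-(s / 18)) ∧
      |-2 * (f1 s).im - β| ≤ C * (B + |f0 0| + ‖f1 0‖) * Real.exp (-(s / 18))

/-! ## Block C: the partial differential equation -/

/-- The blow-up pattern `(T-t)⁻¹ cos² ((x-t)/2)`. -/
noncomputable def profile (T t x : ℝ) : ℝ := Real.cos ((x - t) / 2) ^ 2 / (T - t)

/-- `v` (first argument time, second argument space) is a classical (smooth) real solution on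
`(0,T) × ℝ`, `2π`-periodic in space, of `v_t = v_xxx + 2 U_x v_x + 2 U v`, the linearisation of
`u_t = u_xxx + (u_x)^2 + u^2` at `U = profile T`. -/
def IsLinearSolution (T : ℝ) (v : ℝ → ℝ → ℝ) : Prop :=
  ContDiffOn ℝ ∞ (fun p : ℝ × ℝ => v p.1 p.2) (Ioo 0 T ×ˢ univ) ∧
  (∀ t ∈ Ioo 0 T, ∀ x, v t (x + 2 * Real.pi) = v t x) ∧
  (∀ t ∈ Ioo 0 T, ∀ x,
    deriv (fun s => v s x) t = iteratedDeriv 3 (v t) x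
      + 2 * deriv (profile T t) x * deriv (v t) x + 2 * profile T t x * v t x)

/-- The `H⁶` norm over one period. -/
noncomputable def H6norm (v : ℝ → ℝ → ℝ) (t : ℝ) : ℝ :=
  Real.sqrt (∫ x in (0)..(2 * Real.pi), ((v t x) ^ 2 + (iteratedDeriv 6 (v t) x) ^ 2))

/-- The Fourier coefficient of `g`. -/
noncomputable def fc (g : ℝ → ℝ) (n : ℕ) : ℂ :=
  (1 / (2 * Real.pi) : ℝ) *
    ∫ x in (0)..(2 * Real.pi), (g x : ℂ) * Complex.exp (-((n : ℂ) * x * Complex.I))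

/-- `F_n(s) = (T-t) e^{int} v̂_n(t)`, `t = T - (T-t₀) e^{-s}`. -/
noncomputable def FF (T t₀ : ℝ) (v : ℝ → ℝ → ℝ) (s : ℝ) (n : ℕ) : ℂ :=
  (((T - t₀) * Real.exp (-s) : ℝ) : ℂ) *
    Complex.exp ((n : ℂ) * ((T - (T - t₀) * Real.exp (-s) : ℝ) : ℂ) * Complex.I) *
    fc (v (T - (T - t₀) * Real.exp (-s))) n

/-- FOU [250]: the equations of the modes. With `V_n(t) = fc (v t) n` and `V_{-1} = conj V_1`:
`V_n' = -i n³ V_n + (T-t)⁻¹ (V_n + ((n+2) e^{it} V_{n+1} - (n-2) e^{-it} V_{n-1}) / 2)`: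
differentiation under the integral (`Sm.hasDerivAt_integral` of `Basic.lean` for
`v cos (n x)`, `v sin (n x)`), the equation, `2 U = (1 + cos (x-t)) / (T-t)`,
`2 U_x = -sin (x-t) / (T-t)`, three integrations by parts (periodic, no boundary terms; also
for `sin (x-t) v_x`: `∫ sin(x-t) v_x e = -∫ (cos(x-t) - i n sin(x-t)) v e`).
Then `F_n = (T-t) e^{int} V_n` satisfies
`dF_n/dt = -i (n³-n) F_n + ((n+2) F_{n+1} - (n-2) F_{n-1}) / (2 (T-t))` and `dt/ds = T-t`. -/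
def SpecFOU : Prop :=
  ∀ (T t₀ : ℝ) (v : ℝ → ℝ → ℝ), IsLinearSolution T v → 0 < t₀ → t₀ < T → ∀ s, 0 ≤ s →
    (∀ n, 2 ≤ n → HasDerivAt (fun r => FF T t₀ v r n)
      (rhs ((T - t₀ : ℝ) : ℂ) s (FF T t₀ v s) n) s) ∧
    HasDerivAt (fun r => FF T t₀ v r 1)
      (((FF T t₀ v s 0).re : ℂ) / 2 + 3 / 2 * FF T t₀ v s 2) s ∧
    HasDerivAt (fun r => (FF T t₀ v r 0).re) (2 * (FF T t₀ v s 1).re) s ∧
    (FF T t₀ v s 0).im = 0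

/-- DEC [150]: decay of the modes. `n`-fold integration by parts:
`|fc (v t) n| ≤ n^{-4} sup |∂_x⁴ v(t,·)|` with `∂_x⁴ v` bounded on compact sets of `(0,T) × ℝ`
(periodic); `|fc (v t) n| ≤ n^{-6} (1/2π) ∫ |∂_x⁶ v| ≤ n^{-6} (2π)^{-1/2} ‖∂_x⁶ v‖_{L²}` and
`|fc (v t) 0|, |fc (v t) 1| ≤ (2π)^{-1/2} ‖v‖_{L²}` (Cauchy-Schwarz). -/
def SpecDEC : Prop :=
  ∀ (T t₀ : ℝ) (v : ℝ → ℝ → ℝ), IsLinearSolution T v → 0 < t₀ → t₀ < T →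
    (∀ S, ∃ C, ∀ s ∈ Set.Icc 0 S, ∀ n : ℕ, 2 ≤ n → ‖FF T t₀ v s n‖ ≤ C / (n : ℝ) ^ 4) ∧
    (∀ n : ℕ, 2 ≤ n → ‖FF T t₀ v 0 n‖ ≤ (T - t₀) * H6norm v t₀ / (n : ℝ) ^ 6) ∧
    ‖FF T t₀ v 0 0‖ ≤ (T - t₀) * H6norm v t₀ ∧ ‖FF T t₀ v 0 1‖ ≤ (T - t₀) * H6norm v t₀

/-- INV [150]: Fourier inversion. `g` smooth and `2π`-periodic: its Fourier series is absolutely
summable with sum `g` (`has_pointwise_sum_fourier_series_of_summable`, coefficients of index `-n`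
are conjugates); the terms `|n| ≥ 2` contribute at most `2 B`. -/
def SpecINV : Prop :=
  ∀ (g : ℝ → ℝ) (B : ℝ), ContDiff ℝ ∞ g → (∀ x, g (x + 2 * Real.pi) = g x) →
    (∀ L : ℕ, ∑ n ∈ Finset.Icc 2 L, ‖fc g n‖ ≤ B) →
    ∀ x, |g x - (fc g 0).re - 2 * (fc g 1 * Complex.exp ((x : ℂ) * Complex.I)).re| ≤ 2 * B

/-- The final statement. -/
def SpecFIN : Prop :=
  ∃ C : ℝ, 0 < C ∧ ∀ (T : ℝ) (v : ℝ → ℝ → ℝ), 0 < T → IsLinearSolution T v →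
    ∃ α β : ℝ, ∀ t₀ ∈ Ioo 0 T, ∀ t ∈ Ico t₀ T, ∀ x,
      |(T - t) * v t x - α / (T - t) * Real.cos ((x - t) / 2) ^ 2 - β * Real.sin (x - t)| ≤
        C * (1 + T) * (T - t₀) * H6norm v t₀ * ((T - t) / (T - t₀)) ^ (1 / 18 : ℝ)

end Pool.Agent.Lib.MPb879.Lin
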